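import Mathlib

/-!
# MP_0f3a7d_al: machines, word problems, asymptotic cones

Machines: a nondeterministic machine with finitely many stacks over a finite alphabet; the finite control is written as a
regular program (a regular expression over the actions push a letter, pop a given letter, test that a stack is empty). Time is
the number of actions, space is the total height of the stacks. One machine model is used for both complexity classes.
-/

set_option autoImplicit false

namespace Pool.Agent.Lib.MP_0f3a7d_alT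

/-! ## Machines -/

/-- Nondeterministic programs for `k` stacks over the alphabet `Γ`: no run, the empty program, push a letter, pop a given
letter, test that a stack is empty, composition, choice, iteration. -/
inductive Prog (k : ℕ) (Γ : Type) : Type where
  | zero : Prog k Γ
  | one : Prog k Γ
  | push (i : Fin k) (a : Γ) : Prog k Γ
  | pop (i : Fin k) (a : Γ) : Prog k Γ
  | empty (i : Fin k) : Prog k Γ
  | seq (p q : Prog k Γ) : Prog k Γ
  | alt (p q : Prog k Γ) : Prog k Γ
  | star (p : Prog k Γ) : Prog k Γ

/-- The contents of the `k` stacks (the head of the list is the top of the stack). -/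
abbrev Store (k : ℕ) (Γ : Type) : Type := Fin k → List Γ

/-- The space of a store: the total height of the stacks. -/
def space {k : ℕ} {Γ : Type} (s : Store k Γ) : ℕ := ∑ i, (s i).length

/-- `Run b p t s s'`: the program `p` can lead from the store `s` to the store `s'` with `t` actions, and all stores on the way
have space at most `b`. -/
inductive Run {k : ℕ} {Γ : Type} (b : ℕ) : Prog k Γ → ℕ → Store k Γ → Store k Γ → Prop where
  | one (s : Store k Γ) (h : space s ≤ b) : Run b .one 0 s s
  | push (i : Fin k) (a : Γ) (s : Store k Γ) (h : space (Function.update s i (a :: s i)) ≤ b) :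
      Run b (.push i a) 1 s (Function.update s i (a :: s i))
  | pop (i : Fin k) (a : Γ) (s : Store k Γ) (l : List Γ) (hs : s i = a :: l) (h : space s ≤ b) :
      Run b (.pop i a) 1 s (Function.update s i l)
  | empty (i : Fin k) (s : Store k Γ) (hs : s i = []) (h : space s ≤ b) : Run b (.empty i) 1 s s
  | seq (p q : Prog k Γ) (t t' : ℕ) (s s' s'' : Store k Γ) (h : Run b p t s s')
      (h' : Run b q t' s' s'') : Run b (.seq p q) (t + t') s s''
  | altl (p q : Prog k Γ) (t : ℕ) (s s' : Store k Γ) (h : Run b p t s s') : Run b (.alt p q) t s s'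
  | altr (p q : Prog k Γ) (t : ℕ) (s s' : Store k Γ) (h : Run b q t s s') : Run b (.alt p q) t s s'
  | starNil (p : Prog k Γ) (s : Store k Γ) (h : space s ≤ b) : Run b (.star p) 0 s s
  | starCons (p : Prog k Γ) (t t' : ℕ) (s s' s'' : Store k Γ) (h : Run b p t s s')
      (h' : Run b (.star p) t' s' s'') : Run b (.star p) (t + t') s s''

/-- A nondeterministic machine with input alphabet `σ`: the number of stacks besides the input stack `0`, the finite stack
alphabet, the letters of the input, the program. -/
structure Machine (σ : Type) : Type 1 where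
  k : ℕ
  Γ : Type
  fin : Finite Γ
  inp : σ → Γ
  prog : Prog (k + 1) Γ

/-- The initial store: the input on stack `0`. -/
def Machine.init {σ : Type} (M : Machine σ) (x : List σ) : Store (M.k + 1) M.Γ :=
  fun i => if i = 0 then x.map M.inp else []

/-- The machine accepts `x` in time `t` and space `b`: its program has a complete run. -/
def Machine.Acc {σ : Type} (M : Machine σ) (x : List σ) (t b : ℕ) : Prop :=
  ∃ s, Run b M.prog t (M.init x) s

/-- The class NP: some machine accepts exactly the words of `L`, in time at most `c (|x| + 1) ^ c`. -/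
def InNP {σ : Type} (L : Set (List σ)) : Prop :=
  ∃ (M : Machine σ) (c : ℕ), (∀ x ∈ L, ∃ t b, t ≤ c * (x.length + 1) ^ c ∧ M.Acc x t b) ∧
    ∀ x t b, M.Acc x t b → x ∈ L

/-- Some machine accepts exactly the words of `L`, in time at most `c (|x| + 1) ^ c` and, in the same run, in space at most
`c (|x| + 1)`. -/
def InPolyTimeLinSpace {σ : Type} (L : Set (List σ)) : Prop :=
  ∃ (M : Machine σ) (c : ℕ), (∀ x ∈ L, ∃ t b, t ≤ c * (x.length + 1) ^ c ∧ b ≤ c * (x.length + 1) ∧
    M.Acc x t b) ∧ ∀ x t b, M.Acc x t b → x ∈ L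

/-! ## Words in groups -/

/-- A word over the letters `i ∈ ι` and their formal inverses: `(i, true)` is the letter, `(i, false)` its inverse. -/
abbrev Wd (ι : Type) : Type := List (ι × Bool)

/-- The value of a word in a group with the generators `g i`. -/
def val {ι G : Type} [Group G] (g : ι → G) (w : Wd ι) : G :=
  (w.map fun y => cond y.2 (g y.1) (g y.1)⁻¹).prod

/-- The formal inverse of a word. -/
def inv {ι : Type} (w : Wd ι) : Wd ι := (w.map fun y => (y.1, !y.2)).reverse

/-- The group is finitely generated and its word problem (the set of the words over the generators and their inverses with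
value `1`) is in NP. -/
def WordNP (G : Type) [Group G] : Prop :=
  ∃ (ι : Type) (_ : Finite ι) (g : ι → G), Subgroup.closure (Set.range g) = ⊤ ∧
    InNP {w : Wd ι | val g w = 1}

/-- The word length of an element. -/
noncomputable def len {ι H : Type} [Group H] (g : ι → H) (h : H) : ℕ :=
  sInf {m | ∃ w : Wd ι, w.length = m ∧ val g w = h}

section Words

variable {ι G : Type} [Group G] (g : ι → G)

theorem val_nil : val g [] = 1 := rfl

theorem val_cons (y : ι × Bool) (w : Wd ι) : val g (y :: w) = cond y.2 (g y.1) (g y.1)⁻¹ * val g w := by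
  unfold val
  rw [List.map_cons, List.prod_cons]

theorem val_append (v w : Wd ι) : val g (v ++ w) = val g v * val g w := by
  unfold val
  rw [List.map_append, List.prod_append]

theorem val_eq_lift (w : Wd ι) : val g w = FreeGroup.lift g (FreeGroup.mk w) := by
  rw [FreeGroup.lift_mk]
  rfl

theorem mk_inv (w : Wd ι) : FreeGroup.mk (inv w) = (FreeGroup.mk w)⁻¹ := by
  rw [FreeGroup.inv_mk]
  rfl

theorem val_inv (w : Wd ι) : val g (inv w) = (val g w)⁻¹ := by
  rw [val_eq_lift, val_eq_lift, mk_inv, map_inv]

theorem length_inv (w : Wd ι) : (inv w).length = w.length := by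
  unfold inv
  rw [List.length_reverse, List.length_map]

variable {g}

theorem exists_word (hg : Subgroup.closure (Set.range g) = ⊤) (h : G) : ∃ w : Wd ι, val g w = h := by
  have h1 : h ∈ Subgroup.closure (Set.range g) := hg ▸ Subgroup.mem_top h
  induction h1 using Subgroup.closure_induction with
  | mem x hx =>
    obtain ⟨i, rfl⟩ := hx
    exact ⟨[(i, true)], by rw [val_cons, val_nil, mul_one]; rfl⟩
  | one => exact ⟨[], rfl⟩
  | mul x y _ _ hx hy =>
    obtain ⟨v, rfl⟩ := hx
    obtain ⟨w, rfl⟩ := hy
    exact ⟨v ++ w, val_append g v w⟩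
  | inv x _ hx =>
    obtain ⟨v, rfl⟩ := hx
    exact ⟨inv v, val_inv g v⟩

/-- A word of minimal length. -/
theorem exists_geod (hg : Subgroup.closure (Set.range g) = ⊤) (h : G) :
    ∃ w : Wd ι, w.length = len g h ∧ val g w = h := by
  obtain ⟨w, hw⟩ := exists_word hg h
  have h1 : {m | ∃ w : Wd ι, w.length = m ∧ val g w = h}.Nonempty := ⟨w.length, w, rfl, hw⟩
  exact Nat.sInf_mem h1

theorem len_val_le (w : Wd ι) : len g (val g w) ≤ w.length :=
  Nat.sInf_le ⟨w, rfl, rfl⟩

theorem len_one : len g (1 : G) = 0 := by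
  have h := len_val_le (g := g) []
  rw [val_nil] at h
  exact Nat.le_zero.1 h

theorem len_inv_le (h : G) (hg : Subgroup.closure (Set.range g) = ⊤) : len g h⁻¹ ≤ len g h := by
  obtain ⟨w, hw, hv⟩ := exists_geod hg h
  rw [← hw, ← hv, ← val_inv, ← length_inv w]
  exact len_val_le _

theorem len_inv (hg : Subgroup.closure (Set.range g) = ⊤) (h : G) : len g h⁻¹ = len g h := by
  refine le_antisymm (len_inv_le h hg) ?_
  have h1 := len_inv_le h⁻¹ hg
  rwa [inv_inv] at h1

theorem len_mul_le (hg : Subgroup.closure (Set.range g) = ⊤) (h h' : G) :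
    len g (h * h') ≤ len g h + len g h' := by
  obtain ⟨w, hw, hv⟩ := exists_geod hg h
  obtain ⟨w', hw', hv'⟩ := exists_geod hg h'
  rw [← hw, ← hw', ← hv, ← hv', ← val_append, ← List.length_append]
  exact len_val_le _

end Words

/-! ## Asymptotic cones -/

/-- The sequences in `H` whose word length is at most a constant times the scaling factor `d m > 0`. -/
structure CSeq {ι H : Type} [Group H] (g : ι → H) (hg : Subgroup.closure (Set.range g) = ⊤)
    (ω : Ultrafilter ℕ) (d : ℕ → ℝ) (hd : ∀ m, 0 < d m) : Type where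
  x : ℕ → H
  bdd : ∃ C : ℝ, ∀ m, (len g (x m) : ℝ) ≤ C * d m

/-- The distances `r` (at least `0`) with `|x_m⁻¹ y_m| ≤ r d_m` for almost all `m`. -/
def dset {ι H : Type} [Group H] (g : ι → H) (ω : Ultrafilter ℕ) (d : ℕ → ℝ) (x y : ℕ → H) : Set ℝ :=
  {r : ℝ | 0 ≤ r ∧ ∀ᶠ m in (ω : Filter ℕ), (len g ((x m)⁻¹ * y m) : ℝ) ≤ r * d m}

/-- The limit along `ω` of the distances `|x_m⁻¹ y_m| / d_m`. -/
noncomputable def cdist {ι H : Type} [Group H] (g : ι → H) (ω : Ultrafilter ℕ) (d : ℕ → ℝ)
    (x y : ℕ → H) : ℝ := sInf (dset g ω d x y)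

section Cone

variable {ι H : Type} [Group H] {g : ι → H} {hg : Subgroup.closure (Set.range g) = ⊤}
  {ω : Ultrafilter ℕ} {d : ℕ → ℝ} {hd : ∀ m, 0 < d m}

theorem dset_bdd (x y : ℕ → H) : BddBelow (dset g ω d x y) := ⟨0, fun _ h => h.1⟩

theorem dset_nonempty (x y : CSeq g hg ω d hd) : (dset g ω d x.x y.x).Nonempty := by
  obtain ⟨C, hC⟩ := x.bdd
  obtain ⟨C', hC'⟩ := y.bdd
  refine ⟨max (C + C') 0, le_max_right _ _, Filter.Eventually.of_forall fun m => ?_⟩
  have h1 : (len g ((x.x m)⁻¹ * y.x m) : ℝ) ≤ len g (x.x m) + len g (y.x m) := by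
    have h2 := len_mul_le hg (x.x m)⁻¹ (y.x m)
    rw [len_inv hg] at h2
    exact_mod_cast h2
  have h3 := hC m
  have h4 := hC' m
  have h5 : (C + C') * d m ≤ max (C + C') 0 * d m :=
    mul_le_mul_of_nonneg_right (le_max_left _ _) (hd m).le
  linarith

theorem cdist_self (x : CSeq g hg ω d hd) : cdist g ω d x.x x.x = 0 := by
  refine le_antisymm (csInf_le (dset_bdd _ _) ⟨le_rfl, Filter.Eventually.of_forall fun m => ?_⟩)
    (le_csInf (dset_nonempty x x) fun _ h => h.1)
  rw [inv_mul_cancel, len_one, zero_mul]
  exact le_of_eq Nat.cast_zero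

theorem cdist_comm (x y : CSeq g hg ω d hd) : cdist g ω d x.x y.x = cdist g ω d y.x x.x := by
  have h : dset g ω d x.x y.x = dset g ω d y.x x.x := by
    ext r
    unfold dset
    have h1 : ∀ m, len g ((x.x m)⁻¹ * y.x m) = len g ((y.x m)⁻¹ * x.x m) := by
      intro m
      rw [← len_inv hg, mul_inv_rev, inv_inv]
    simp only [Set.mem_ofPred_eq, h1]
  unfold cdist
  rw [h]

theorem cdist_triangle (x y z : CSeq g hg ω d hd) :
    cdist g ω d x.x z.x ≤ cdist g ω d x.x y.x + cdist g ω d y.x z.x := by
  have key : ∀ r ∈ dset g ω d x.x y.x, ∀ r' ∈ dset g ω d y.x z.x, cdist g ω d x.x z.x ≤ r + r' := by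
    intro r hr r' hr'
    refine csInf_le (dset_bdd _ _) ⟨add_nonneg hr.1 hr'.1, ?_⟩
    filter_upwards [hr.2, hr'.2] with m h1 h2
    have h3 : (x.x m)⁻¹ * z.x m = ((x.x m)⁻¹ * y.x m) * ((y.x m)⁻¹ * z.x m) := by group
    have h4 := len_mul_le hg ((x.x m)⁻¹ * y.x m) ((y.x m)⁻¹ * z.x m)
    rw [← h3] at h4
    have h5 : (len g ((x.x m)⁻¹ * z.x m) : ℝ) ≤
        len g ((x.x m)⁻¹ * y.x m) + len g ((y.x m)⁻¹ * z.x m) := by exact_mod_cast h4
    rw [add_mul]
    linarith
  have h1 : ∀ r' ∈ dset g ω d y.x z.x, cdist g ω d x.x z.x - r' ≤ cdist g ω d x.x y.x := by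
    intro r' hr'
    refine le_csInf (dset_nonempty x y) fun r hr => ?_
    have := key r hr r' hr'
    linarith
  have h2 : cdist g ω d x.x z.x - cdist g ω d x.x y.x ≤ cdist g ω d y.x z.x := by
    refine le_csInf (dset_nonempty y z) fun r' hr' => ?_
    have := h1 r' hr'
    linarith
  linarith

noncomputable instance : PseudoMetricSpace (CSeq g hg ω d hd) where
  dist x y := cdist g ω d x.x y.x
  dist_self := cdist_self
  dist_comm := cdist_comm
  dist_triangle := cdist_triangle

end Cone

/-- The asymptotic cone of `H` with the word metric of the generators `g`, for the ultrafilter `ω` and the scaling factors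
`d m`, based at the identity: sequences, with sequences at distance `0` identified. -/
abbrev Cone {ι H : Type} [Group H] (g : ι → H) (hg : Subgroup.closure (Set.range g) = ⊤)
    (ω : Ultrafilter ℕ) (d : ℕ → ℝ) (hd : ∀ m, 0 < d m) : Type :=
  SeparationQuotient (CSeq g hg ω d hd)

/-- All asymptotic cones of `H` with the word metric of `g` are simply connected (`ω` non-principal, `d_m → ∞`). -/
def ConesSC {ι H : Type} [Group H] (g : ι → H) (hg : Subgroup.closure (Set.range g) = ⊤) : Prop :=
  ∀ (ω : Ultrafilter ℕ) (d : ℕ → ℝ) (hd : ∀ m, 0 < d m), (ω : Filter ℕ) ≤ Filter.cofinite →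
    Filter.Tendsto d Filter.atTop Filter.atTop → SimplyConnectedSpace (Cone g hg ω d hd)

/-- `G` embeds in a finitely generated group all of whose asymptotic cones are simply connected. -/
def EmbedsSC (G : Type) [Group G] : Prop :=
  ∃ (H : Type) (_ : Group H) (f : G →* H), Function.Injective f ∧
    ∃ (ι : Type) (_ : Finite ι) (g : ι → H) (hg : Subgroup.closure (Set.range g) = ⊤), ConesSC g hg

end Pool.Agent.Lib.MP_0f3a7d_alT
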