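import Mathlib
import Pool.Agent.Lib.MP_0f3a7d_alT.Defs

/-!
# MP_0f3a7d_al: division of loops, derivations, the groups `HL L`, auxiliary programs
-/

set_option autoImplicit false

namespace Pool.Agent.Lib.MP_0f3a7d_alT

/-! ## Division of loops and derivations -/

/-- Division of loops with the constant `M`: every word `w` with value `1` and length at least `M` is freely equal to a product
of at most `M` conjugates `p u p⁻¹` of words `u` with value `1` and length at most `|w| / 2`, `|p| ≤ M |w|`. -/
def Divis {ι H : Type} [Group H] (g : ι → H) (M : ℕ) : Prop :=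
  ∀ w : Wd ι, val g w = 1 → M ≤ w.length → ∃ l : List (Wd ι × Wd ι), l.length ≤ M ∧
    (∀ q ∈ l, q.1.length ≤ M * w.length ∧ 2 * q.2.length ≤ w.length ∧ val g q.2 = 1) ∧
    FreeGroup.mk w = (l.map fun q => FreeGroup.mk q.1 * FreeGroup.mk q.2 * (FreeGroup.mk q.1)⁻¹).prod

/-- One step: insert or delete a pair of inverse letters, or delete a word of `R`. -/
inductive Step {ι : Type} (R : Set (Wd ι)) : Wd ι → Wd ι → Prop where
  | ins (u v : Wd ι) (i : ι) (b : Bool) : Step R (u ++ v) (u ++ (i, b) :: (i, !b) :: v)
  | del (u v : Wd ι) (i : ι) (b : Bool) : Step R (u ++ (i, b) :: (i, !b) :: v) (u ++ v)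
  | rel (u r v : Wd ι) (hr : r ∈ R) : Step R (u ++ r ++ v) (u ++ v)

/-- A derivation with `n` steps through words of length at most `b`. -/
inductive Der {ι : Type} (R : Set (Wd ι)) (b : ℕ) : ℕ → Wd ι → Wd ι → Prop where
  | nil (w : Wd ι) (h : w.length ≤ b) : Der R b 0 w w
  | cons (n : ℕ) (w w' w'' : Wd ι) (h : w.length ≤ b) (h1 : Step R w w') (h2 : Der R b n w' w'') :
      Der R b (n + 1) w w''

/-! ## The groups -/

/-- The free group on `t` (`none`) and the letters of `σ`. -/
abbrev Fr (σ : Type) : Type := FreeGroup (Option σ)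

/-- The word `x` as an element of the free group. -/
def px {σ : Type} (x : List σ) : Fr σ := FreeGroup.mk (x.map fun a => (some a, true))

/-- `x t x⁻¹`. -/
def cx {σ : Type} (x : List σ) : Fr σ := px x * FreeGroup.of none * (px x)⁻¹

/-- The subgroup generated by the `x t x⁻¹`, `x ∈ L`. -/
def KL {σ : Type} (L : Set (List σ)) : Subgroup (Fr σ) := Subgroup.closure (cx '' L)

/-- The HNN extension of the free group whose stable letter commutes with the `x t x⁻¹`, `x ∈ L`. -/
abbrev HL {σ : Type} (L : Set (List σ)) : Type :=
  HNNExtension (Fr σ) (KL L) (KL L) (MulEquiv.refl (KL L))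

/-- The generators: `none` is the stable letter, `some i` the generators of the free group. -/
def gen {σ : Type} (L : Set (List σ)) : Option (Option σ) → HL L
  | none => HNNExtension.t
  | some i => HNNExtension.of (FreeGroup.of i)

/-- The word `x` in the generators. -/
def xw {σ : Type} (x : List σ) : Wd (Option (Option σ)) := x.map fun a => (some (some a), true)

/-- The word `x t^e x⁻¹` in the generators (`t` for `e = true`, `t⁻¹` for `e = false`). -/
def cw {σ : Type} (x : List σ) (e : Bool) : Wd (Option (Option σ)) :=
  xw x ++ (some none, e) :: inv (xw x)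

/-- One step for `HL L`: delete a pair of inverse letters, or conjugate a letter `u^{±1}` with `x t^{±1} x⁻¹`, `x ∈ L`. -/
inductive GStep {σ : Type} (L : Set (List σ)) (b : ℕ) : Wd (Option (Option σ)) → Wd (Option (Option σ)) → Prop where
  | del (u v : Wd (Option (Option σ))) (i : Option (Option σ)) (e : Bool) :
      GStep L b (u ++ (i, e) :: (i, !e) :: v) (u ++ v)
  | conj (u v : Wd (Option (Option σ))) (x : List σ) (hx : x ∈ L) (hb : x.length ≤ b) (e e' : Bool) :
      GStep L b (u ++ (none, e') :: v) (u ++ (cw x e ++ (none, e') :: (cw x (!e) ++ v)))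

/-- A derivation for `HL L` with `n` steps, through words of length at most `b`, with `|x| ≤ b` for the words `x` used. -/
inductive GDer {σ : Type} (L : Set (List σ)) (b : ℕ) :
    ℕ → Wd (Option (Option σ)) → Wd (Option (Option σ)) → Prop where
  | nil (w : Wd (Option (Option σ))) (h : w.length ≤ b) : GDer L b 0 w w
  | cons (n : ℕ) (w w' w'' : Wd (Option (Option σ))) (h : w.length ≤ b) (h1 : GStep L b w w')
      (h2 : GDer L b n w' w'') : GDer L b (n + 1) w w''

/-! ## Programs -/

section Programs

variable {k : ℕ} {Γ : Type}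

/-- Time at most `T`, space at most `b`. -/
def RunLe (b T : ℕ) (p : Prog k Γ) (s s' : Store k Γ) : Prop := ∃ t ≤ T, Run b p t s s'

/-- Some run. -/
def Sem (p : Prog k Γ) (s s' : Store k Γ) : Prop := ∃ b t, Run b p t s s'

/-- Choice in a list. -/
def alts : List (Prog k Γ) → Prog k Γ
  | [] => .zero
  | p :: l => .alt p (alts l)

/-- Composition of a list. -/
def seqs : List (Prog k Γ) → Prog k Γ
  | [] => .one
  | p :: l => .seq p (seqs l)

/-- Put the word `w` on stack `i` (the head of `w` on top). -/
def pushW (i : Fin k) : List Γ → Prog k Γ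
  | [] => .one
  | a :: l => .seq (pushW i l) (.push i a)

/-- Take the word `w` from stack `i`. -/
def popW (i : Fin k) : List Γ → Prog k Γ
  | [] => .one
  | a :: l => .seq (.pop i a) (popW i l)

/-- Move all letters (all in `A`) from stack `i` to stack `j`, and put the word `f a` on stack `o` for each letter `a`. -/
def pass (A : List Γ) (i j o : Fin k) (f : Γ → List Γ) : Prog k Γ :=
  .seq (.star (alts (A.map fun a => .seq (.pop i a) (.seq (.push j a) (pushW o (f a)))))) (.empty i)

/-- The result of `pass`. -/
def passRes (i j o : Fin k) (f : Γ → List Γ) (s : Store k Γ) : Store k Γ :=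
  Function.update (Function.update (Function.update s o ((s i).reverse.flatMap f ++ s o)) j
    ((s i).reverse ++ s j)) i []

/-- Empty stack `i` (all letters in `A`). -/
def clear (A : List Γ) (i : Fin k) : Prog k Γ :=
  .seq (.star (alts (A.map fun a => .pop i a))) (.empty i)

/-- Put any word over `A` on stack `i`. -/
def guess (A : List Γ) (i : Fin k) : Prog k Γ := .star (alts (A.map fun a => .push i a))

/-- The tape with the left part on stack `l` and the right part on stack `r`. -/
def tape (l r : Fin k) (s : Store k Γ) : List Γ := (s l).reverse ++ s r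

/-- Move the head of the tape (letters in `A`). -/
def mv (A : List Γ) (l r : Fin k) : Prog k Γ :=
  .star (alts ((A.map fun a => .seq (.pop r a) (.push l a)) ++ (A.map fun a => .seq (.pop l a) (.push r a))))

/-- Replace the word `q.1` on top of stack `r` by `q.2`. -/
def rule (r : Fin k) (q : List Γ × List Γ) : Prog k Γ := .seq (popW r q.1) (pushW r q.2)

/-- The program `p` on the stacks `e i`, with the letters `φ a`. -/
def embP {m : ℕ} {Δ : Type} (e : Fin k → Fin m) (φ : Γ → Δ) : Prog k Γ → Prog m Δ
  | .zero => .zero
  | .one => .one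
  | .push i a => .push (e i) (φ a)
  | .pop i a => .pop (e i) (φ a)
  | .empty i => .empty (e i)
  | .seq p q => .seq (embP e φ p) (embP e φ q)
  | .alt p q => .alt (embP e φ p) (embP e φ q)
  | .star p => .star (embP e φ p)

end Programs

/-- The word `U X T X⁻¹ U⁻¹ X T⁻¹ X⁻¹` with `X` the product of the words `A a` for the letters `a` of `x`. -/
def comm {σ ι : Type} (A : σ → Wd ι) (U T : Wd ι) (x : List σ) : Wd ι :=
  U ++ (x.flatMap A ++ (T ++ (inv (x.flatMap A) ++ (inv U ++ (x.flatMap A ++ (inv T ++ inv (x.flatMap A)))))))

end Pool.Agent.Lib.MP_0f3a7d_alT
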