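import Mathlib
import Pool.Agent.Lib.MP_0f3a7d_alT.Defs2

/-!
# MP_0f3a7d_al: the loops `w m` in the cone with the scaling factors `|w m| + 1`
-/

set_option autoImplicit false

namespace Pool.Agent.Lib.MP_0f3a7d_alT

/-- The scaling factors. -/
noncomputable def sc {ι : Type} (w : ℕ → Wd ι) (m : ℕ) : ℝ := ((w m).length : ℝ) + 1

theorem sc_pos {ι : Type} (w : ℕ → Wd ι) (m : ℕ) : 0 < sc w m := by
  unfold sc
  positivity

section Loop

variable {ι H : Type} [Group H] (g : ι → H) (hg : Subgroup.closure (Set.range g) = ⊤)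
  (ω : Ultrafilter ℕ) (w : ℕ → Wd ι)

/-- The constant sequence `1`. -/
noncomputable def bas : CSeq g hg ω (sc w) (sc_pos w) :=
  ⟨fun _ => 1, 0, fun m => by rw [len_one]; simp⟩

/-- The initial part of relative length `t` of the loops. -/
noncomputable def gam (t : ℝ) : CSeq g hg ω (sc w) (sc_pos w) :=
  ⟨fun m => val g ((w m).take ⌊t * (w m).length⌋₊), 1, fun m => by
    have h1 := len_val_le (g := g) ((w m).take ⌊t * (w m).length⌋₊)
    have h2 : ((w m).take ⌊t * (w m).length⌋₊).length ≤ (w m).length := by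
      rw [List.length_take]
      exact min_le_right _ _
    have h3 : (len g (val g ((w m).take ⌊t * (w m).length⌋₊)) : ℝ) ≤ (w m).length := by
      exact_mod_cast h1.trans h2
    unfold sc
    linarith⟩

end Loop

end Pool.Agent.Lib.MP_0f3a7d_alT
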