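import Mathlib
import Pool.Agent.Lib.MP_0f3a7d_alT.Defs3

/-!
# MP_0f3a7d_al, leaf A1: the loop in the cone is 1-Lipschitz

`dist_gam_le`: let `l = |w m|`, `a = ⌊s l⌋`, `b = ⌊t l⌋`, `a ≤ b ≤ l`. `(pref a)⁻¹ (pref b)` is the value of the word
`(take b).drop a` of length `b - a ≤ (t - s) l + 1` (`take b = take a ++ (take b).drop a`, `val_append`). For every `δ > 0` and
`m ≥ 1/δ` (almost all `m`, as `ω ≤ cofinite`; `m ≤ l`), `(t - s) l + 1 ≤ (t - s + δ) (l + 1)`, so `t - s + δ` is in `dset` and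
`dist ≤ t - s + δ` (`csInf_le`, `dset_bdd`). `gam_zero`: `take 0`. `gam_one`: `⌊1 * l⌋ = l`, `take l = w m`.
-/

set_option autoImplicit false

namespace Pool.Agent.Lib.MP_0f3a7d_alT

variable {ι H : Type} [Group H] {g : ι → H} {hg : Subgroup.closure (Set.range g) = ⊤}
  {ω : Ultrafilter ℕ} {w : ℕ → Wd ι}

private theorem A1_ext {d : ℕ → ℝ} {hd : ∀ m, 0 < d m} {x y : CSeq g hg ω d hd} (h : x.x = y.x) : x = y := by
  obtain ⟨x, hx⟩ := x
  obtain ⟨y, hy⟩ := y
  simp only at h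
  subst h
  rfl

private theorem A1_len (W : Wd ι) {a b : ℕ} (hab : a ≤ b) :
    len g ((val g (W.take a))⁻¹ * val g (W.take b)) ≤ b - a := by
  have h1 : W.take b = W.take a ++ (W.take b).drop a := by
    have h2 := List.take_append_drop a (W.take b)
    rw [List.take_take, min_eq_left hab] at h2
    exact h2.symm
  rw [h1, val_append, inv_mul_cancel_left]
  refine (len_val_le _).trans ?_
  rw [List.length_drop, List.length_take]
  exact Nat.sub_le_sub_right (min_le_left _ _) _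

theorem dist_gam_le (hω : (ω : Filter ℕ) ≤ Filter.cofinite) (hw : ∀ m, m ≤ (w m).length) {s t : ℝ}
    (h0 : 0 ≤ s) (h : s ≤ t) (h1 : t ≤ 1) : dist (gam g hg ω w s) (gam g hg ω w t) ≤ t - s := by
  refine le_of_forall_pos_le_add fun δ hδ => ?_
  refine csInf_le (dset_bdd _ _) ⟨by linarith, ?_⟩
  obtain ⟨N, hN⟩ := exists_nat_ge (1 / δ)
  have hev : ∀ᶠ m in (ω : Filter ℕ), N ≤ m := by
    refine hω ?_
    rw [Nat.cofinite_eq_atTop]
    exact Filter.eventually_ge_atTop N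
  filter_upwards [hev] with m hm
  have hl : (N : ℝ) ≤ (w m).length := by exact_mod_cast hm.trans (hw m)
  have hl0 : (0 : ℝ) ≤ (w m).length := Nat.cast_nonneg _
  have hδl : 1 ≤ δ * (w m).length := by
    have h2 : 1 / δ ≤ (w m).length := hN.trans hl
    rw [div_le_iff₀ hδ] at h2
    linarith
  have hab : ⌊s * (w m).length⌋₊ ≤ ⌊t * (w m).length⌋₊ := Nat.floor_le_floor (mul_le_mul_of_nonneg_right h hl0)
  have h2 := A1_len (g := g) (w m) hab
  have h3 : (len g ((val g ((w m).take ⌊s * (w m).length⌋₊))⁻¹ * val g ((w m).take ⌊t * (w m).length⌋₊)) : ℝ) ≤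
      (⌊t * (w m).length⌋₊ : ℝ) - ⌊s * (w m).length⌋₊ := by
    rw [← Nat.cast_sub hab]
    exact_mod_cast h2
  have h4 : (⌊t * (w m).length⌋₊ : ℝ) ≤ t * (w m).length :=
    Nat.floor_le (mul_nonneg (h0.trans h) hl0)
  have h5 : s * (w m).length - 1 < (⌊s * (w m).length⌋₊ : ℝ) := Nat.sub_one_lt_floor _
  refine h3.trans ?_
  unfold sc
  nlinarith

theorem gam_zero : gam g hg ω w 0 = bas g hg ω w := by
  refine A1_ext ?_
  funext m
  change val g ((w m).take ⌊(0 : ℝ) * (w m).length⌋₊) = 1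
  rw [zero_mul, Nat.floor_zero, List.take_zero, val_nil]

theorem gam_one (hv : ∀ m, val g (w m) = 1) : gam g hg ω w 1 = bas g hg ω w := by
  refine A1_ext ?_
  funext m
  change val g ((w m).take ⌊(1 : ℝ) * (w m).length⌋₊) = 1
  rw [one_mul, Nat.floor_natCast, List.take_length, hv]

end Pool.Agent.Lib.MP_0f3a7d_alT
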