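import Mathlib
import Pool.Agent.Lib.MP_0f3a7d_alT.A1

/-!
# MP_0f3a7d_al, leaf A2: a fine grid in a disc of the cone

By A1 and `SeparationQuotient.dist_mk` the map `t ↦ mk (gam t)`, `t ∈ [0, 1]`, is a path from `mk bas` to `mk bas`. The cone is
simply connected, so this path is homotopic to the constant path (`SimplyConnectedSpace.paths_homotopic`); the homotopy is a
continuous map on `I × I`, hence uniformly continuous; the values at the points `(i/K, j/K)` have representatives.
-/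

set_option autoImplicit false

namespace Pool.Agent.Lib.MP_0f3a7d_alT

open unitInterval in
/-- the point `i / K` of the unit interval -/
noncomputable def A2pt (K i : ℕ) : I := Set.projIcc (0 : ℝ) 1 zero_le_one ((i : ℝ) / K)

theorem A2pt_zero (K : ℕ) : A2pt K 0 = 0 := by
  unfold A2pt
  rw [Nat.cast_zero, zero_div]
  exact Set.projIcc_left _

theorem A2pt_self (K : ℕ) (hK : 1 ≤ K) : A2pt K K = 1 := by
  unfold A2pt
  have h : (K : ℝ) ≠ 0 := by
    have : (0 : ℝ) < K := by exact_mod_cast hK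
    exact this.ne'
  rw [div_self h]
  exact Set.projIcc_right _

theorem A2pt_val (K i : ℕ) (hK : 1 ≤ K) (hi : i ≤ K) : ((A2pt K i : unitInterval) : ℝ) = (i : ℝ) / K := by
  unfold A2pt
  have h : (0 : ℝ) < K := by exact_mod_cast hK
  have h1 : (i : ℝ) / K ∈ Set.Icc (0 : ℝ) 1 := by
    refine ⟨by positivity, ?_⟩
    rw [div_le_one h]
    exact_mod_cast hi
  rw [Set.projIcc_of_mem _ h1]

theorem A2pt_dist (K i : ℕ) (hK : 1 ≤ K) (hi : i < K) : dist (A2pt K i) (A2pt K (i + 1)) ≤ 1 / (K : ℝ) := by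
  rw [Subtype.dist_eq, A2pt_val K i hK hi.le, A2pt_val K (i + 1) hK hi, Real.dist_eq]
  have h : ((i : ℝ) / K) - ((i + 1 : ℕ) : ℝ) / K = -(1 / K) := by
    push_cast
    ring
  rw [h, abs_neg, abs_of_nonneg (by positivity)]

theorem A2_lip {ι H : Type} [Group H] {g : ι → H} {hg : Subgroup.closure (Set.range g) = ⊤}
    {ω : Ultrafilter ℕ} {w : ℕ → Wd ι} (hω : (ω : Filter ℕ) ≤ Filter.cofinite)
    (hw : ∀ m, m ≤ (w m).length) (s t : unitInterval) :
    dist (gam g hg ω w s) (gam g hg ω w t) ≤ dist s t := by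
  rw [Subtype.dist_eq, Real.dist_eq]
  rcases le_total (s : ℝ) t with h | h
  · refine (dist_gam_le hω hw s.2.1 h t.2.2).trans ?_
    rw [abs_sub_comm]
    exact le_abs_self _
  · rw [dist_comm (gam g hg ω w s)]
    refine (dist_gam_le hω hw t.2.1 h s.2.2).trans ?_
    exact le_abs_self _

theorem exists_grid {ι H : Type} [Group H] {g : ι → H} {hg : Subgroup.closure (Set.range g) = ⊤}
    {ω : Ultrafilter ℕ} {w : ℕ → Wd ι} (hω : (ω : Filter ℕ) ≤ Filter.cofinite)
    (hw : ∀ m, m ≤ (w m).length) (hv : ∀ m, val g (w m) = 1)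
    (hsc : SimplyConnectedSpace (Cone g hg ω (sc w) (sc_pos w))) (ε : ℝ) (hε : 0 < ε) (K₀ : ℕ) :
    ∃ K : ℕ, K₀ ≤ K ∧ 1 ≤ K ∧ ∃ x : ℕ → ℕ → CSeq g hg ω (sc w) (sc_pos w),
      (∀ j ≤ K, x 0 j = gam g hg ω w ((j : ℝ) / K)) ∧ (∀ j ≤ K, x K j = bas g hg ω w) ∧
      (∀ i ≤ K, x i 0 = bas g hg ω w) ∧ (∀ i ≤ K, x i K = bas g hg ω w) ∧
      (∀ i < K, ∀ j ≤ K, dist (x i j) (x (i + 1) j) < ε) ∧
      (∀ i ≤ K, ∀ j < K, dist (x i j) (x i (j + 1)) < ε) := by
  classical
  have hcont : Continuous fun t : unitInterval =>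
      (SeparationQuotient.mk (gam g hg ω w (t : ℝ)) : Cone g hg ω (sc w) (sc_pos w)) := by
    rw [Metric.continuous_iff]
    intro b e he
    refine ⟨e, he, fun a hab => ?_⟩
    rw [SeparationQuotient.dist_mk]
    exact (A2_lip hω hw a b).trans_lt hab
  let γ : Path (SeparationQuotient.mk (bas g hg ω w) : Cone g hg ω (sc w) (sc_pos w))
      (SeparationQuotient.mk (bas g hg ω w)) :=
    { toFun := fun t => SeparationQuotient.mk (gam g hg ω w (t : ℝ))
      continuous_toFun := hcont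
      source' := by
        have h : ((0 : unitInterval) : ℝ) = 0 := rfl
        simp only [h, gam_zero]
      target' := by
        have h : ((1 : unitInterval) : ℝ) = 1 := rfl
        simp only [h, gam_one hv] }
  obtain ⟨F⟩ := SimplyConnectedSpace.paths_homotopic γ (Path.refl _)
  have hF0 : ∀ t, F (0, t) = SeparationQuotient.mk (gam g hg ω w (t : ℝ)) := fun t => F.apply_zero t
  have hF1 : ∀ t, F (1, t) = SeparationQuotient.mk (bas g hg ω w) := fun t => F.apply_one t
  have hFs : ∀ t, F (t, 0) = SeparationQuotient.mk (bas g hg ω w) := fun t => F.source t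
  have hFt : ∀ t, F (t, 1) = SeparationQuotient.mk (bas g hg ω w) := fun t => F.target t
  have hu : UniformContinuous F := CompactSpace.uniformContinuous_of_continuous F.continuous
  rw [Metric.uniformContinuous_iff] at hu
  obtain ⟨δ, hδ, hu⟩ := hu ε hε
  obtain ⟨N, hN⟩ := exists_nat_gt (1 / δ)
  obtain ⟨K, hK0, hK1, hKN⟩ : ∃ K : ℕ, K₀ ≤ K ∧ 1 ≤ K ∧ N ≤ K := ⟨K₀ + N + 1, by omega, by omega, by omega⟩
  have hKδ : 1 / (K : ℝ) < δ := by
    have h1 : (0 : ℝ) < K := by exact_mod_cast hK1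
    have h2 : (N : ℝ) ≤ K := by exact_mod_cast hKN
    rw [div_lt_iff₀ h1]
    have h3 : 1 / δ < K := hN.trans_le h2
    rw [div_lt_iff₀ hδ] at h3
    linarith
  have hrep : ∀ z : Cone g hg ω (sc w) (sc_pos w), ∃ y, SeparationQuotient.mk y = z :=
    fun z => SeparationQuotient.surjective_mk z
  choose rep hrep using hrep
  refine ⟨K, hK0, hK1, fun i j => if i = 0 then gam g hg ω w ((j : ℝ) / K) else
    if i = K ∨ j = 0 ∨ j = K then bas g hg ω w else rep (F (A2pt K i, A2pt K j)), ?_⟩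
  have hx : ∀ i ≤ K, ∀ j ≤ K, (SeparationQuotient.mk (if i = 0 then gam g hg ω w ((j : ℝ) / K) else
      if i = K ∨ j = 0 ∨ j = K then bas g hg ω w else rep (F (A2pt K i, A2pt K j))) :
      Cone g hg ω (sc w) (sc_pos w)) = F (A2pt K i, A2pt K j) := by
    intro i hi j hj
    by_cases h : i = 0
    · rw [if_pos h, h, A2pt_zero, hF0, A2pt_val K j hK1 hj]
    · rw [if_neg h]
      by_cases h1 : i = K ∨ j = 0 ∨ j = K
      · rw [if_pos h1]
        rcases h1 with h1 | h1 | h1
        · rw [h1, A2pt_self K hK1, hF1]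
        · rw [h1, A2pt_zero, hFs]
        · rw [h1, A2pt_self K hK1, hFt]
      · rw [if_neg h1, hrep]
  have hK' : ¬ (K = 0) := by omega
  have hKr : (K : ℝ) ≠ 0 := by exact_mod_cast hK'
  refine ⟨?_, ?_, ?_, ?_, ?_, ?_⟩
  · intro j _
    simp only [if_true]
  · intro j _
    simp only [if_neg hK', true_or, if_true]
  · intro i _
    by_cases h : i = 0
    · simp only [if_pos h, Nat.cast_zero, zero_div, gam_zero]
    · simp only [if_neg h, true_or, or_true, if_true]
  · intro i _
    by_cases h : i = 0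
    · simp only [if_pos h, div_self hKr, gam_one hv]
    · simp only [if_neg h, or_true, if_true]
  · intro i hi j hj
    simp only
    rw [← SeparationQuotient.dist_mk, hx i hi.le j hj, hx (i + 1) hi j hj]
    apply hu
    rw [Prod.dist_eq]
    refine max_lt ((A2pt_dist K i hK1 hi).trans_lt hKδ) ?_
    simp only [dist_self]
    exact hδ
  · intro i hi j hj
    simp only
    rw [← SeparationQuotient.dist_mk, hx i hi j hj.le, hx i hi (j + 1) hj]
    apply hu
    rw [Prod.dist_eq]
    refine max_lt ?_ ((A2pt_dist K j hK1 hj).trans_lt hKδ)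
    simp only [dist_self]
    exact hδ

end Pool.Agent.Lib.MP_0f3a7d_alT
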