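import Mathlib
import Pool.Agent.Lib.MP_0f3a7d_alT.Defs2

/-!
# MP_0f3a7d_al, leaf A3: a word on the boundary of a grid of cells

Let `R i = ∏_{j < K} mk (h i j)` (the `i`-th row), `pre i j` the word `h i 0 ++ … ++ h i (j-1)`, `c i j` the boundary word
`h i j ++ v i (j+1) ++ inv (h (i+1) j) ++ inv (v i j)` of a cell and
`Q i j = mk (pre i j) * mk (v i j) * ∏_{j ≤ l < K} mk (h (i+1) l)`. Then `Q i 0 = R (i+1)` (`v i 0 = []`), `Q i K = R i`
(`v i K = []`) and `Q i (j+1) = mk (pre i j) * mk (c i j) * (mk (pre i j))⁻¹ * Q i j`. So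
`R i = ∏_{j from K-1 down to 0} (mk (pre i j) * mk (c i j) * (mk (pre i j))⁻¹) * R (i+1)`, and `R K = 1`. The list: for
`i = 0, …, K-1`, `j = K-1, …, 0` the pair `(pre i j, c i j)`; `|pre i j| ≤ K B`. `mk_inv`, `FreeGroup.mul_mk`.
-/

set_option autoImplicit false

namespace Pool.Agent.Lib.MP_0f3a7d_alT

/-- The word `h i 0 ++ … ++ h i (j-1)`. -/
private def A3_pre {ι : Type} (h : ℕ → ℕ → Wd ι) (i j : ℕ) : Wd ι := (List.range j).flatMap (h i)

private theorem A3_pre_succ {ι : Type} (h : ℕ → ℕ → Wd ι) (i j : ℕ) :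
    A3_pre h i (j + 1) = A3_pre h i j ++ h i j := by
  unfold A3_pre
  rw [List.range_succ, List.flatMap_append, List.flatMap_singleton]

private theorem A3_len {ι : Type} {h : ℕ → ℕ → Wd ι} {i B : ℕ} : ∀ {j : ℕ},
    (∀ l < j, (h i l).length ≤ B) → (A3_pre h i j).length ≤ j * B
  | 0, _ => by simp [A3_pre]
  | j + 1, hB => by
    rw [A3_pre_succ, List.length_append, Nat.succ_mul]
    exact Nat.add_le_add (A3_len fun l hl => hB l (by omega)) (hB j (Nat.lt_succ_self j))

/-- The conjugate of a word. -/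
private def A3_F {ι : Type} (q : Wd ι × Wd ι) : FreeGroup ι :=
  FreeGroup.mk q.1 * FreeGroup.mk q.2 * (FreeGroup.mk q.1)⁻¹

/-- The boundary word of a cell. -/
private def A3_c {ι : Type} (h v : ℕ → ℕ → Wd ι) (i j : ℕ) : Wd ι :=
  h i j ++ (v i (j + 1) ++ (inv (h (i + 1) j) ++ inv (v i j)))

/-- The pairs of the row `i`. -/
private def A3_row {ι : Type} (h v : ℕ → ℕ → Wd ι) (i K : ℕ) : List (Wd ι × Wd ι) :=
  (List.range K).reverse.map fun j => (A3_pre h i j, A3_c h v i j)

private theorem A3_rowprod {ι : Type} (h v : ℕ → ℕ → Wd ι) (i : ℕ) (h0 : v i 0 = []) (K : ℕ) :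
    ((A3_row h v i K).map A3_F).prod =
      FreeGroup.mk (A3_pre h i K) * FreeGroup.mk (v i K) * (FreeGroup.mk (A3_pre h (i + 1) K))⁻¹ := by
  induction K with
  | zero =>
    have h1 : FreeGroup.mk (v i 0) = 1 := by
      rw [h0]
      rfl
    have h2 : ∀ i', FreeGroup.mk (A3_pre h i' 0) = 1 := fun _ => rfl
    rw [h1, h2, h2]
    simp [A3_row]
  | succ K ih =>
    have h1 : A3_row h v i (K + 1) = (A3_pre h i K, A3_c h v i K) :: A3_row h v i K := by
      unfold A3_row
      rw [List.range_succ, List.reverse_append, List.reverse_singleton, List.singleton_append, List.map_cons]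
    have h2 : FreeGroup.mk (A3_c h v i K) = FreeGroup.mk (h i K) * FreeGroup.mk (v i (K + 1)) *
        (FreeGroup.mk (h (i + 1) K))⁻¹ * (FreeGroup.mk (v i K))⁻¹ := by
      unfold A3_c
      rw [← FreeGroup.mul_mk, ← FreeGroup.mul_mk, ← FreeGroup.mul_mk, mk_inv, mk_inv]
      group
    rw [h1, List.map_cons, List.prod_cons, ih, A3_F, h2, A3_pre_succ, A3_pre_succ, ← FreeGroup.mul_mk,
      ← FreeGroup.mul_mk]
    group

theorem grid_words {ι : Type} (K : ℕ) (h v : ℕ → ℕ → Wd ι) (h0 : ∀ i < K, v i 0 = [])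
    (hK : ∀ i < K, v i K = []) (hlast : ∀ j < K, h K j = []) (w : Wd ι)
    (hw : w = (List.range K).flatMap (h 0)) (B : ℕ) (hB : ∀ i < K, ∀ j < K, (h i j).length ≤ B) :
    ∃ l : List (Wd ι × Wd ι), l.length ≤ K * K ∧
      (∀ q ∈ l, q.1.length ≤ K * B ∧ ∃ i < K, ∃ j < K,
        q.2 = h i j ++ (v i (j + 1) ++ (inv (h (i + 1) j) ++ inv (v i j)))) ∧
      FreeGroup.mk w = (l.map fun q => FreeGroup.mk q.1 * FreeGroup.mk q.2 * (FreeGroup.mk q.1)⁻¹).prod := by
  have key : ∀ m ≤ K, FreeGroup.mk w = ((((List.range m).flatMap fun i => A3_row h v i K).map A3_F).prod) *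
      FreeGroup.mk (A3_pre h m K) := by
    intro m
    induction m with
    | zero =>
      intro _
      rw [List.range_zero, List.flatMap_nil, List.map_nil, List.prod_nil, one_mul, hw]
      rfl
    | succ m ih =>
      intro hm
      have h1 := A3_rowprod h v m (h0 m (by omega)) K
      have h2 : FreeGroup.mk (v m K) = 1 := by
        rw [hK m (by omega)]
        rfl
      rw [h2, mul_one] at h1
      rw [List.range_succ, List.flatMap_append, List.flatMap_singleton, List.map_append, List.prod_append, h1,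
        mul_assoc, mul_assoc, inv_mul_cancel, mul_one]
      exact ih (by omega)
  have hlen : ∀ m, ((List.range m).flatMap fun i => A3_row h v i K).length = m * K := by
    intro m
    induction m with
    | zero => simp
    | succ m ih =>
      rw [List.range_succ, List.flatMap_append, List.flatMap_singleton, List.length_append, ih, Nat.succ_mul]
      congr 1
      unfold A3_row
      rw [List.length_map, List.length_reverse, List.length_range]
  have hlast' : ∀ j ≤ K, A3_pre h K j = [] := by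
    intro j
    induction j with
    | zero => exact fun _ => rfl
    | succ j ih =>
      intro hj
      rw [A3_pre_succ, ih (by omega), hlast j (by omega)]
      rfl
  refine ⟨(List.range K).flatMap fun i => A3_row h v i K, (hlen K).le, fun q hq => ?_, ?_⟩
  · obtain ⟨i, hi, hq⟩ := List.mem_flatMap.1 hq
    obtain ⟨j, hj, rfl⟩ := List.mem_map.1 hq
    have hi' := List.mem_range.1 hi
    have hj' := List.mem_range.1 (List.mem_reverse.1 hj)
    refine ⟨?_, i, hi', j, hj', rfl⟩
    have h1 := A3_len (h := h) (i := i) (B := B) (j := j) fun l hl => hB i hi' l (by omega)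
    exact h1.trans (Nat.mul_le_mul_right B hj'.le)
  · have h1 := key K le_rfl
    have h2 : FreeGroup.mk (A3_pre h K K) = 1 := by
      rw [hlast' K le_rfl]
      rfl
    rw [h2, mul_one] at h1
    exact h1

end Pool.Agent.Lib.MP_0f3a7d_alT
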