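import Mathlib
import Pool.Agent.Lib.MP_0f3a7d_alT.A2
import Pool.Agent.Lib.MP_0f3a7d_alT.A3

/-!
# MP_0f3a7d_al, leaf A4: division of loops

Suppose `¬ Divis g M` for all `M`: there are words `w M` with `val g (w M) = 1`, `M ≤ |w M|` and no list `l` as in `Divis`
for `M`. Let `ω = Filter.hyperfilter ℕ` (`Filter.hyperfilter_le_cofinite`); `sc w` tends to infinity. Take `K ≥ 16`, `x` from A2
for `ε = 1/32`. For each of the finitely many adjacent pairs `(p, q)` of grid points `dist (x p) (x q) < 1/32`, so there is `r <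
1/32` in `dset` (`exists_lt_of_csInf_lt`), and `len ((x p m)⁻¹ x q m) ≤ (1/32) (l + 1)`, `l = |w m|`, for `ω`-almost all `m`; all
these and `m ≥ 64 K² + 64` hold for some `m` (finite intersections, `Filter.Eventually.exists`). Fix this `m`; `l ≥ m`.
Words: for `i = 0` the horizontal word `h 0 j` is `(w m).take ⌊((j+1)/K) l⌋` without its first `⌊(j/K) l⌋` letters, of length
`≤ l / K + 1`, and `flatMap` of these is `w m`; its value is `(x 0 j m)⁻¹ * x 0 (j+1) m`. All other horizontal words `h i j`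
(`1 ≤ i < K`) and vertical words `v i j` (`0 < j < K`) are geodesic words (`exists_geod`) for `(x i j m)⁻¹ * x i (j+1) m` and
`(x i j m)⁻¹ * x (i+1) j m`, of length `≤ (l + 1) / 32`; `h K j = []`, `v i 0 = v i K = []` (values `1`; for `i = 0` note
`gam 0 = gam 1 = bas`). By A3 with `B = l`: `mk (w m)` is a product of at most `K² ≤ m` conjugates, `|p| ≤ K l ≤ m l`, and the cell
words have value `1` (telescoping) and length `≤ l / K + 1 + 3 (l + 1) / 32 ≤ l / 2`. So `w m` has a list as in `Divis` for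
`m`: contradiction.
-/

set_option autoImplicit false

namespace Pool.Agent.Lib.MP_0f3a7d_alT

private theorem A4_close {ι H : Type} [Group H] {g : ι → H} {hg : Subgroup.closure (Set.range g) = ⊤}
    {ω : Ultrafilter ℕ} {d : ℕ → ℝ} {hd : ∀ m, 0 < d m} (x y : CSeq g hg ω d hd) {ε : ℝ}
    (h : dist x y < ε) : ∀ᶠ m in (ω : Filter ℕ), (len g ((x.x m)⁻¹ * y.x m) : ℝ) ≤ ε * d m := by
  obtain ⟨r, hr, hrε⟩ := exists_lt_of_csInf_lt (dset_nonempty x y) h
  filter_upwards [hr.2] with m hm
  exact hm.trans (mul_le_mul_of_nonneg_right hrε.le (hd m).le)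

private theorem A4_take {α : Type} (w : List α) {a b : ℕ} (h : a ≤ b) :
    w.take a ++ (w.take b).drop a = w.take b := by
  have h1 : (w.take b).take a = w.take a := by
    rw [List.take_take, min_eq_left h]
  rw [← h1, List.take_append_drop]

private theorem A4_flat {α : Type} (w : List α) (f : ℕ → ℕ) (h0 : f 0 = 0)
    (hf : ∀ j, f j ≤ f (j + 1)) (k : ℕ) :
    (List.range k).flatMap (fun j => (w.take (f (j + 1))).drop (f j)) = w.take (f k) := by
  induction k with
  | zero => rw [h0]; simp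
  | succ k ih =>
    rw [List.range_succ, List.flatMap_append, ih, List.flatMap_singleton]
    exact A4_take w (hf k)

private theorem A4_cell {H : Type} [Group H] (a b c d : H) :
    a⁻¹ * b * (b⁻¹ * d * ((c⁻¹ * d)⁻¹ * (a⁻¹ * c)⁻¹)) = 1 := by
  group

theorem divis_of_cones {ι H : Type} [Group H] {g : ι → H} {hg : Subgroup.closure (Set.range g) = ⊤}
    (hsc : ConesSC g hg) : ∃ M : ℕ, Divis g M := by
  classical
  by_contra hcon
  have h1 : ∀ M : ℕ, ∃ w : Wd ι, val g w = 1 ∧ M ≤ w.length ∧ ¬ ∃ l : List (Wd ι × Wd ι),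
      l.length ≤ M ∧
      (∀ q ∈ l, q.1.length ≤ M * w.length ∧ 2 * q.2.length ≤ w.length ∧ val g q.2 = 1) ∧
      FreeGroup.mk w =
        (l.map fun q => FreeGroup.mk q.1 * FreeGroup.mk q.2 * (FreeGroup.mk q.1)⁻¹).prod := by
    intro M
    by_contra hM
    apply hcon
    refine ⟨M, fun w hv hl => ?_⟩
    by_contra hl'
    exact hM ⟨w, hv, hl, hl'⟩
  choose w hv hw hbad using h1
  have hω : ((Filter.hyperfilter ℕ : Ultrafilter ℕ) : Filter ℕ) ≤ Filter.cofinite :=
    Filter.hyperfilter_le_cofinite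
  obtain ⟨ω, hω⟩ : ∃ ω : Ultrafilter ℕ, (ω : Filter ℕ) ≤ Filter.cofinite := ⟨_, hω⟩
  have hd : Filter.Tendsto (sc w) Filter.atTop Filter.atTop := by
    refine Filter.tendsto_atTop_mono (fun m => ?_) tendsto_natCast_atTop_atTop
    unfold sc
    have : (m : ℝ) ≤ (w m).length := by exact_mod_cast hw m
    linarith
  obtain ⟨K, hK16, hK1, x, hx0, hxK, hxl, hxr, hdv, hdh⟩ :=
    exists_grid hω hw hv (hsc ω (sc w) (sc_pos w) hω hd) (1 / 32) (by norm_num) 16
  -- choose `m`
  have e1 : ∀ᶠ m in (ω : Filter ℕ), ∀ i ∈ Finset.range K, ∀ j ∈ Finset.range (K + 1),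
      (len g (((x i j).x m)⁻¹ * (x (i + 1) j).x m) : ℝ) ≤ 1 / 32 * sc w m := by
    refine (Filter.eventually_all_finset _).2 fun i hi => (Filter.eventually_all_finset _).2
      fun j hj => ?_
    exact A4_close _ _ (hdv i (Finset.mem_range.1 hi) j (Nat.lt_succ_iff.1 (Finset.mem_range.1 hj)))
  have e2 : ∀ᶠ m in (ω : Filter ℕ), ∀ i ∈ Finset.range (K + 1), ∀ j ∈ Finset.range K,
      (len g (((x i j).x m)⁻¹ * (x i (j + 1)).x m) : ℝ) ≤ 1 / 32 * sc w m := by
    refine (Filter.eventually_all_finset _).2 fun i hi => (Filter.eventually_all_finset _).2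
      fun j hj => ?_
    exact A4_close _ _ (hdh i (Nat.lt_succ_iff.1 (Finset.mem_range.1 hi)) j (Finset.mem_range.1 hj))
  have e3 : ∀ᶠ m in (ω : Filter ℕ), 64 * K ^ 2 + 64 ≤ m := by
    refine hω ?_
    rw [Nat.cofinite_eq_atTop]
    exact Filter.eventually_ge_atTop _
  obtain ⟨m, hm1, hm2, hm3⟩ := (e1.and (e2.and e3)).exists
  set l : ℕ := (w m).length with hl
  have hlm : m ≤ l := hw m
  let X : ℕ → ℕ → H := fun i j => (x i j).x m
  have hX0 : ∀ j ≤ K, X 0 j = val g ((w m).take ⌊((j : ℝ) / K) * l⌋₊) := by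
    intro j hj
    change (x 0 j).x m = _
    rw [hx0 j hj]
    rfl
  have hXK : ∀ j ≤ K, X K j = 1 := by
    intro j hj
    change (x K j).x m = _
    rw [hxK j hj]
    rfl
  have hXl : ∀ i ≤ K, X i 0 = 1 := by
    intro i hi
    change (x i 0).x m = _
    rw [hxl i hi]
    rfl
  have hXr : ∀ i ≤ K, X i K = 1 := by
    intro i hi
    change (x i K).x m = _
    rw [hxr i hi]
    rfl
  choose geo hgeo1 hgeo2 using fun h : H => exists_geod hg h
  let f : ℕ → ℕ := fun j => ⌊((j : ℝ) / K) * l⌋₊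
  have hKp : (0 : ℝ) < K := by exact_mod_cast hK1
  have hf0 : f 0 = 0 := by
    change ⌊(((0 : ℕ) : ℝ) / K) * l⌋₊ = 0
    simp
  have hfm : ∀ j, f j ≤ f (j + 1) := by
    intro j
    refine Nat.floor_mono ?_
    refine mul_le_mul_of_nonneg_right ?_ (Nat.cast_nonneg _)
    refine div_le_div_of_nonneg_right ?_ hKp.le
    push_cast
    linarith
  have hfK : f K = l := by
    change ⌊((K : ℝ) / K) * l⌋₊ = l
    rw [div_self hKp.ne', one_mul, Nat.floor_natCast]
  have hfd : ∀ j, ((f (j + 1) - f j : ℕ) : ℝ) ≤ l / K + 1 := by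
    intro j
    rw [Nat.cast_sub (hfm j)]
    have a1 : (f (j + 1) : ℝ) ≤ (((j + 1 : ℕ) : ℝ) / K) * l := Nat.floor_le (by positivity)
    have a2 : ((j : ℝ) / K) * l < f j + 1 := Nat.lt_floor_add_one _
    have a3 : (((j + 1 : ℕ) : ℝ) / K) * l = ((j : ℝ) / K) * l + l / K := by
      push_cast
      ring
    linarith
  let h : ℕ → ℕ → Wd ι := fun i j =>
    if i = 0 then ((w m).take (f (j + 1))).drop (f j)
    else if i = K then [] else geo ((X i j)⁻¹ * X i (j + 1))
  let v : ℕ → ℕ → Wd ι := fun i j =>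
    if j = 0 ∨ j = K then [] else geo ((X i j)⁻¹ * X (i + 1) j)
  have hK0 : K ≠ 0 := by omega
  have hh0 : ∀ j, h 0 j = ((w m).take (f (j + 1))).drop (f j) := fun j => if_pos rfl
  have hhK : ∀ j, h K j = [] := by
    intro j
    change (if K = 0 then _ else if K = K then [] else _) = _
    rw [if_neg hK0, if_pos rfl]
  have hhg : ∀ i j, i ≠ 0 → i ≠ K → h i j = geo ((X i j)⁻¹ * X i (j + 1)) := by
    intro i j h2 h3
    change (if i = 0 then _ else if i = K then [] else _) = _
    rw [if_neg h2, if_neg h3]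
  have hvv : ∀ i ≤ K, ∀ j < K, val g (h i j) = (X i j)⁻¹ * X i (j + 1) := by
    intro i hi j hj
    by_cases h2 : i = 0
    · subst h2
      rw [hh0, hX0 j hj.le, hX0 (j + 1) hj]
      have h3 := A4_take (w m) (hfm j)
      change _ = (val g ((w m).take (f j)))⁻¹ * val g ((w m).take (f (j + 1)))
      rw [← h3, val_append, inv_mul_cancel_left]
      rw [h3]
    · by_cases h3 : i = K
      · subst h3
        rw [hhK, hXK j hj.le, hXK (j + 1) hj, val_nil]
        group
      · rw [hhg i j h2 h3, hgeo2]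
  have hvw : ∀ i < K, ∀ j ≤ K, val g (v i j) = (X i j)⁻¹ * X (i + 1) j := by
    intro i hi j hj
    change val g (if j = 0 ∨ j = K then [] else geo ((X i j)⁻¹ * X (i + 1) j)) = _
    by_cases h2 : j = 0 ∨ j = K
    · rw [if_pos h2, val_nil]
      rcases h2 with h2 | h2
      · subst h2
        rw [hXl i hi.le, hXl (i + 1) hi]
        group
      · subst h2
        rw [hXr i hi.le, hXr (i + 1) hi]
        group
    · rw [if_neg h2, hgeo2]
  have hsc' : sc w m = l + 1 := rfl
  -- lengths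
  have hlh : ∀ i, i ≠ 0 → i ≤ K → ∀ j < K, 32 * (h i j).length ≤ l + 1 := by
    intro i h2 hi j hj
    by_cases h3 : i = K
    · subst h3
      rw [hhK]
      simp
    · rw [hhg i j h2 h3, hgeo1]
      have h4 := hm2 i (Finset.mem_range.2 (by omega)) j (Finset.mem_range.2 hj)
      rw [hsc'] at h4
      have h5 : (32 : ℝ) * (len g ((X i j)⁻¹ * X i (j + 1)) : ℝ) ≤ l + 1 := by
        change (32 : ℝ) * (len g (((x i j).x m)⁻¹ * (x i (j + 1)).x m) : ℝ) ≤ l + 1
        linarith
      exact_mod_cast h5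
  have hlv : ∀ i < K, ∀ j ≤ K, 32 * (v i j).length ≤ l + 1 := by
    intro i hi j hj
    change 32 * (if j = 0 ∨ j = K then [] else geo ((X i j)⁻¹ * X (i + 1) j)).length ≤ l + 1
    by_cases h2 : j = 0 ∨ j = K
    · rw [if_pos h2]
      simp
    · rw [if_neg h2, hgeo1]
      have h4 := hm1 i (Finset.mem_range.2 hi) j (Finset.mem_range.2 (by omega))
      rw [hsc'] at h4
      have h5 : (32 : ℝ) * (len g ((X i j)⁻¹ * X (i + 1) j) : ℝ) ≤ l + 1 := by
        change (32 : ℝ) * (len g (((x i j).x m)⁻¹ * (x (i + 1) j).x m) : ℝ) ≤ l + 1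
        linarith
      exact_mod_cast h5
  have hl0 : ∀ j, (h 0 j).length ≤ f (j + 1) - f j := by
    intro j
    rw [hh0, List.length_drop, List.length_take]
    exact Nat.sub_le_sub_right (min_le_left _ _) _
  have hl0' : ∀ j, 16 * (h 0 j).length ≤ l + 16 := by
    intro j
    have a1 : ((h 0 j).length : ℝ) ≤ l / K + 1 :=
      le_trans (by exact_mod_cast hl0 j) (hfd j)
    have a2 : (l : ℝ) / K ≤ l / 16 := by
      refine div_le_div_of_nonneg_left (Nat.cast_nonneg _) (by norm_num) ?_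
      exact_mod_cast hK16
    have a3 : (16 : ℝ) * ((h 0 j).length : ℝ) ≤ l + 16 := by linarith
    exact_mod_cast a3
  have hm64 : 64 ≤ l := by
    have : 64 ≤ 64 * K ^ 2 + 64 := Nat.le_add_left _ _
    omega
  have hKm : K * K ≤ m := by nlinarith
  have hKm' : K ≤ m := by nlinarith
  obtain ⟨L, hL1, hL2, hL3⟩ := grid_words K h v
    (fun i _ => by
      change (if (0 : ℕ) = 0 ∨ 0 = K then [] else _) = _
      rw [if_pos (Or.inl rfl)])
    (fun i _ => by
      change (if K = 0 ∨ K = K then [] else _) = _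
      rw [if_pos (Or.inr rfl)])
    (fun j _ => hhK j) (w m)
    (by
      have h2 : h 0 = fun j => ((w m).take (f (j + 1))).drop (f j) := by
        funext j
        exact hh0 j
      rw [h2, A4_flat (w m) f hf0 hfm K, hfK, hl, List.take_length])
    l
    (fun i hi j hj => by
      by_cases h2 : i = 0
      · subst h2
        rw [hh0, List.length_drop, List.length_take]
        exact (Nat.sub_le _ _).trans (min_le_right _ _)
      · have := hlh i h2 hi.le j hj
        omega)
  refine hbad m ⟨L, hL1.trans hKm, ?_, hL3⟩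
  intro q hq
  obtain ⟨a1, i, hi, j, hj, a2⟩ := hL2 q hq
  refine ⟨a1.trans (Nat.mul_le_mul_right _ hKm'), ?_, ?_⟩
  · rw [a2]
    simp only [List.length_append, length_inv]
    have b1 := hlv i hi (j + 1) hj
    have b2 := hlv i hi j hj.le
    have b3 := hlh (i + 1) (by omega) hi j hj
    by_cases h2 : i = 0
    · subst h2
      have b4 := hl0' j
      rw [← hl]
      omega
    · have b4 := hlh i h2 hi.le j hj
      rw [← hl]
      omega
  · rw [a2, val_append, val_append, val_append, val_inv, val_inv, hvv i hi.le j hj,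
      hvw i hi (j + 1) hj, hvv (i + 1) hi j hj, hvw i hi j hj.le]
    exact A4_cell _ _ _ _

end Pool.Agent.Lib.MP_0f3a7d_alT
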