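import Mathlib
import Pool.Agent.Lib.MP_0f3a7d_alT.Defs2

/-!
# MP_0f3a7d_al, leaf B1: derivations

`trans`, `mono`: induction. `ctx`: each step can be made inside `u ++ _ ++ v` (associativity of `++`). `der_of_mk_eq`: if
`mk w = mk w'` then `w` and `w'` reduce to the same word `z` (`FreeGroup.Red.exact`, `FreeGroup.Red`), each `FreeGroup.Red.Step`
deletes two letters, so at most `|w|` resp. `|w'|` steps; deletions from `w` to `z` (`Step.del`), insertions from `z` to `w'`
(`Step.ins`); all words have length at most `|w| + |w'|`.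
-/

set_option autoImplicit false

namespace Pool.Agent.Lib.MP_0f3a7d_alT

variable {ι : Type} {R : Set (Wd ι)}

theorem Der.trans {b m n : ℕ} {w w' w'' : Wd ι} (h : Der R b m w w') (h' : Der R b n w' w'') :
    Der R b (m + n) w w'' := by
  induction h with
  | nil w hw =>
    rw [Nat.zero_add]
    exact h'
  | cons k w w₁ w₂ hw h1 h2 ih =>
    have h3 := Der.cons (k + n) w w₁ w'' hw h1 (ih h')
    have e : k + 1 + n = k + n + 1 := by omega
    rw [e]
    exact h3

theorem Der.mono {b b' n : ℕ} (hb : b ≤ b') {w w' : Wd ι} (h : Der R b n w w') : Der R b' n w w' := by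
  induction h with
  | nil w hw => exact Der.nil w (hw.trans hb)
  | cons k w w₁ w₂ hw h1 h2 ih => exact Der.cons k w w₁ w₂ (hw.trans hb) h1 ih

private theorem B1_step {w w' : Wd ι} (h : Step R w w') (u v : Wd ι) :
    Step R (u ++ (w ++ v)) (u ++ (w' ++ v)) := by
  cases h with
  | ins a c i e =>
    have h1 := Step.ins (R := R) (u ++ a) (c ++ v) i e
    simpa [List.append_assoc] using h1
  | del a c i e =>
    have h1 := Step.del (R := R) (u ++ a) (c ++ v) i e
    simpa [List.append_assoc] using h1
  | rel a r c hr =>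
    have h1 := Step.rel (R := R) (u ++ a) r (c ++ v) hr
    simpa [List.append_assoc] using h1

private theorem B1_len {b : ℕ} {w : Wd ι} (h : w.length ≤ b) (u v : Wd ι) :
    (u ++ (w ++ v)).length ≤ b + (u.length + v.length) := by
  rw [List.length_append, List.length_append]
  omega

theorem Der.ctx {b n : ℕ} {w w' : Wd ι} (h : Der R b n w w') (u v : Wd ι) :
    Der R (b + (u.length + v.length)) n (u ++ (w ++ v)) (u ++ (w' ++ v)) := by
  induction h with
  | nil w hw => exact Der.nil _ (B1_len hw u v)
  | cons k w w₁ w₂ hw h1 h2 ih => exact Der.cons k _ _ _ (B1_len hw u v) (B1_step h1 u v) ih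

private theorem B1_red {w z : Wd ι} (h : FreeGroup.Red w z) :
    ∀ b, w.length ≤ b → ∃ n, n + z.length ≤ w.length ∧ Der R b n w z := by
  induction h using Relation.ReflTransGen.head_induction_on with
  | refl => exact fun b hb => ⟨0, by omega, Der.nil _ hb⟩
  | head h1 _ ih =>
    intro b hb
    have hl := h1.length
    obtain ⟨n, hn, hd⟩ := ih b (by omega)
    refine ⟨n + 1, by omega, ?_⟩
    cases h1 with
    | not => exact Der.cons n _ _ _ hb (Step.del _ _ _ _) hd

private theorem B1_red' {w z : Wd ι} (h : FreeGroup.Red w z) :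
    ∀ b, w.length ≤ b → ∃ n, n + z.length ≤ w.length ∧ Der R b n z w := by
  induction h using Relation.ReflTransGen.head_induction_on with
  | refl => exact fun b hb => ⟨0, by omega, Der.nil _ hb⟩
  | head h1 _ ih =>
    intro b hb
    have hl := h1.length
    obtain ⟨n, hn, hd⟩ := ih b (by omega)
    refine ⟨n + 1, by omega, ?_⟩
    cases h1 with
    | not => exact hd.trans (Der.cons 0 _ _ _ (by omega) (Step.ins _ _ _ _) (Der.nil _ hb))

theorem der_of_mk_eq {w w' : Wd ι} (h : FreeGroup.mk w = FreeGroup.mk w') :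
    ∃ n ≤ w.length + w'.length, Der R (w.length + w'.length) n w w' := by
  obtain ⟨z, h1, h2⟩ := FreeGroup.Red.exact.1 h
  obtain ⟨n, hn, hd⟩ := B1_red (R := R) h1 (w.length + w'.length) (by omega)
  obtain ⟨m, hm, hd'⟩ := B1_red' (R := R) h2 (w.length + w'.length) (by omega)
  exact ⟨n + m, by omega, hd.trans hd'⟩

end Pool.Agent.Lib.MP_0f3a7d_alT
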