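import Mathlib
import Pool.Agent.Lib.MP_0f3a7d_alT.B1

/-!
# MP_0f3a7d_al, leaf B2: division gives derivations in polynomial time and linear space

`R` = the words of length `< M` with value `1`. Let `a = 4 (M + 1)²`. By strong induction on `l = |w|` we show: if
`val g w = 1` then there is a derivation `w → []` with at most `A (l + 1) ^ B` steps through words of length at most `D (l + 1)`.
`l = 0`: nothing to do. `0 < l < M`: delete `w ∈ R` (one step). `l ≥ M`, `l ≥ 1`: take `(p_1, u_1), …, (p_r, u_r)`, `r ≤ M`, from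
`Divis`, and `W = p_1 u_1 p_1⁻¹ … p_r u_r p_r⁻¹`; `|W| ≤ M (2 M l + l) ≤ a l`, `mk w = mk W` so there is a derivation
`w → W` with at most `(a + 1) l` steps and length `≤ (a + 1) l` (`der_of_mk_eq`). Each `u_i` is shorter than `w` (`2 |u_i| ≤ l`)
and has a derivation to `[]` in its context (`Der.ctx`), length `≤ |W| + D (l / 2 + 1)`. Then `W` has become a product of the
`p_i p_i⁻¹`, with derivation to `[]` (`der_of_mk_eq` with `mk = 1 = mk []`), `≤ a l` steps. In all: steps
`≤ 2 (a + 1) l + M A (l/2 + 1) ^ B ≤ A (l + 1) ^ B` if `B` is large (`M (3/4) ^ B ≤ 1/4`; `l / 2 + 1 ≤ (3/4) (l + 1)` for `l ≥ 1`)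
and `A ≥ 8 (a + 1)`; length `≤ (a + 1) l + D (l / 2 + 1) ≤ D (l + 1)` if `D ≥ 2 (a + 1)`. Take `c ≥ A, B, D`.
-/

set_option autoImplicit false

namespace Pool.Agent.Lib.MP_0f3a7d_alT

private def B2_W {ι : Type} (L : List (Wd ι × Wd ι)) : Wd ι :=
  L.flatMap fun q => q.1 ++ (q.2 ++ inv q.1)

private def B2_V {ι : Type} (L : List (Wd ι × Wd ι)) : Wd ι :=
  L.flatMap fun q => q.1 ++ inv q.1

private theorem B2_W_cons {ι : Type} (q : Wd ι × Wd ι) (L : List (Wd ι × Wd ι)) :
    B2_W (q :: L) = q.1 ++ (q.2 ++ (inv q.1 ++ B2_W L)) := by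
  unfold B2_W
  rw [List.flatMap_cons]
  simp only [List.append_assoc]

private theorem B2_V_cons {ι : Type} (q : Wd ι × Wd ι) (L : List (Wd ι × Wd ι)) :
    B2_V (q :: L) = (q.1 ++ inv q.1) ++ B2_V L := by
  unfold B2_V
  rw [List.flatMap_cons]

private theorem B2_mk_W {ι : Type} (L : List (Wd ι × Wd ι)) :
    FreeGroup.mk (B2_W L) =
      (L.map fun q => FreeGroup.mk q.1 * FreeGroup.mk q.2 * (FreeGroup.mk q.1)⁻¹).prod := by
  induction L with
  | nil => rfl
  | cons q L ih =>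
    rw [List.map_cons, List.prod_cons, ← ih, B2_W_cons, ← FreeGroup.mul_mk, ← FreeGroup.mul_mk,
      ← FreeGroup.mul_mk, mk_inv]
    group

private theorem B2_mk_V {ι : Type} (L : List (Wd ι × Wd ι)) :
    FreeGroup.mk (B2_V L) = 1 := by
  induction L with
  | nil => rfl
  | cons q L ih =>
    rw [B2_V_cons, ← FreeGroup.mul_mk, ← FreeGroup.mul_mk, mk_inv, ih]
    group

private theorem B2_len_V {ι : Type} (L : List (Wd ι × Wd ι)) :
    (B2_V L).length ≤ (B2_W L).length := by
  induction L with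
  | nil => exact le_rfl
  | cons q L ih =>
    rw [B2_V_cons, B2_W_cons]
    simp only [List.length_append, length_inv]
    omega

private theorem B2_len_W {ι : Type} (L : List (Wd ι × Wd ι)) (x : ℕ)
    (h : ∀ q ∈ L, 2 * q.1.length + q.2.length ≤ x) : (B2_W L).length ≤ L.length * x := by
  induction L with
  | nil => exact Nat.zero_le _
  | cons q L ih =>
    have h1 := ih fun q' hq' => h q' (List.mem_cons_of_mem q hq')
    have h2 := h q List.mem_cons_self
    rw [B2_W_cons, List.length_cons, Nat.add_mul, Nat.one_mul]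
    simp only [List.length_append, length_inv]
    omega

private theorem B2_collapse {ι : Type} {R : Set (Wd ι)} (b N : ℕ) (L : List (Wd ι × Wd ι))
    (h : ∀ q ∈ L, ∃ n ≤ N, Der R b n q.2 []) :
    ∃ n ≤ L.length * N, Der R ((B2_W L).length + b) n (B2_W L) (B2_V L) := by
  induction L with
  | nil => exact ⟨0, Nat.zero_le _, Der.nil _ (Nat.zero_le _)⟩
  | cons q L ih =>
    obtain ⟨n1, hn1, d1⟩ := ih fun q' hq' => h q' (List.mem_cons_of_mem q hq')
    obtain ⟨n2, hn2, d2⟩ := h q List.mem_cons_self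
    have hl : (B2_W (q :: L)).length =
        q.1.length + (q.2.length + (q.1.length + (B2_W L).length)) := by
      rw [B2_W_cons]
      simp only [List.length_append, length_inv]
    have e1 : Der R ((B2_W (q :: L)).length + b) n2 (B2_W (q :: L))
        (q.1 ++ (inv q.1 ++ B2_W L)) := by
      have h1 := (d2.ctx q.1 (inv q.1 ++ B2_W L)).mono
        (b' := (B2_W (q :: L)).length + b) (by
          rw [hl]
          simp only [List.length_append, length_inv]
          omega)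
      rw [List.nil_append, ← B2_W_cons] at h1
      exact h1
    have e2 : Der R ((B2_W (q :: L)).length + b) n1 (q.1 ++ (inv q.1 ++ B2_W L))
        (B2_V (q :: L)) := by
      have h1 := (d1.ctx (q.1 ++ inv q.1) []).mono
        (b' := (B2_W (q :: L)).length + b) (by
          rw [hl]
          simp only [List.length_append, length_inv, List.length_nil]
          omega)
      rw [List.append_nil, List.append_nil, ← B2_V_cons, List.append_assoc] at h1
      exact h1
    refine ⟨n2 + n1, ?_, e1.trans e2⟩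
    rw [List.length_cons, Nat.add_mul, Nat.one_mul]
    omega

private theorem B2_pow (B : ℕ) : 3 ^ B * (B + 3) ≤ 3 * 4 ^ B := by
  induction B with
  | zero => norm_num
  | succ B ih =>
    calc 3 ^ (B + 1) * (B + 1 + 3) = 3 ^ B * (3 * B + 12) := by ring
      _ ≤ 3 ^ B * (4 * (B + 3)) := Nat.mul_le_mul le_rfl (by omega)
      _ = 4 * (3 ^ B * (B + 3)) := by ring
      _ ≤ 4 * (3 * 4 ^ B) := Nat.mul_le_mul le_rfl ih
      _ = 3 * 4 ^ (B + 1) := by ring

private theorem B2_half (M l m : ℕ) (h : 4 * (m + 1) ≤ 3 * (l + 1)) :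
    2 * M * (m + 1) ^ (6 * M + 1) ≤ (l + 1) ^ (6 * M + 1) := by
  have h1 := B2_pow (6 * M + 1)
  have h2 : 3 ^ (6 * M + 1) * (2 * M) ≤ 4 ^ (6 * M + 1) := by
    have h3 : 3 * (3 ^ (6 * M + 1) * (2 * M)) ≤ 3 * 4 ^ (6 * M + 1) := by
      calc 3 * (3 ^ (6 * M + 1) * (2 * M)) = 3 ^ (6 * M + 1) * (6 * M) := by ring
        _ ≤ 3 ^ (6 * M + 1) * (6 * M + 1 + 3) := Nat.mul_le_mul le_rfl (by omega)
        _ ≤ _ := h1
    omega
  have h3 : (4 * (m + 1)) ^ (6 * M + 1) ≤ (3 * (l + 1)) ^ (6 * M + 1) := Nat.pow_le_pow_left h _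
  rw [mul_pow, mul_pow] at h3
  have h4 : 4 ^ (6 * M + 1) * (2 * M * (m + 1) ^ (6 * M + 1)) ≤
      4 ^ (6 * M + 1) * (l + 1) ^ (6 * M + 1) := by
    calc 4 ^ (6 * M + 1) * (2 * M * (m + 1) ^ (6 * M + 1))
        = 2 * M * (4 ^ (6 * M + 1) * (m + 1) ^ (6 * M + 1)) := by ring
      _ ≤ 2 * M * (3 ^ (6 * M + 1) * (l + 1) ^ (6 * M + 1)) := Nat.mul_le_mul le_rfl h3
      _ = (3 ^ (6 * M + 1) * (2 * M)) * (l + 1) ^ (6 * M + 1) := by ring
      _ ≤ 4 ^ (6 * M + 1) * (l + 1) ^ (6 * M + 1) := Nat.mul_le_mul h2 le_rfl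
  exact Nat.le_of_mul_le_mul_left h4 (by positivity)

private theorem B2_main {ι H : Type} [Group H] {g : ι → H} {M : ℕ} (hM : Divis g M) (a A B D : ℕ)
    (ha : a = 4 * (M + 1) ^ 2) (hA : A = 2 * (2 * a + 1)) (hB : B = 6 * M + 1)
    (hD : D = 4 * (a + 1)) (l : ℕ) : ∀ w : Wd ι, w.length = l → val g w = 1 →
      ∃ n ≤ A * (l + 1) ^ B, Der {r : Wd ι | r.length < M ∧ val g r = 1} (D * (l + 1)) n w [] := by
  induction l using Nat.strong_induction_on with
  | _ l ih =>
  intro w hw hv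
  have hA1 : 1 ≤ A := by omega
  have hD1 : 1 ≤ D := by omega
  have hlD : l ≤ D * (l + 1) := by nlinarith
  rcases Nat.eq_zero_or_pos l with h0 | h0
  · have hw0 : w = [] := List.length_eq_zero_iff.1 (hw.trans h0)
    subst hw0
    exact ⟨0, Nat.zero_le _, Der.nil _ (Nat.zero_le _)⟩
  by_cases h1 : l < M
  · refine ⟨1, ?_, ?_⟩
    · exact Nat.one_le_iff_ne_zero.2 (by positivity)
    · refine Der.cons 0 w [] [] (by rw [hw]; exact hlD) ?_ (Der.nil _ (Nat.zero_le _))
      have h2 := Step.rel (R := {r : Wd ι | r.length < M ∧ val g r = 1}) [] w []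
        ⟨by rw [hw]; exact h1, hv⟩
      rw [List.nil_append, List.append_nil] at h2
      exact h2
  · obtain ⟨L, hL, hq, hmk⟩ := hM w hv (by omega)
    rw [← B2_mk_W] at hmk
    have hWlen : (B2_W L).length ≤ a * l := by
      have h2 := B2_len_W L (2 * (M * l) + l) fun q hq' => by
        have h3 := hq q hq'
        rw [hw] at h3
        omega
      refine h2.trans ?_
      calc L.length * (2 * (M * l) + l) ≤ M * (2 * (M * l) + l) := Nat.mul_le_mul hL le_rfl
        _ ≤ a * l := by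
          rw [ha]
          nlinarith [Nat.zero_le (M * M * l), Nat.zero_le (M * l)]
    obtain ⟨n1, hn1, d1⟩ := der_of_mk_eq (R := {r : Wd ι | r.length < M ∧ val g r = 1}) hmk
    have hm : 4 * (l / 2 + 1) ≤ 3 * (l + 1) := by omega
    obtain ⟨n2, hn2, d2⟩ := B2_collapse (R := {r : Wd ι | r.length < M ∧ val g r = 1})
      (D * (l / 2 + 1)) (A * (l / 2 + 1) ^ B) L fun q hq' => by
        have h3 := hq q hq'
        rw [hw] at h3
        obtain ⟨n, hn, d⟩ := ih q.2.length (by omega) q.2 rfl h3.2.2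
        refine ⟨n, hn.trans ?_, d.mono ?_⟩
        · exact Nat.mul_le_mul le_rfl (Nat.pow_le_pow_left (by omega) _)
        · exact Nat.mul_le_mul le_rfl (by omega)
    obtain ⟨n3, hn3, d3⟩ := der_of_mk_eq (R := {r : Wd ι | r.length < M ∧ val g r = 1})
      (w := B2_V L) (w' := []) (by rw [B2_mk_V]; rfl)
    have hV := B2_len_V L
    have hwid : a * l + l + D * (l / 2 + 1) ≤ D * (l + 1) := by
      have h3 : D * (4 * (l / 2 + 1)) ≤ D * (3 * (l + 1)) := Nat.mul_le_mul le_rfl hm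
      have h4 : 4 * (a * l + l) ≤ D * (l + 1) := by
        rw [hD]
        nlinarith
      nlinarith
    refine ⟨n1 + (n2 + n3), ?_, (d1.mono ?_).trans ((d2.mono ?_).trans (d3.mono ?_))⟩
    · rw [hw] at hn1
      rw [List.length_nil] at hn3
      have h5 := B2_half M l (l / 2) hm
      rw [← hB] at h5
      have h6 : l ≤ (l + 1) ^ B := by
        calc l ≤ (l + 1) ^ 1 := by rw [pow_one]; omega
          _ ≤ (l + 1) ^ B := Nat.pow_le_pow_right (by omega) (by omega)
      have h7 : n2 ≤ M * (A * (l / 2 + 1) ^ B) := hn2.trans (Nat.mul_le_mul hL le_rfl)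
      have h8 : n1 + n3 ≤ (2 * a + 1) * l := by
        have h9 : (2 * a + 1) * l = 2 * (a * l) + l := by ring
        rw [h9]
        omega
      have h10 : 2 * (n1 + (n2 + n3)) ≤ 2 * (A * (l + 1) ^ B) := by
        calc 2 * (n1 + (n2 + n3)) = 2 * (n1 + n3) + 2 * n2 := by ring
          _ ≤ 2 * ((2 * a + 1) * l) + 2 * (M * (A * (l / 2 + 1) ^ B)) :=
            Nat.add_le_add (Nat.mul_le_mul le_rfl h8) (Nat.mul_le_mul le_rfl h7)
          _ = A * l + A * (2 * M * (l / 2 + 1) ^ B) := by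
            rw [hA]
            ring
          _ ≤ A * (l + 1) ^ B + A * (l + 1) ^ B :=
            Nat.add_le_add (Nat.mul_le_mul le_rfl h6) (Nat.mul_le_mul le_rfl h5)
          _ = 2 * (A * (l + 1) ^ B) := by ring
      omega
    · rw [hw]
      omega
    · omega
    · rw [List.length_nil]
      omega

theorem der_of_divis {ι H : Type} [Group H] {g : ι → H} {M : ℕ} (hM : Divis g M) :
    ∃ c : ℕ, ∀ w : Wd ι, val g w = 1 → ∃ n ≤ c * (w.length + 1) ^ c,
      Der {r : Wd ι | r.length < M ∧ val g r = 1} (c * (w.length + 1)) n w [] := by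
  have h := B2_main hM (4 * (M + 1) ^ 2) (2 * (2 * (4 * (M + 1) ^ 2) + 1)) (6 * M + 1)
    (4 * (4 * (M + 1) ^ 2 + 1)) rfl rfl rfl rfl
  set A := 2 * (2 * (4 * (M + 1) ^ 2) + 1)
  set D := 4 * (4 * (M + 1) ^ 2 + 1)
  refine ⟨A + (6 * M + 1) + D, fun w hw => ?_⟩
  obtain ⟨n, hn, d⟩ := h w.length w rfl hw
  refine ⟨n, hn.trans ?_, d.mono (Nat.mul_le_mul (by omega) le_rfl)⟩
  exact Nat.mul_le_mul (by omega) (Nat.pow_le_pow_right (by omega) (by omega))

end Pool.Agent.Lib.MP_0f3a7d_alT
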