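import Mathlib
import Pool.Agent.Lib.MP_0f3a7d_alT.Defs2

/-!
# MP_0f3a7d_al, leaf C1: runs of programs, basic rules

All by cases on `Run` (`cases h`), `run_mono`, `run_space` by induction. `sem_star`: `→` induction on the run of `.star p`
(generalise the program: `Run b q t s s' → q = .star p → …`), `←` `Relation.ReflTransGen.head_induction_on`, taking the maximum
of the two space bounds (`run_mono`).
-/

set_option autoImplicit false

namespace Pool.Agent.Lib.MP_0f3a7d_alT

variable {k : ℕ} {Γ : Type} {p q : Prog k Γ} {s s' s'' : Store k Γ} {b b' T T' t : ℕ}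

private theorem C1_upd (s : Store k Γ) (i : Fin k) (l : List Γ) :
    space (Function.update s i l) + (s i).length = space s + l.length := by
  unfold space
  rw [← Finset.add_sum_erase Finset.univ (fun j => (Function.update s i l j).length)
      (Finset.mem_univ i),
    ← Finset.add_sum_erase Finset.univ (fun j => (s j).length) (Finset.mem_univ i)]
  have h1 : ∑ x ∈ Finset.univ.erase i, (Function.update s i l x).length =
      ∑ x ∈ Finset.univ.erase i, (s x).length := by
    refine Finset.sum_congr rfl fun x hx => ?_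
    rw [Function.update_of_ne (Finset.ne_of_mem_erase hx)]
  rw [h1]
  simp only [Function.update_self]
  omega

private theorem C1_push (s : Store k Γ) (i : Fin k) (a : Γ) :
    space (Function.update s i (a :: s i)) = space s + 1 := by
  have h := C1_upd s i (a :: s i)
  rw [List.length_cons] at h
  omega

private theorem C1_pop {s : Store k Γ} {i : Fin k} {a : Γ} {l : List Γ} (hs : s i = a :: l) :
    space (Function.update s i l) + 1 = space s := by
  have h := C1_upd s i l
  rw [hs, List.length_cons] at h
  omega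

theorem run_mono (hb : b ≤ b') (h : Run b p t s s') : Run b' p t s s' := by
  induction h with
  | one s h => exact Run.one s (h.trans hb)
  | push i a s h => exact Run.push i a s (h.trans hb)
  | pop i a s l hs h => exact Run.pop i a s l hs (h.trans hb)
  | empty i s hs h => exact Run.empty i s hs (h.trans hb)
  | seq p q t t' s s' s'' h h' ih ih' => exact Run.seq p q t t' s s' s'' ih ih'
  | altl p q t s s' h ih => exact Run.altl p q t s s' ih
  | altr p q t s s' h ih => exact Run.altr p q t s s' ih
  | starNil p s h => exact Run.starNil p s (h.trans hb)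
  | starCons p t t' s s' s'' h h' ih ih' => exact Run.starCons p t t' s s' s'' ih ih'

theorem run_space (h : Run b p t s s') : space s ≤ b ∧ space s' ≤ b := by
  induction h with
  | one s h => exact ⟨h, h⟩
  | push i a s h =>
    have h1 := C1_push s i a
    exact ⟨by omega, h⟩
  | pop i a s l hs h =>
    have h1 := C1_pop hs
    exact ⟨h, by omega⟩
  | empty i s hs h => exact ⟨h, h⟩
  | seq p q t t' s s' s'' h h' ih ih' => exact ⟨ih.1, ih'.2⟩
  | altl p q t s s' h ih => exact ih
  | altr p q t s s' h ih => exact ih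
  | starNil p s h => exact ⟨h, h⟩
  | starCons p t t' s s' s'' h h' ih ih' => exact ⟨ih.1, ih'.2⟩

theorem RunLe.mono (hb : b ≤ b') (hT : T ≤ T') (h : RunLe b T p s s') : RunLe b' T' p s s' := by
  obtain ⟨t, ht, h1⟩ := h
  exact ⟨t, ht.trans hT, run_mono hb h1⟩

theorem RunLe.sem (h : RunLe b T p s s') : Sem p s s' := by
  obtain ⟨t, ht, h1⟩ := h
  exact ⟨b, t, h1⟩

theorem RunLe.one (h : space s ≤ b) : RunLe b 0 (.one : Prog k Γ) s s :=
  ⟨0, le_refl 0, Run.one s h⟩

theorem RunLe.push {i : Fin k} {a : Γ} (h : space s + 1 ≤ b) :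
    RunLe b 1 (.push i a) s (Function.update s i (a :: s i)) := by
  have h1 := C1_push s i a
  exact ⟨1, le_refl 1, Run.push i a s (by omega)⟩

theorem RunLe.pop {i : Fin k} {a : Γ} {l : List Γ} (hs : s i = a :: l) (h : space s ≤ b) :
    RunLe b 1 (.pop i a) s (Function.update s i l) :=
  ⟨1, le_refl 1, Run.pop i a s l hs h⟩

theorem RunLe.empty {i : Fin k} (hs : s i = []) (h : space s ≤ b) : RunLe b 1 (.empty i) s s :=
  ⟨1, le_refl 1, Run.empty i s hs h⟩

theorem RunLe.seq (h : RunLe b T p s s') (h' : RunLe b T' q s' s'') :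
    RunLe b (T + T') (.seq p q) s s'' := by
  obtain ⟨t, ht, h1⟩ := h
  obtain ⟨t', ht', h2⟩ := h'
  exact ⟨t + t', by omega, Run.seq p q t t' s s' s'' h1 h2⟩

theorem RunLe.altl (h : RunLe b T p s s') : RunLe b T (.alt p q) s s' := by
  obtain ⟨t, ht, h1⟩ := h
  exact ⟨t, ht, Run.altl p q t s s' h1⟩

theorem RunLe.altr (h : RunLe b T q s s') : RunLe b T (.alt p q) s s' := by
  obtain ⟨t, ht, h1⟩ := h
  exact ⟨t, ht, Run.altr p q t s s' h1⟩

theorem RunLe.starNil (h : space s ≤ b) : RunLe b 0 (.star p) s s :=
  ⟨0, le_refl 0, Run.starNil p s h⟩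

theorem RunLe.starCons (h : RunLe b T p s s') (h' : RunLe b T' (.star p) s' s'') :
    RunLe b (T + T') (.star p) s s'' := by
  obtain ⟨t, ht, h1⟩ := h
  obtain ⟨t', ht', h2⟩ := h'
  exact ⟨t + t', by omega, Run.starCons p t t' s s' s'' h1 h2⟩

theorem sem_zero : ¬ Sem (.zero : Prog k Γ) s s' := by
  rintro ⟨b, t, h⟩
  cases h

theorem sem_one : Sem (.one : Prog k Γ) s s' ↔ s' = s := by
  constructor
  · rintro ⟨b, t, h⟩
    cases h
    rfl
  · rintro rfl
    exact ⟨space s', 0, Run.one s' (le_refl _)⟩

theorem sem_push {i : Fin k} {a : Γ} : Sem (.push i a) s s' ↔ s' = Function.update s i (a :: s i) := by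
  constructor
  · rintro ⟨b, t, h⟩
    cases h
    rfl
  · rintro rfl
    exact ⟨_, 1, Run.push i a s (le_refl _)⟩

theorem sem_pop {i : Fin k} {a : Γ} :
    Sem (.pop i a) s s' ↔ ∃ l, s i = a :: l ∧ s' = Function.update s i l := by
  constructor
  · rintro ⟨b, t, h⟩
    cases h with
    | pop i a s l hs h => exact ⟨l, hs, rfl⟩
  · rintro ⟨l, hs, rfl⟩
    exact ⟨_, 1, Run.pop i a s l hs (le_refl _)⟩

theorem sem_empty {i : Fin k} : Sem (.empty i : Prog k Γ) s s' ↔ s i = [] ∧ s' = s := by
  constructor
  · rintro ⟨b, t, h⟩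
    cases h with
    | empty i s hs h => exact ⟨hs, rfl⟩
  · rintro ⟨hs, rfl⟩
    exact ⟨_, 1, Run.empty i s' hs (le_refl _)⟩

theorem sem_seq : Sem (.seq p q) s s'' ↔ ∃ s', Sem p s s' ∧ Sem q s' s'' := by
  constructor
  · rintro ⟨b, t, h⟩
    cases h with
    | seq p q t t' s s' s'' h h' => exact ⟨s', ⟨b, t, h⟩, ⟨b, t', h'⟩⟩
  · rintro ⟨s', ⟨b, t, h⟩, ⟨b', t', h'⟩⟩
    exact ⟨max b b', t + t', Run.seq p q t t' s s' s'' (run_mono (le_max_left _ _) h)
      (run_mono (le_max_right _ _) h')⟩

theorem sem_alt : Sem (.alt p q) s s' ↔ Sem p s s' ∨ Sem q s s' := by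
  constructor
  · rintro ⟨b, t, h⟩
    cases h with
    | altl p q t s s' h => exact Or.inl ⟨b, t, h⟩
    | altr p q t s s' h => exact Or.inr ⟨b, t, h⟩
  · rintro (⟨b, t, h⟩ | ⟨b, t, h⟩)
    · exact ⟨b, t, Run.altl p q t s s' h⟩
    · exact ⟨b, t, Run.altr p q t s s' h⟩

private theorem C1_star {r : Prog k Γ} (h : Run b r t s s') :
    ∀ p : Prog k Γ, r = .star p → Relation.ReflTransGen (Sem p) s s' := by
  induction h with
  | one s h => intro p hp; cases hp
  | push i a s h => intro p hp; cases hp
  | pop i a s l hs h => intro p hp; cases hp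
  | empty i s hs h => intro p hp; cases hp
  | seq p q t t' s s' s'' h h' ih ih' => intro p hp; cases hp
  | altl p q t s s' h ih => intro p hp; cases hp
  | altr p q t s s' h ih => intro p hp; cases hp
  | starNil p s h => intro p hp; exact Relation.ReflTransGen.refl
  | starCons p t t' s s' s'' h h' ih ih' =>
    intro q hq
    cases hq
    exact Relation.ReflTransGen.head ⟨b, t, h⟩ (ih' p rfl)

theorem sem_star : Sem (.star p) s s' ↔ Relation.ReflTransGen (Sem p) s s' := by
  constructor
  · rintro ⟨b, t, h⟩
    exact C1_star h p rfl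
  · intro h
    induction h using Relation.ReflTransGen.head_induction_on with
    | refl => exact ⟨_, 0, Run.starNil p s' (le_refl _)⟩
    | head h1 _ ih =>
      obtain ⟨b, t, h⟩ := h1
      obtain ⟨b', t', h'⟩ := ih
      exact ⟨max b b', t + t', Run.starCons p t t' _ _ s' (run_mono (le_max_left _ _) h)
        (run_mono (le_max_right _ _) h')⟩

/-- Every run has a time and a space bound. -/
theorem Sem.exists_runLe (h : Sem p s s') : ∃ b T, RunLe b T p s s' := by
  obtain ⟨b, t, h1⟩ := h
  exact ⟨b, t, t, le_refl t, h1⟩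

/-- Every action increases the space by at most one. -/
theorem run_space_le (h : Run b p t s s') : space s' ≤ space s + t := by
  induction h with
  | one s h => omega
  | push i a s h =>
    have h1 := C1_push s i a
    omega
  | pop i a s l hs h =>
    have h1 := C1_pop hs
    omega
  | empty i s hs h => omega
  | seq p q t t' s s' s'' h h' ih ih' => omega
  | altl p q t s s' h ih => exact ih
  | altr p q t s s' h ih => exact ih
  | starNil p s h => omega
  | starCons p t t' s s' s'' h h' ih ih' => omega

/-- The space of a store after a change of one stack. -/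
theorem space_update (i : Fin k) (l : List Γ) :
    space (Function.update s i l) + (s i).length = space s + l.length :=
  C1_upd s i l

end Pool.Agent.Lib.MP_0f3a7d_alT
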