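import Mathlib
import Pool.Agent.Lib.MP_0f3a7d_alT.C1

/-!
# MP_0f3a7d_al, leaf C2: `alts`, `seqs`, `pushW`, `popW`, `guess`, `clear`

By induction on the list with the rules of C1. `Sem.guess`, `sem_clear`: `sem_star` and induction on `ReflTransGen`. In
`RunLe.guess` put the letters of `u.reverse` one after the other; in `RunLe.clear` take them off (the last action is `empty`).
-/

set_option autoImplicit false

namespace Pool.Agent.Lib.MP_0f3a7d_alT

variable {k : ℕ} {Γ : Type} {s s' : Store k Γ} {b T : ℕ} {i : Fin k}

theorem sem_alts {l : List (Prog k Γ)} : Sem (alts l) s s' ↔ ∃ p ∈ l, Sem p s s' := by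
  induction l with
  | nil =>
    constructor
    · intro h
      exact absurd h sem_zero
    · rintro ⟨p, hp, _⟩
      cases hp
  | cons q l ih =>
    show Sem (.alt q (MP_0f3a7d_alT.alts l)) s s' ↔ _
    rw [sem_alt, ih]
    simp only [List.mem_cons, exists_eq_or_imp]

theorem RunLe.alts {l : List (Prog k Γ)} {p : Prog k Γ} (hp : p ∈ l) (h : RunLe b T p s s') :
    RunLe b T (alts l) s s' := by
  induction l with
  | nil => cases hp
  | cons q l ih =>
    rcases List.mem_cons.1 hp with rfl | hp
    · exact RunLe.altl h
    · exact RunLe.altr (ih hp)

theorem sem_pushW {w : List Γ} : Sem (pushW i w) s s' ↔ s' = Function.update s i (w ++ s i) := by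
  induction w generalizing s' with
  | nil =>
    show Sem .one s s' ↔ _
    rw [sem_one, List.nil_append, Function.update_eq_self]
  | cons a l ih =>
    show Sem (.seq (MP_0f3a7d_alT.pushW i l) (.push i a)) s s' ↔ _
    rw [sem_seq]
    constructor
    · rintro ⟨s1, h1, h2⟩
      rw [ih] at h1
      rw [sem_push] at h2
      subst h1
      rw [h2, Function.update_self, Function.update_idem, List.cons_append]
    · intro h
      refine ⟨_, ih.2 rfl, sem_push.2 ?_⟩
      rw [h, Function.update_self, Function.update_idem, List.cons_append]

theorem RunLe.pushW {w : List Γ} (h : space s + w.length ≤ b) :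
    RunLe b w.length (pushW i w) s (Function.update s i (w ++ s i)) := by
  induction w with
  | nil =>
    have h1 : Function.update s i (([] : List Γ) ++ s i) = s := by
      rw [List.nil_append, Function.update_eq_self]
    rw [h1]
    exact RunLe.one (by rw [List.length_nil] at h; omega)
  | cons a l ih =>
    rw [List.length_cons] at h
    have h1 := ih (by omega)
    have h2 := space_update (s := s) i (l ++ s i)
    rw [List.length_append] at h2
    have h3 : RunLe b 1 (.push i a) (Function.update s i (l ++ s i))
        (Function.update (Function.update s i (l ++ s i)) i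
          (a :: (Function.update s i (l ++ s i)) i)) := RunLe.push (by omega)
    rw [Function.update_self, Function.update_idem] at h3
    exact RunLe.seq h1 h3

theorem sem_popW {w : List Γ} :
    Sem (popW i w) s s' ↔ ∃ l, s i = w ++ l ∧ s' = Function.update s i l := by
  induction w generalizing s with
  | nil =>
    show Sem .one s s' ↔ _
    rw [sem_one]
    constructor
    · rintro rfl
      exact ⟨_, rfl, (Function.update_eq_self _ _).symm⟩
    · rintro ⟨l, h1, h2⟩
      have h3 : s i = l := h1
      rw [h2, ← h3, Function.update_eq_self]
  | cons a w ih =>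
    show Sem (.seq (.pop i a) (MP_0f3a7d_alT.popW i w)) s s' ↔ _
    rw [sem_seq]
    constructor
    · rintro ⟨s1, h1, h2⟩
      rw [sem_pop] at h1
      rw [ih] at h2
      obtain ⟨l, hl, rfl⟩ := h1
      obtain ⟨l', hl', h3⟩ := h2
      rw [Function.update_self] at hl'
      rw [Function.update_idem] at h3
      exact ⟨l', by rw [hl, hl', List.cons_append], h3⟩
    · rintro ⟨l, h1, h2⟩
      refine ⟨Function.update s i (w ++ l), sem_pop.2 ⟨w ++ l, ?_, rfl⟩, ih.2 ⟨l, ?_, ?_⟩⟩
      · rw [h1, List.cons_append]
      · rw [Function.update_self]
      · rw [Function.update_idem]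
        exact h2

theorem RunLe.popW {w l : List Γ} (hs : s i = w ++ l) (h : space s ≤ b) :
    RunLe b w.length (popW i w) s (Function.update s i l) := by
  induction w generalizing s with
  | nil =>
    have h1 : s i = l := hs
    rw [← h1, Function.update_eq_self]
    exact RunLe.one h
  | cons a w ih =>
    have h1 : RunLe b 1 (.pop i a) s (Function.update s i (w ++ l)) :=
      RunLe.pop (by rw [hs, List.cons_append]) h
    have h2 := space_update (s := s) i (w ++ l)
    rw [hs, List.cons_append, List.length_cons] at h2
    have h3 := ih (s := Function.update s i (w ++ l)) (by rw [Function.update_self]) (by omega)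
    rw [Function.update_idem] at h3
    have h4 := RunLe.seq h1 h3
    rw [List.length_cons, Nat.add_comm]
    exact h4

theorem sem_guess {A : List Γ} (h : Sem (guess A i) s s') :
    ∃ u : List Γ, (∀ a ∈ u, a ∈ A) ∧ s' = Function.update s i (u ++ s i) := by
  have h1 : Relation.ReflTransGen (Sem (MP_0f3a7d_alT.alts (A.map fun a => Prog.push i a))) s s' :=
    sem_star.1 h
  induction h1 with
  | refl => exact ⟨[], fun a ha => absurd ha List.not_mem_nil, by
      rw [List.nil_append, Function.update_eq_self]⟩
  | @tail s1 s2 h1 h2 ih =>
    obtain ⟨u, hu, h3⟩ := ih (sem_star.2 h1)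
    rw [sem_alts] at h2
    obtain ⟨p, hp, h4⟩ := h2
    obtain ⟨a, ha, rfl⟩ := List.mem_map.1 hp
    rw [sem_push] at h4
    refine ⟨a :: u, fun c hc => ?_, ?_⟩
    · rcases List.mem_cons.1 hc with rfl | hc
      · exact ha
      · exact hu c hc
    · rw [h4, h3, Function.update_self, Function.update_idem, List.cons_append]

theorem RunLe.guess {A u : List Γ} (hu : ∀ a ∈ u, a ∈ A) (h : space s + u.length ≤ b) :
    RunLe b u.length (guess A i) s (Function.update s i (u ++ s i)) := by
  have key : ∀ (v w : List Γ), (∀ a ∈ v, a ∈ A) → space s + (v.length + w.length) ≤ b →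
      RunLe b v.length (MP_0f3a7d_alT.guess A i) (Function.update s i (w ++ s i))
        (Function.update s i (v.reverse ++ (w ++ s i))) := by
    intro v
    induction v with
    | nil =>
      intro w _ hb
      have h2 := space_update (s := s) i (w ++ s i)
      rw [List.length_append] at h2
      rw [List.length_nil] at hb
      rw [List.reverse_nil, List.nil_append]
      exact RunLe.starNil (by omega)
    | cons a v ih =>
      intro w hv hb
      rw [List.length_cons] at hb
      have h2 := space_update (s := s) i (w ++ s i)
      rw [List.length_append] at h2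
      have h3 : RunLe b 1 (.push i a) (Function.update s i (w ++ s i))
          (Function.update (Function.update s i (w ++ s i)) i
            (a :: (Function.update s i (w ++ s i)) i)) := RunLe.push (by omega)
      rw [Function.update_self, Function.update_idem] at h3
      have h4 := ih (a :: w) (fun c hc => hv c (List.mem_cons_of_mem _ hc))
        (by rw [List.length_cons]; omega)
      have h5 : RunLe b 1 (MP_0f3a7d_alT.alts (A.map fun a => Prog.push i a))
          (Function.update s i (w ++ s i)) (Function.update s i (a :: (w ++ s i))) :=
        RunLe.alts (List.mem_map.2 ⟨a, hv a List.mem_cons_self, rfl⟩) h3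
      have h6 := RunLe.starCons h5 h4
      rw [List.length_cons, Nat.add_comm, List.reverse_cons, List.append_assoc,
        List.singleton_append]
      exact h6
  have h1 := key u.reverse [] (fun a ha => hu a (List.mem_reverse.1 ha))
    (by rw [List.length_reverse, List.length_nil]; omega)
  rw [List.nil_append, Function.update_eq_self, List.reverse_reverse, List.length_reverse] at h1
  exact h1

theorem sem_clear {A : List Γ} (h : Sem (clear A i) s s') : s' = Function.update s i [] := by
  obtain ⟨s1, h1, h2⟩ := sem_seq.1 h
  rw [sem_empty] at h2
  obtain ⟨h3, rfl⟩ := h2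
  have h4 : ∃ u, s' = Function.update s i u := by
    have h5 : Relation.ReflTransGen (Sem (MP_0f3a7d_alT.alts (A.map fun a => Prog.pop i a))) s s' :=
      sem_star.1 h1
    clear h h1 h3
    induction h5 with
    | refl => exact ⟨s i, (Function.update_eq_self _ _).symm⟩
    | @tail s2 s3 h6 h7 ih =>
      obtain ⟨u, hu⟩ := ih
      rw [sem_alts] at h7
      obtain ⟨p, hp, h8⟩ := h7
      obtain ⟨a, ha, rfl⟩ := List.mem_map.1 hp
      rw [sem_pop] at h8
      obtain ⟨l, _, h9⟩ := h8
      exact ⟨l, by rw [h9, hu, Function.update_idem]⟩
  obtain ⟨u, rfl⟩ := h4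
  rw [Function.update_self] at h3
  rw [h3]

theorem RunLe.clear {A : List Γ} (hA : ∀ a ∈ s i, a ∈ A) (h : space s ≤ b) :
    RunLe b ((s i).length + 1) (clear A i) s (Function.update s i []) := by
  have key : ∀ (v : List Γ), (∀ a ∈ v, a ∈ A) → v.length ≤ (s i).length →
      RunLe b v.length (.star (MP_0f3a7d_alT.alts (A.map fun a => Prog.pop i a)))
        (Function.update s i v) (Function.update s i []) := by
    intro v
    induction v with
    | nil =>
      intro _ _
      have h2 := space_update (s := s) i ([] : List Γ)
      rw [List.length_nil] at h2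
      exact RunLe.starNil (by omega)
    | cons a v ih =>
      intro hv hl
      rw [List.length_cons] at hl
      have h2 := space_update (s := s) i (a :: v)
      rw [List.length_cons] at h2
      have h3 : RunLe b 1 (.pop i a) (Function.update s i (a :: v))
          (Function.update (Function.update s i (a :: v)) i v) :=
        RunLe.pop (Function.update_self _ _ _) (by omega)
      rw [Function.update_idem] at h3
      have h4 := ih (fun c hc => hv c (List.mem_cons_of_mem _ hc)) (by omega)
      have h5 : RunLe b 1 (MP_0f3a7d_alT.alts (A.map fun a => Prog.pop i a))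
          (Function.update s i (a :: v)) (Function.update s i v) :=
        RunLe.alts (List.mem_map.2 ⟨a, hv a List.mem_cons_self, rfl⟩) h3
      have h6 := RunLe.starCons h5 h4
      rw [List.length_cons, Nat.add_comm]
      exact h6
  have h1 := key (s i) hA le_rfl
  rw [Function.update_eq_self] at h1
  have h2 := space_update (s := s) i ([] : List Γ)
  rw [List.length_nil] at h2
  exact RunLe.seq h1 (RunLe.empty (Function.update_self _ _ _) (by omega))

end Pool.Agent.Lib.MP_0f3a7d_alT
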