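import Mathlib
import Pool.Agent.Lib.MP_0f3a7d_alT.C2

/-!
# MP_0f3a7d_al, leaf C3: `pass`

One round with the letter `a` takes `a` from stack `i`, puts it on `j` and puts `f a` on `o`. `sem_pass`: by `sem_star` and
induction on `ReflTransGen` (head induction), if `s'` comes from `s` by rounds and `s' i = []` then all letters of `s i` are in
`A` and `s' = passRes i j o f s` (`i, j, o` different: `Function.update` on other indices, `Function.update_comm`; first letter
`a`: `(a :: u).reverse.flatMap f = u.reverse.flatMap f ++ f a`). `RunLe.pass`: induction on `s i`; a round takes time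
`≤ c + 2`; the space never exceeds `space s + c * (number of rounds)`.
-/

set_option autoImplicit false

namespace Pool.Agent.Lib.MP_0f3a7d_alT

variable {k : ℕ} {Γ : Type} {s s' : Store k Γ} {i j o : Fin k} {A : List Γ} {f : Γ → List Γ}

/-- One round of `pass` with the letter `a`. -/
private def C3rnd (i j o : Fin k) (f : Γ → List Γ) (a : Γ) : Prog k Γ :=
  .seq (.pop i a) (.seq (.push j a) (pushW o (f a)))

/-- The result of one round with the letter `a`, `l` is left on stack `i`. -/
private def C3res (i j o : Fin k) (f : Γ → List Γ) (a : Γ) (l : List Γ) (s : Store k Γ) : Store k Γ :=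
  Function.update (Function.update (Function.update s i l) j (a :: (Function.update s i l) j)) o
    (f a ++ (Function.update (Function.update s i l) j (a :: (Function.update s i l) j)) o)

private theorem C3_pass_eq : pass A i j o f = .seq (.star (alts (A.map (C3rnd i j o f)))) (.empty i) := rfl

private theorem C3_passRes_apply (x : Fin k) : passRes i j o f s x =
    if x = i then [] else if x = j then (s i).reverse ++ s j else
      if x = o then (s i).reverse.flatMap f ++ s o else s x := by
  unfold passRes
  rw [Function.update_apply, Function.update_apply, Function.update_apply]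

private theorem C3_res_apply (hij : i ≠ j) (hio : i ≠ o) (hjo : j ≠ o) (a : Γ) (l : List Γ) (x : Fin k) :
    C3res i j o f a l s x =
    if x = i then l else if x = j then a :: s j else if x = o then f a ++ s o else s x := by
  unfold C3res
  simp only [Function.update_apply, if_neg hij.symm, if_neg hjo.symm, if_neg hio.symm]
  by_cases h1 : x = i
  · subst h1
    simp only [if_neg hio, if_neg hij, if_true]
  · by_cases h2 : x = j
    · subst h2
      simp only [if_neg hjo, if_neg h1, if_true]
    · simp only [if_neg h1, if_neg h2]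

private theorem C3_sem_rnd {a : Γ} (h : Sem (C3rnd i j o f a) s s') :
    ∃ l, s i = a :: l ∧ s' = C3res i j o f a l s := by
  obtain ⟨s1, h1, h2⟩ := sem_seq.1 h
  obtain ⟨l, hl, rfl⟩ := sem_pop.1 h1
  obtain ⟨s2, h3, h4⟩ := sem_seq.1 h2
  have h5 := sem_push.1 h3
  subst h5
  exact ⟨l, hl, sem_pushW.1 h4⟩

private theorem C3_passRes_nil (hs : s i = []) : passRes i j o f s = s := by
  funext x
  rw [C3_passRes_apply, hs]
  by_cases h1 : x = i
  · rw [if_pos h1, h1, hs]
  · rw [if_neg h1]
    by_cases h2 : x = j
    · rw [if_pos h2, h2]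
      rfl
    · rw [if_neg h2]
      by_cases h3 : x = o
      · rw [if_pos h3, h3]
        rfl
      · rw [if_neg h3]

private theorem C3_passRes_cons (hij : i ≠ j) (hio : i ≠ o) (hjo : j ≠ o) {a : Γ} {l : List Γ}
    (hs : s i = a :: l) : passRes i j o f (C3res i j o f a l s) = passRes i j o f s := by
  funext x
  have e1 : C3res i j o f a l s i = l := by rw [C3_res_apply hij hio hjo, if_pos rfl]
  have e2 : C3res i j o f a l s j = a :: s j := by
    rw [C3_res_apply hij hio hjo, if_neg hij.symm, if_pos rfl]
  have e3 : C3res i j o f a l s o = f a ++ s o := by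
    rw [C3_res_apply hij hio hjo, if_neg hio.symm, if_neg hjo.symm, if_pos rfl]
  rw [C3_passRes_apply, C3_passRes_apply, e1, e2, e3, hs, C3_res_apply hij hio hjo]
  by_cases h1 : x = i
  · simp only [if_pos h1]
  · by_cases h2 : x = j
    · simp only [if_neg h1, if_pos h2, List.reverse_cons, List.append_assoc]
      rfl
    · by_cases h3 : x = o
      · simp only [if_neg h1, if_neg h2, if_pos h3, List.reverse_cons, List.flatMap_append, List.append_assoc,
          List.flatMap_cons, List.flatMap_nil, List.append_nil]
      · simp only [if_neg h1, if_neg h2, if_neg h3]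

theorem sem_pass (hij : i ≠ j) (hio : i ≠ o) (hjo : j ≠ o) (h : Sem (pass A i j o f) s s') :
    (∀ a ∈ s i, a ∈ A) ∧ s' = passRes i j o f s := by
  rw [C3_pass_eq] at h
  obtain ⟨s1, h1, h2⟩ := sem_seq.1 h
  obtain ⟨h3, h4⟩ := sem_empty.1 h2
  subst h4
  have h5 := sem_star.1 h1
  clear h h1 h2
  induction h5 using Relation.ReflTransGen.head_induction_on with
  | refl =>
    refine ⟨fun a ha => ?_, (C3_passRes_nil h3).symm⟩
    rw [h3] at ha
    exact absurd ha List.not_mem_nil
  | head h6 h7 ih =>
    obtain ⟨p, hp, h8⟩ := sem_alts.1 h6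
    obtain ⟨a, ha, rfl⟩ := List.mem_map.1 hp
    obtain ⟨l, hl, rfl⟩ := C3_sem_rnd h8
    obtain ⟨ih1, ih2⟩ := ih
    refine ⟨fun b hb => ?_, ?_⟩
    · rw [hl, List.mem_cons] at hb
      rcases hb with hb | hb
      · rw [hb]
        exact ha
      · refine ih1 b ?_
        rw [C3_res_apply hij hio hjo, if_pos rfl]
        exact hb
    · rw [ih2, C3_passRes_cons hij hio hjo hl]

/-- One round: time at most `c + 2`. -/
private theorem C3_run_rnd {a : Γ} {l : List Γ} {b c : ℕ}
    (hs : s i = a :: l) (hf : (f a).length ≤ c) (hb : space s + c ≤ b) :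
    RunLe b (c + 2) (C3rnd i j o f a) s (C3res i j o f a l s) ∧
      space (C3res i j o f a l s) ≤ space s + c := by
  have u1 := space_update (s := s) i l
  rw [hs, List.length_cons] at u1
  have u2 := space_update (s := Function.update s i l) j (a :: (Function.update s i l) j)
  rw [List.length_cons] at u2
  have u3 := space_update
    (s := Function.update (Function.update s i l) j (a :: (Function.update s i l) j)) o
    (f a ++ (Function.update (Function.update s i l) j (a :: (Function.update s i l) j)) o)
  rw [List.length_append] at u3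
  have r1 : RunLe b 1 (.pop i a) s (Function.update s i l) := RunLe.pop hs (by omega)
  have r2 : RunLe b 1 (.push j a) (Function.update s i l)
      (Function.update (Function.update s i l) j (a :: (Function.update s i l) j)) :=
    RunLe.push (by omega)
  have r3 : RunLe b (f a).length (pushW o (f a))
      (Function.update (Function.update s i l) j (a :: (Function.update s i l) j))
      (C3res i j o f a l s) := RunLe.pushW (by omega)
  refine ⟨(r1.seq (r2.seq r3)).mono le_rfl (by omega), ?_⟩
  unfold C3res
  omega

private theorem C3_run_star (hij : i ≠ j) (hio : i ≠ o) (hjo : j ≠ o) {b c : ℕ}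
    (hf : ∀ a ∈ A, (f a).length ≤ c) (l : List Γ) :
    ∀ s : Store k Γ, s i = l → (∀ a ∈ l, a ∈ A) → space s + c * l.length ≤ b →
      RunLe b ((c + 2) * l.length) (.star (alts (A.map (C3rnd i j o f)))) s (passRes i j o f s) := by
  induction l with
  | nil =>
    intro s hs _ hb
    rw [C3_passRes_nil hs]
    refine (RunLe.starNil ?_).mono le_rfl (Nat.zero_le _)
    omega
  | cons a l ih =>
    intro s hs hA hb
    rw [List.length_cons, Nat.mul_succ] at hb
    have ha : a ∈ A := hA a List.mem_cons_self
    obtain ⟨r1, r2⟩ := C3_run_rnd (j := j) (o := o) (f := f) hs (hf a ha) (b := b) (c := c) (by omega)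
    have r3 := ih (C3res i j o f a l s) (by rw [C3_res_apply hij hio hjo, if_pos rfl])
      (fun x hx => hA x (List.mem_cons_of_mem _ hx)) (by omega)
    rw [C3_passRes_cons hij hio hjo hs] at r3
    refine (RunLe.starCons (RunLe.alts (List.mem_map_of_mem ha) r1) r3).mono le_rfl ?_
    rw [List.length_cons, Nat.mul_succ]
    omega

theorem RunLe.pass (hij : i ≠ j) (hio : i ≠ o) (hjo : j ≠ o) (hA : ∀ a ∈ s i, a ∈ A) {b c : ℕ}
    (hf : ∀ a ∈ A, (f a).length ≤ c) (hb : space s + c * (s i).length ≤ b) :
    RunLe b ((c + 2) * (s i).length + 1) (pass A i j o f) s (passRes i j o f s) := by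
  have h1 := C3_run_star hij hio hjo hf (s i) s rfl hA hb
  have h2 : space (passRes i j o f s) ≤ b := by
    obtain ⟨t, _, ht⟩ := h1
    exact (run_space ht).2
  exact h1.seq (RunLe.empty (by rw [C3_passRes_apply, if_pos rfl]) h2)

end Pool.Agent.Lib.MP_0f3a7d_alT
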