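import Mathlib
import Pool.Agent.Lib.MP_0f3a7d_alT.C2

/-!
# MP_0f3a7d_al, leaf C4: the head of the tape, replacement at the head

`sem_mv`: each move keeps `(s l).reverse ++ s r` and the other stacks. `RunLe.mv`: if `|u|` is larger than the present left part,
move letters from `r` to `l`, otherwise from `l` to `r`; at most `|tape|` moves with 2 actions each; the space does not grow.
`sem_rule`, `RunLe.rule`: C2.
-/

set_option autoImplicit false

namespace Pool.Agent.Lib.MP_0f3a7d_alT

variable {k : ℕ} {Γ : Type} {s s' : Store k Γ} {l r : Fin k} {A : List Γ} {b : ℕ}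

private theorem C4_move {L : List (Prog k Γ)} {i j : Fin k} (hij : i ≠ j)
    (hp : ∀ a ∈ A, Prog.seq (.pop i a) (.push j a) ∈ L) (x : List Γ) :
    ∀ (s : Store k Γ) (w : List Γ), (∀ a ∈ x, a ∈ A) → s i = x ++ w → space s ≤ b →
      RunLe b (2 * x.length) (.star (alts L)) s
        (Function.update (Function.update s i w) j (x.reverse ++ s j)) := by
  induction x with
  | nil =>
    intro s w _ hs hb
    have h1 : Function.update (Function.update s i w) j (([] : List Γ).reverse ++ s j) = s := by
      have h2 : s i = w := hs
      rw [← h2, Function.update_eq_self, List.reverse_nil, List.nil_append,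
        Function.update_eq_self]
    rw [h1]
    exact RunLe.starNil hb
  | cons a x ih =>
    intro s w hA hs hb
    have h1 : RunLe b 1 (.pop i a) s (Function.update s i (x ++ w)) := RunLe.pop hs hb
    have h2 := space_update (s := s) i (x ++ w)
    rw [hs, List.cons_append, List.length_cons] at h2
    have h3 : Function.update s i (x ++ w) j = s j := Function.update_of_ne hij.symm _ _
    have h4 : RunLe b 1 (.push j a) (Function.update s i (x ++ w))
        (Function.update (Function.update s i (x ++ w)) j (a :: s j)) := by
      have h5 : RunLe b 1 (.push j a) (Function.update s i (x ++ w))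
        (Function.update (Function.update s i (x ++ w)) j
          (a :: Function.update s i (x ++ w) j)) := RunLe.push (by omega)
      rwa [h3] at h5
    have h5 : space (Function.update (Function.update s i (x ++ w)) j (a :: s j)) ≤ b := by
      have h6 := space_update (s := Function.update s i (x ++ w)) j (a :: s j)
      rw [h3, List.length_cons] at h6
      omega
    have h6 : RunLe b 2 (alts L) s
        (Function.update (Function.update s i (x ++ w)) j (a :: s j)) :=
      RunLe.alts (hp a (hA a List.mem_cons_self)) (RunLe.seq h1 h4)
    have h7 : Function.update (Function.update s i (x ++ w)) j (a :: s j) i = x ++ w := by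
      rw [Function.update_of_ne hij, Function.update_self]
    have h8 := ih (Function.update (Function.update s i (x ++ w)) j (a :: s j)) w
      (fun c hc => hA c (List.mem_cons_of_mem _ hc)) h7 h5
    have h9 : Function.update (Function.update (Function.update (Function.update s i (x ++ w)) j
        (a :: s j)) i w) j
        (x.reverse ++ Function.update (Function.update s i (x ++ w)) j (a :: s j) j) =
        Function.update (Function.update s i w) j ((a :: x).reverse ++ s j) := by
      rw [Function.update_self, Function.update_comm hij.symm, Function.update_idem,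
        Function.update_idem, List.reverse_cons, List.append_assoc]
      rfl
    rw [h9] at h8
    have h10 := RunLe.starCons h6 h8
    refine RunLe.mono le_rfl ?_ h10
    rw [List.length_cons]
    omega

theorem sem_mv (hlr : l ≠ r) (h : Sem (mv A l r) s s') :
    tape l r s' = tape l r s ∧ ∀ i, i ≠ l → i ≠ r → s' i = s i := by
  have h0 := sem_star.mp h
  induction h0 with
  | refl => exact ⟨rfl, fun _ _ _ => rfl⟩
  | @tail s1 s2 h1 h2 ih =>
    obtain ⟨ih1, ih2⟩ := ih (sem_star.mpr h1)
    obtain ⟨p, hp, h3⟩ := sem_alts.mp h2
    rcases List.mem_append.mp hp with hp | hp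
    · obtain ⟨a, _, rfl⟩ := List.mem_map.mp hp
      obtain ⟨s3, h4, h5⟩ := sem_seq.mp h3
      obtain ⟨w, h6, rfl⟩ := sem_pop.mp h4
      rw [sem_push] at h5
      subst h5
      constructor
      · rw [← ih1]
        unfold tape
        rw [Function.update_self, Function.update_of_ne hlr, Function.update_of_ne hlr.symm,
          Function.update_self, h6, List.reverse_cons, List.append_assoc]
        rfl
      · intro i hl hr
        rw [Function.update_of_ne hl, Function.update_of_ne hr]
        exact ih2 i hl hr
    · obtain ⟨a, _, rfl⟩ := List.mem_map.mp hp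
      obtain ⟨s3, h4, h5⟩ := sem_seq.mp h3
      obtain ⟨w, h6, rfl⟩ := sem_pop.mp h4
      rw [sem_push] at h5
      subst h5
      constructor
      · rw [← ih1]
        unfold tape
        rw [Function.update_self, Function.update_of_ne hlr, Function.update_of_ne hlr.symm,
          Function.update_self, h6, List.reverse_cons, List.append_assoc]
        rfl
      · intro i hl hr
        rw [Function.update_of_ne hr, Function.update_of_ne hl]
        exact ih2 i hl hr

theorem RunLe.mv (hlr : l ≠ r) (hA : ∀ a ∈ tape l r s, a ∈ A) {u v : List Γ} (h : tape l r s = u ++ v)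
    (hb : space s ≤ b) : RunLe b (2 * (tape l r s).length) (mv A l r) s
      (Function.update (Function.update s l u.reverse) r v) := by
  have h0 : (s l).reverse ++ s r = u ++ v := h
  rcases List.append_eq_append_iff.mp h0 with ⟨x, hu, hr⟩ | ⟨x, hl, hv⟩
  · have h1 : ∀ a ∈ x, a ∈ A := fun a ha => hA a (by
      unfold tape
      rw [hr]
      exact List.mem_append_right _ (List.mem_append_left _ ha))
    have h2 := C4_move (b := b) (A := A) (L := (A.map fun a => Prog.seq (.pop r a) (.push l a)) ++
      (A.map fun a => Prog.seq (.pop l a) (.push r a))) hlr.symm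
      (fun a ha => List.mem_append_left _ (List.mem_map.mpr ⟨a, ha, rfl⟩)) x s v h1 hr hb
    have h3 : x.reverse ++ s l = u.reverse := by
      rw [hu, List.reverse_append, List.reverse_reverse]
    rw [h3, Function.update_comm hlr.symm] at h2
    refine RunLe.mono le_rfl ?_ h2
    unfold tape
    rw [h0, hu, List.length_append, List.length_append]
    omega
  · have h1 : ∀ a ∈ x.reverse, a ∈ A := fun a ha => hA a (by
      unfold tape
      rw [hl]
      exact List.mem_append_left _ (List.mem_append_right _ (List.mem_reverse.mp ha)))
    have h4 : s l = x.reverse ++ u.reverse := by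
      rw [← List.reverse_append, ← hl, List.reverse_reverse]
    have h2 := C4_move (b := b) (A := A) (L := (A.map fun a => Prog.seq (.pop r a) (.push l a)) ++
      (A.map fun a => Prog.seq (.pop l a) (.push r a))) hlr
      (fun a ha => List.mem_append_right _ (List.mem_map.mpr ⟨a, ha, rfl⟩)) x.reverse s u.reverse
      h1 h4 hb
    rw [List.reverse_reverse, ← hv] at h2
    refine RunLe.mono le_rfl ?_ h2
    unfold tape
    rw [h0, hv, List.length_append, List.length_append, List.length_reverse]
    omega

theorem sem_rule {q : List Γ × List Γ} :
    Sem (rule r q) s s' ↔ ∃ w, s r = q.1 ++ w ∧ s' = Function.update s r (q.2 ++ w) := by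
  unfold rule
  rw [sem_seq]
  constructor
  · rintro ⟨s1, h1, h2⟩
    obtain ⟨w, h3, rfl⟩ := sem_popW.mp h1
    rw [sem_pushW, Function.update_self, Function.update_idem] at h2
    exact ⟨w, h3, h2⟩
  · rintro ⟨w, h1, rfl⟩
    refine ⟨Function.update s r w, sem_popW.mpr ⟨w, h1, rfl⟩, ?_⟩
    rw [sem_pushW, Function.update_self, Function.update_idem]

theorem RunLe.rule {q : List Γ × List Γ} {w : List Γ} (h : s r = q.1 ++ w)
    (hb : space s + q.2.length ≤ b) :
    RunLe b (q.1.length + q.2.length) (rule r q) s (Function.update s r (q.2 ++ w)) := by
  have h1 := RunLe.popW (b := b) h (by omega)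
  have h2 := space_update (s := s) r w
  rw [h, List.length_append] at h2
  have h3 := RunLe.pushW (i := r) (s := Function.update s r w) (b := b) (w := q.2) (by omega)
  rw [Function.update_self, Function.update_idem] at h3
  exact RunLe.seq h1 h3

end Pool.Agent.Lib.MP_0f3a7d_alT
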