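import Mathlib
import Pool.Agent.Lib.MP_0f3a7d_alT.C1

/-!
# MP_0f3a7d_al, leaf C5: a program on some of the stacks of a larger machine

`e` and `φ` are injective. `run_emb`: induction on the run. `sem_emb`: let `Run b (embP e φ p) t s s'`; induction on `p` with
`sem_*` of C1 (for `star` induction on `ReflTransGen`); e.g. for `pop i a`: `s (e i) = φ a :: l` and `s (e i) = (s₀ i).map φ` give
`s₀ i = a :: l₀` with `l = l₀.map φ` (`φ` injective).
-/

set_option autoImplicit false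

namespace Pool.Agent.Lib.MP_0f3a7d_alT

variable {k m : ℕ} {Γ Δ : Type} {e : Fin k → Fin m} {φ : Γ → Δ}

private theorem C5_upd (he : Function.Injective e) {i : Fin k} {l : List Γ} {s₀ : Store k Γ}
    {s : Store m Δ} (hs : ∀ i, s (e i) = (s₀ i).map φ) {l' : List Δ} (hl : l' = l.map φ) :
    (∀ j, (Function.update s (e i) l') (e j) = ((Function.update s₀ i l) j).map φ) ∧
      ∀ j, (∀ i, e i ≠ j) → (Function.update s (e i) l') j = s j := by
  refine ⟨fun j => ?_, fun j hj => Function.update_of_ne (hj i).symm _ _⟩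
  by_cases hi : j = i
  · subst hi
    rw [Function.update_self, Function.update_self, hl]
  · rw [Function.update_of_ne hi, Function.update_of_ne (he.ne hi), hs]

theorem run_emb (he : Function.Injective e) {b t : ℕ} {p : Prog k Γ} {s₀ s₀' : Store k Γ}
    (h : Run b p t s₀ s₀') (s : Store m Δ) (hs : ∀ i, s (e i) = (s₀ i).map φ) (B : ℕ)
    (hB : space s + b ≤ B + space s₀) :
    ∃ s', Run B (embP e φ p) t s s' ∧ (∀ i, s' (e i) = (s₀' i).map φ) ∧
      (∀ j, (∀ i, e i ≠ j) → s' j = s j) ∧ space s' + space s₀ = space s + space s₀' := by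
  induction h generalizing s with
  | one s₁ h => exact ⟨s, .one s (by omega), hs, fun _ _ => rfl, rfl⟩
  | push i a s₁ h =>
    have h1 := space_update (s := s₁) i (a :: s₁ i)
    have h2 := space_update (s := s) (e i) (φ a :: s (e i))
    simp only [List.length_cons] at h1 h2
    have h3 := C5_upd he (i := i) (l := a :: s₁ i) (l' := φ a :: s (e i)) hs
      (by rw [hs i, List.map_cons])
    exact ⟨Function.update s (e i) (φ a :: s (e i)), .push (e i) (φ a) s (by omega), h3.1, h3.2,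
      by omega⟩
  | pop i a s₁ l hl h =>
    have hl' : s (e i) = φ a :: l.map φ := by rw [hs i, hl, List.map_cons]
    have h1 := space_update (s := s₁) i l
    have h2 := space_update (s := s) (e i) (l.map φ)
    rw [hl] at h1
    rw [hl'] at h2
    simp only [List.length_cons, List.length_map] at h1 h2
    have h3 := C5_upd he (i := i) (l := l) (l' := l.map φ) hs rfl
    exact ⟨Function.update s (e i) (l.map φ), .pop (e i) (φ a) s _ hl' (by omega), h3.1, h3.2,
      by omega⟩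
  | empty i s₁ hl h =>
    exact ⟨s, .empty (e i) s (by rw [hs i, hl, List.map_nil]) (by omega), hs, fun _ _ => rfl, rfl⟩
  | seq p q t t' s₁ s₂ s₃ _ _ ih ih' =>
    obtain ⟨x, x1, x2, x3, x4⟩ := ih s hs hB
    obtain ⟨y, y1, y2, y3, y4⟩ := ih' x x2 (by omega)
    exact ⟨y, .seq _ _ _ _ _ _ _ x1 y1, y2, fun j hj => (y3 j hj).trans (x3 j hj), by omega⟩
  | altl p q t s₁ s₂ _ ih =>
    obtain ⟨x, x1, x2, x3, x4⟩ := ih s hs hB
    exact ⟨x, .altl _ _ _ _ _ x1, x2, x3, x4⟩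
  | altr p q t s₁ s₂ _ ih =>
    obtain ⟨x, x1, x2, x3, x4⟩ := ih s hs hB
    exact ⟨x, .altr _ _ _ _ _ x1, x2, x3, x4⟩
  | starNil p s₁ h => exact ⟨s, .starNil _ s (by omega), hs, fun _ _ => rfl, rfl⟩
  | starCons p t t' s₁ s₂ s₃ _ _ ih ih' =>
    obtain ⟨x, x1, x2, x3, x4⟩ := ih s hs hB
    obtain ⟨y, y1, y2, y3, y4⟩ := ih' x x2 (by omega)
    exact ⟨y, .starCons _ _ _ _ _ _ x1 y1, y2, fun j hj => (y3 j hj).trans (x3 j hj), by omega⟩

theorem sem_emb (he : Function.Injective e) (hφ : Function.Injective φ) {p : Prog k Γ}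
    {s s' : Store m Δ} (h : Sem (embP e φ p) s s') (s₀ : Store k Γ) (hs : ∀ i, s (e i) = (s₀ i).map φ) :
    ∃ s₀', Sem p s₀ s₀' ∧ (∀ i, s' (e i) = (s₀' i).map φ) ∧ ∀ j, (∀ i, e i ≠ j) → s' j = s j := by
  induction p generalizing s s' s₀ with
  | zero => exact absurd h sem_zero
  | one =>
    obtain rfl := sem_one.1 h
    exact ⟨s₀, sem_one.2 rfl, hs, fun _ _ => rfl⟩
  | push i a =>
    obtain rfl := sem_push.1 h
    have h3 := C5_upd he (i := i) (l := a :: s₀ i) (l' := φ a :: s (e i)) hs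
      (by rw [hs i, List.map_cons])
    exact ⟨_, sem_push.2 rfl, h3.1, h3.2⟩
  | pop i a =>
    obtain ⟨l, hl, rfl⟩ := sem_pop.1 h
    rw [hs i] at hl
    obtain ⟨a', l', h1, h2, h3⟩ := List.map_eq_cons_iff.1 hl
    obtain rfl := hφ h2
    have h4 := C5_upd he (i := i) (l := l') (l' := l) hs h3.symm
    exact ⟨_, sem_pop.2 ⟨l', h1, rfl⟩, h4.1, h4.2⟩
  | empty i =>
    obtain ⟨h1, rfl⟩ := sem_empty.1 h
    rw [hs i] at h1
    exact ⟨s₀, sem_empty.2 ⟨List.map_eq_nil_iff.1 h1, rfl⟩, hs, fun _ _ => rfl⟩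
  | seq p q ihp ihq =>
    obtain ⟨s1, h1, h2⟩ := sem_seq.1 h
    obtain ⟨x, x1, x2, x3⟩ := ihp h1 s₀ hs
    obtain ⟨y, y1, y2, y3⟩ := ihq h2 x x2
    exact ⟨y, sem_seq.2 ⟨x, x1, y1⟩, y2, fun j hj => (y3 j hj).trans (x3 j hj)⟩
  | alt p q ihp ihq =>
    rcases sem_alt.1 h with h1 | h1
    · obtain ⟨x, x1, x2, x3⟩ := ihp h1 s₀ hs
      exact ⟨x, sem_alt.2 (.inl x1), x2, x3⟩
    · obtain ⟨x, x1, x2, x3⟩ := ihq h1 s₀ hs
      exact ⟨x, sem_alt.2 (.inr x1), x2, x3⟩
  | star p ih =>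
    have key : ∀ z, Relation.ReflTransGen (Sem (embP e φ p)) s z → ∃ x,
        Relation.ReflTransGen (Sem p) s₀ x ∧ (∀ i, z (e i) = (x i).map φ) ∧
          ∀ j, (∀ i, e i ≠ j) → z j = s j := by
      intro z hz
      induction hz with
      | refl => exact ⟨s₀, .refl, hs, fun _ _ => rfl⟩
      | tail _ hbc ihh =>
        obtain ⟨x, x1, x2, x3⟩ := ihh
        obtain ⟨y, y1, y2, y3⟩ := ih hbc x x2
        exact ⟨y, x1.tail y1, y2, fun j hj => (y3 j hj).trans (x3 j hj)⟩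
    obtain ⟨x, x1, x2, x3⟩ := key s' (sem_star.1 h)
    exact ⟨x, sem_star.2 x1, x2, x3⟩

end Pool.Agent.Lib.MP_0f3a7d_alT
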