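import Mathlib
import Pool.Agent.Lib.MP_0f3a7d_alT.Defs2

/-!
# MP_0f3a7d_al: the linear space machine

Stacks: `0` the input, `1` a copy, `2` and `3` the tape. Letters: `Sum.inl a` for `a ∈ σ`, `Sum.inr y` for the letters of words
over the generators.
-/

set_option autoImplicit false

namespace Pool.Agent.Lib.MP_0f3a7d_alT

/-- A list of all elements of a finite type. -/
noncomputable def allL (α : Type) [Finite α] : List α := (Set.finite_univ (α := α)).toFinset.toList

theorem mem_allL {α : Type} [Finite α] (a : α) : a ∈ allL α := by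
  unfold allL
  rw [Finset.mem_toList, Set.Finite.mem_toFinset]
  exact Set.mem_univ a

section Lin

variable {σ ι : Type}

/-- A word over the generators as a word of the machine. -/
def wr (w : Wd ι) : List (σ ⊕ ι × Bool) := w.map Sum.inr

/-- `a ↦ A a`. -/
def posA (A : σ → Wd ι) : σ ⊕ ι × Bool → List (σ ⊕ ι × Bool) := Sum.elim (fun a => wr (A a)) fun _ => []

/-- `a ↦ (A a)⁻¹`. -/
def negA (A : σ → Wd ι) : σ ⊕ ι × Bool → List (σ ⊕ ι × Bool) := Sum.elim (fun a => wr (inv (A a))) fun _ => []

/-- Build the word `comm A U T x` on stack `3`. -/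
noncomputable def bld [Finite σ] (A : σ → Wd ι) (U T : Wd ι) : Prog 4 (σ ⊕ ι × Bool) :=
  seqs [pass ((allL σ).map Sum.inl) 0 1 3 (negA A), pushW 3 (wr (inv T)),
    pass ((allL σ).map Sum.inl) 1 0 3 (posA A), pushW 3 (wr (inv U)),
    pass ((allL σ).map Sum.inl) 0 1 3 (negA A), pushW 3 (wr T),
    pass ((allL σ).map Sum.inl) 1 0 3 (posA A), pushW 3 (wr U)]

/-- The initial store. -/
def ini (x : List σ) : Store 4 (σ ⊕ ι × Bool) := fun i => if i = 0 then x.map Sum.inl else []

/-- The store after `bld`. -/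
def fini (A : σ → Wd ι) (U T : Wd ι) (x : List σ) : Store 4 (σ ⊕ ι × Bool) :=
  fun i => if i = 0 then x.map Sum.inl else if i = 3 then wr (comm A U T x) else []

/-- The rules at the head of the tape: delete a pair of inverse letters, insert one, delete a word of `R`. -/
noncomputable def rls [Finite ι] (R : List (Wd ι)) : List (List (σ ⊕ ι × Bool) × List (σ ⊕ ι × Bool)) :=
  (allL (ι × Bool)).map (fun y => (wr [(y.1, y.2), (y.1, !y.2)], [])) ++
    ((allL (ι × Bool)).map (fun y => ([], wr [(y.1, y.2), (y.1, !y.2)])) ++ R.map (fun r => (wr r, [])))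

/-- Rewrite the tape to the empty word. -/
noncomputable def lp [Finite ι] (R : List (Wd ι)) : Prog 4 (σ ⊕ ι × Bool) :=
  .seq (.star (.seq (mv ((allL (ι × Bool)).map Sum.inr) 2 3) (alts ((rls R).map (rule 3)))))
    (.seq (.empty 2) (.empty 3))

end Lin

end Pool.Agent.Lib.MP_0f3a7d_alT
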