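import Mathlib
import Pool.Agent.Lib.MP_0f3a7d_alT.Defs4
import Pool.Agent.Lib.MP_0f3a7d_alT.C3

/-!
# MP_0f3a7d_al, leaf D1: building the word

Follow the eight programs: `pass 0 1 3 (negA A)` from `ini x` puts `(x.map inl).reverse` on stack `1` and
`(x.map inl).reverse.flatMap (negA A) = wr (inv (x.flatMap A))` on stack `3`; `pass 1 0 3 (posA A)` brings `x.map inl` back to
stack `0` and puts `wr (x.flatMap A)` on top of stack `3`; and so on. In the end `fini A U T x`. (Prove first the effect of the
two passes on a general store of this kind.) `run_bld`: all words have length `≤ c (|x| + 1)`; `RunLe.pass`, `RunLe.pushW` with `c`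
a bound for the lengths of the `A a` (`σ` finite), `U`, `T`.
-/

set_option autoImplicit false

namespace Pool.Agent.Lib.MP_0f3a7d_alT

section D1

variable {σ ι : Type}

/-- The stores with the words `u`, `v`, `w` on the stacks `0`, `1`, `3`. -/
private def D1_st (u v w : List (σ ⊕ ι × Bool)) : Store 4 (σ ⊕ ι × Bool) :=
  fun i => if i = 0 then u else if i = 1 then v else if i = 3 then w else []

private theorem D1_space (u v w : List (σ ⊕ ι × Bool)) :
    space (D1_st u v w) = u.length + v.length + w.length := by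
  simp [space, Fin.sum_univ_four, D1_st]

private theorem D1_update (u v w w' : List (σ ⊕ ι × Bool)) :
    Function.update (D1_st u v w) 3 w' = D1_st u v w' := by
  funext i
  fin_cases i <;> simp [D1_st, Function.update]

private theorem D1_res1 (u v w : List (σ ⊕ ι × Bool)) (f : σ ⊕ ι × Bool → List (σ ⊕ ι × Bool)) :
    passRes 0 1 3 f (D1_st u v w) = D1_st [] (u.reverse ++ v) (u.reverse.flatMap f ++ w) := by
  funext i
  fin_cases i <;> simp [D1_st, passRes, Function.update]

private theorem D1_res2 (u v w : List (σ ⊕ ι × Bool)) (f : σ ⊕ ι × Bool → List (σ ⊕ ι × Bool)) :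
    passRes 1 0 3 f (D1_st u v w) = D1_st (v.reverse ++ u) [] (v.reverse.flatMap f ++ w) := by
  funext i
  fin_cases i <;> simp [D1_st, passRes, Function.update]

private theorem D1_inv_append (v w : Wd ι) : inv (v ++ w) = inv w ++ inv v := by
  simp [inv]

private theorem D1_neg (A : σ → Wd ι) (x : List σ) :
    ((x.map Sum.inl).reverse.flatMap (negA A) : List (σ ⊕ ι × Bool)) = wr (inv (x.flatMap A)) := by
  induction x with
  | nil => rfl
  | cons a x ih =>
    have h1 : (a :: x).flatMap A = A a ++ x.flatMap A := List.flatMap_cons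
    rw [List.map_cons, List.reverse_cons, List.flatMap_append, ih, h1, D1_inv_append]
    simp [wr, negA]

private theorem D1_pos (A : σ → Wd ι) (x : List σ) :
    ((x.map Sum.inl).flatMap (posA A) : List (σ ⊕ ι × Bool)) = wr (x.flatMap A) := by
  induction x with
  | nil => rfl
  | cons a x ih =>
    rw [List.map_cons, List.flatMap_cons, ih, List.flatMap_cons]
    simp [wr, posA]

private theorem D1_len_wr (w : Wd ι) : (wr w : List (σ ⊕ ι × Bool)).length = w.length := by
  simp [wr]

private theorem D1_len_X (A : σ → Wd ι) {c : ℕ} (hc : ∀ a, (A a).length ≤ c) (x : List σ) :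
    (x.flatMap A).length ≤ c * x.length := by
  induction x with
  | nil => simp
  | cons a x ih =>
    rw [List.flatMap_cons, List.length_append, List.length_cons, Nat.mul_succ]
    have := hc a
    omega

private theorem D1_ini (x : List σ) : (ini x : Store 4 (σ ⊕ ι × Bool)) = D1_st (x.map Sum.inl) [] [] := by
  funext i
  fin_cases i <;> simp [D1_st, ini]

private theorem D1_fini (A : σ → Wd ι) (U T : Wd ι) (x : List σ) :
    fini A U T x = D1_st (x.map Sum.inl) [] (wr U ++ (wr (x.flatMap A) ++ (wr T ++ (wr (inv (x.flatMap A)) ++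
      (wr (inv U) ++ (wr (x.flatMap A) ++ (wr (inv T) ++ wr (inv (x.flatMap A))))))))) := by
  funext i
  fin_cases i <;> simp [D1_st, fini, comm, wr]

private theorem D1_mem [Finite σ] (x : List σ) :
    ∀ a ∈ (x.map Sum.inl : List (σ ⊕ ι × Bool)), a ∈ (allL σ).map (Sum.inl : σ → σ ⊕ ι × Bool) := by
  intro a ha
  obtain ⟨a', -, rfl⟩ := List.mem_map.mp ha
  exact List.mem_map.mpr ⟨a', mem_allL a', rfl⟩

private theorem D1_sem1 [Finite σ] (A : σ → Wd ι) (x : List σ) (w : List (σ ⊕ ι × Bool))
    {s : Store 4 (σ ⊕ ι × Bool)}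
    (h : Sem (pass ((allL σ).map Sum.inl) 0 1 3 (negA A)) (D1_st (x.map Sum.inl) [] w) s) :
    s = D1_st [] (x.map Sum.inl).reverse (wr (inv (x.flatMap A)) ++ w) := by
  have h1 := (sem_pass (by decide) (by decide) (by decide) h).2
  rw [h1, D1_res1, D1_neg, List.append_nil]

private theorem D1_sem2 [Finite σ] (A : σ → Wd ι) (x : List σ) (w : List (σ ⊕ ι × Bool))
    {s : Store 4 (σ ⊕ ι × Bool)}
    (h : Sem (pass ((allL σ).map Sum.inl) 1 0 3 (posA A)) (D1_st [] (x.map Sum.inl).reverse w) s) :
    s = D1_st (x.map Sum.inl) [] (wr (x.flatMap A) ++ w) := by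
  have h1 := (sem_pass (by decide) (by decide) (by decide) h).2
  rw [h1, D1_res2, List.reverse_reverse, D1_pos, List.append_nil]

private theorem D1_sem3 (w v : List (σ ⊕ ι × Bool)) (u u' : List (σ ⊕ ι × Bool))
    {s : Store 4 (σ ⊕ ι × Bool)} (h : Sem (pushW 3 w) (D1_st u u' v) s) :
    s = D1_st u u' (w ++ v) := by
  have h1 := sem_pushW.mp h
  rw [h1, D1_update]
  rfl

private theorem D1_run1 [Finite σ] (A : σ → Wd ι) {c b : ℕ} (hc : ∀ a, (A a).length ≤ c) (x : List σ)
    (w : List (σ ⊕ ι × Bool)) (hb : x.length + w.length + c * x.length ≤ b) :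
    RunLe b ((c + 2) * x.length + 1) (pass ((allL σ).map Sum.inl) 0 1 3 (negA A)) (D1_st (x.map Sum.inl) [] w)
      (D1_st [] (x.map Sum.inl).reverse (wr (inv (x.flatMap A)) ++ w)) := by
  have h1 := RunLe.pass (s := D1_st (x.map Sum.inl) [] w) (i := 0) (j := 1) (o := 3)
    (A := (allL σ).map (Sum.inl : σ → σ ⊕ ι × Bool)) (f := negA A) (by decide) (by decide) (by decide)
    (D1_mem x) (b := b) (c := c) (by
      intro a ha
      obtain ⟨a', -, rfl⟩ := List.mem_map.mp ha
      change (wr (inv (A a')) : List (σ ⊕ ι × Bool)).length ≤ c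
      rw [D1_len_wr, length_inv]
      exact hc a') (by
      rw [D1_space]
      change (x.map Sum.inl : List (σ ⊕ ι × Bool)).length + 0 + w.length +
        c * (x.map Sum.inl : List (σ ⊕ ι × Bool)).length ≤ b
      rw [List.length_map]
      omega)
  rw [D1_res1, D1_neg, List.append_nil] at h1
  change RunLe b ((c + 2) * (x.map Sum.inl : List (σ ⊕ ι × Bool)).length + 1) _ _ _ at h1
  rwa [List.length_map] at h1

private theorem D1_run2 [Finite σ] (A : σ → Wd ι) {c b : ℕ} (hc : ∀ a, (A a).length ≤ c) (x : List σ)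
    (w : List (σ ⊕ ι × Bool)) (hb : x.length + w.length + c * x.length ≤ b) :
    RunLe b ((c + 2) * x.length + 1) (pass ((allL σ).map Sum.inl) 1 0 3 (posA A))
      (D1_st [] (x.map Sum.inl).reverse w)
      (D1_st (x.map Sum.inl) [] (wr (x.flatMap A) ++ w)) := by
  have h1 := RunLe.pass (s := D1_st [] (x.map Sum.inl).reverse w) (i := 1) (j := 0) (o := 3)
    (A := (allL σ).map (Sum.inl : σ → σ ⊕ ι × Bool)) (f := posA A) (by decide) (by decide) (by decide)
    (fun a ha => D1_mem x a (List.mem_reverse.mp ha)) (b := b) (c := c) (by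
      intro a ha
      obtain ⟨a', -, rfl⟩ := List.mem_map.mp ha
      change (wr (A a') : List (σ ⊕ ι × Bool)).length ≤ c
      rw [D1_len_wr]
      exact hc a') (by
      rw [D1_space]
      change 0 + (x.map Sum.inl : List (σ ⊕ ι × Bool)).reverse.length + w.length +
        c * (x.map Sum.inl : List (σ ⊕ ι × Bool)).reverse.length ≤ b
      rw [List.length_reverse, List.length_map]
      omega)
  rw [D1_res2, List.reverse_reverse, D1_pos, List.append_nil] at h1
  change RunLe b ((c + 2) * (x.map Sum.inl : List (σ ⊕ ι × Bool)).reverse.length + 1) _ _ _ at h1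
  rwa [List.length_reverse, List.length_map] at h1

private theorem D1_run3 {b c : ℕ} (W : Wd ι) (hW : W.length ≤ c) (u u' v : List (σ ⊕ ι × Bool))
    (hb : u.length + u'.length + v.length + c ≤ b) :
    RunLe b c (pushW 3 (wr W)) (D1_st u u' v) (D1_st u u' (wr W ++ v)) := by
  have h1 := RunLe.pushW (s := D1_st u u' v) (i := 3) (w := wr W) (b := b) (by
    rw [D1_space, D1_len_wr]
    omega)
  rw [D1_update, D1_len_wr] at h1
  exact h1.mono le_rfl hW

end D1

variable {σ ι : Type} [Finite σ] (A : σ → Wd ι) (U T : Wd ι)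

theorem sem_bld {x : List σ} {s : Store 4 (σ ⊕ ι × Bool)} (h : Sem (bld A U T) (ini x) s) :
    s = fini A U T x := by
  rw [D1_ini] at h
  simp only [bld, seqs, sem_seq, sem_one] at h
  obtain ⟨s1, h1, s2, h2, s3, h3, s4, h4, s5, h5, s6, h6, s7, h7, s8, h8, h9⟩ := h
  have e1 := D1_sem1 A x _ h1
  subst e1
  have e2 := D1_sem3 _ _ _ _ h2
  subst e2
  have e3 := D1_sem2 A x _ h3
  subst e3
  have e4 := D1_sem3 _ _ _ _ h4
  subst e4
  have e5 := D1_sem1 A x _ h5
  subst e5
  have e6 := D1_sem3 _ _ _ _ h6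
  subst e6
  have e7 := D1_sem2 A x _ h7
  subst e7
  have e8 := D1_sem3 _ _ _ _ h8
  rw [h9, e8, D1_fini, List.append_nil]

theorem run_bld : ∃ c : ℕ, ∀ x : List σ,
    RunLe (c * (x.length + 1)) (c * (x.length + 1)) (bld A U T) (ini x) (fini A U T x) := by
  obtain ⟨c1, hc1⟩ : ∃ c1 : ℕ, ∀ a, (A a).length ≤ c1 := by
    obtain ⟨c1, hc1⟩ := (Set.finite_range fun a => (A a).length).bddAbove
    exact ⟨c1, fun a => hc1 ⟨a, rfl⟩⟩
  obtain ⟨c, hc, hU, hT⟩ : ∃ c : ℕ, (∀ a, (A a).length ≤ c) ∧ U.length ≤ c ∧ T.length ≤ c :=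
    ⟨c1 + U.length + T.length, fun a => by have := hc1 a; omega, by omega, by omega⟩
  have hU' : (inv U).length ≤ c := by rwa [length_inv]
  have hT' : (inv T).length ≤ c := by rwa [length_inv]
  refine ⟨4 * c + 8, fun x => ?_⟩
  have hX := D1_len_X A hc x
  have hX' : (inv (x.flatMap A)).length ≤ c * x.length := by rwa [length_inv]
  have hm : (4 * c + 8) * (x.length + 1) = 4 * (c * x.length) + 8 * x.length + 4 * c + 8 := by ring
  have hm2 : (c + 2) * x.length = c * x.length + 2 * x.length := by ring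
  rw [D1_ini, D1_fini]
  set b := (4 * c + 8) * (x.length + 1) with hb
  set X := x.flatMap A with hXd
  have r1 := D1_run1 A hc x [] (b := b) (by rw [List.length_nil]; omega)
  have r2 := D1_run3 (b := b) (inv T) hT' [] (x.map Sum.inl).reverse (wr (inv X) ++ [] : List (σ ⊕ ι × Bool)) (by
    simp only [List.length_append, D1_len_wr, List.length_reverse, List.length_map, List.length_nil]
    omega)
  have r3 := D1_run2 A hc x (wr (inv T) ++ (wr (inv X) ++ [])) (b := b) (by
    simp only [List.length_append, D1_len_wr, List.length_nil]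
    omega)
  have r4 := D1_run3 (b := b) (inv U) hU' (x.map Sum.inl) []
    (wr X ++ (wr (inv T) ++ (wr (inv X) ++ [])) : List (σ ⊕ ι × Bool)) (by
    simp only [List.length_append, D1_len_wr, List.length_map, List.length_nil]
    omega)
  have r5 := D1_run1 A hc x (wr (inv U) ++ (wr X ++ (wr (inv T) ++ (wr (inv X) ++ [])))) (b := b) (by
    simp only [List.length_append, D1_len_wr, List.length_nil]
    omega)
  have r6 := D1_run3 (b := b) T hT [] (x.map Sum.inl).reverse
    (wr (inv X) ++ (wr (inv U) ++ (wr X ++ (wr (inv T) ++ (wr (inv X) ++ [])))) : List (σ ⊕ ι × Bool)) (by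
    simp only [List.length_append, D1_len_wr, List.length_reverse, List.length_map, List.length_nil]
    omega)
  have r7 := D1_run2 A hc x (wr T ++ (wr (inv X) ++ (wr (inv U) ++ (wr X ++ (wr (inv T) ++ (wr (inv X) ++ []))))))
    (b := b) (by
    simp only [List.length_append, D1_len_wr, List.length_nil]
    omega)
  have r8 := D1_run3 (b := b) U hU (x.map Sum.inl) []
    (wr X ++ (wr T ++ (wr (inv X) ++ (wr (inv U) ++ (wr X ++ (wr (inv T) ++ (wr (inv X) ++ [])))))) :
      List (σ ⊕ ι × Bool)) (by
    simp only [List.length_append, D1_len_wr, List.length_map, List.length_nil]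
    omega)
  have r9 := RunLe.one (b := b) (s := D1_st (x.map Sum.inl) []
    (wr U ++ (wr X ++ (wr T ++ (wr (inv X) ++ (wr (inv U) ++ (wr X ++ (wr (inv T) ++ (wr (inv X) ++ []))))))) :
      List (σ ⊕ ι × Bool))) (by
    rw [D1_space]
    simp only [List.length_append, D1_len_wr, List.length_map, List.length_nil]
    omega)
  have r := r1.seq (r2.seq (r3.seq (r4.seq (r5.seq (r6.seq (r7.seq (r8.seq r9)))))))
  rw [List.append_nil] at r
  exact r.mono le_rfl (by omega)

end Pool.Agent.Lib.MP_0f3a7d_alT
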