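import Mathlib
import Pool.Agent.Lib.MP_0f3a7d_alT.Defs4
import Pool.Agent.Lib.MP_0f3a7d_alT.C4

/-!
# MP_0f3a7d_al, leaf D2: the rewriting loop, soundness

`sem_star` and induction on `ReflTransGen`: one round keeps the property `∃ w, tape 2 3 s = wr w ∧ val g w = v`: `sem_mv` keeps
the tape; `sem_alts`, `sem_rule`: `s 3 = q.1 ++ z` becomes `q.2 ++ z` with `q ∈ rls R`, and `q.1 = wr a`, `q.2 = wr b` with
`val g a = val g b` (`wr` is injective and compatible with `++`; a prefix or suffix of `wr w` is `wr` of a word). In the end the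
tape is empty, so `val g w = val g [] = 1`.
-/

set_option autoImplicit false

namespace Pool.Agent.Lib.MP_0f3a7d_alT

private theorem D2_pair {ι H : Type} [Group H] (g : ι → H) (y : ι × Bool) :
    val g [(y.1, y.2), (y.1, !y.2)] = 1 := by
  rw [val_cons, val_cons, val_nil, mul_one]
  cases y.2
  · exact inv_mul_cancel _
  · exact mul_inv_cancel _

private theorem D2_rls {σ ι H : Type} [Finite ι] [Group H] (g : ι → H) (R : List (Wd ι))
    (hR : ∀ r ∈ R, val g r = 1) {q : List (σ ⊕ ι × Bool) × List (σ ⊕ ι × Bool)} (hq : q ∈ rls R) :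
    ∃ a b : Wd ι, q.1 = wr a ∧ q.2 = wr b ∧ val g a = val g b := by
  unfold rls at hq
  rw [List.mem_append, List.mem_append] at hq
  rcases hq with hq | hq | hq
  · obtain ⟨y, -, rfl⟩ := List.mem_map.1 hq
    exact ⟨[(y.1, y.2), (y.1, !y.2)], [], rfl, rfl, D2_pair g y⟩
  · obtain ⟨y, -, rfl⟩ := List.mem_map.1 hq
    exact ⟨[], [(y.1, y.2), (y.1, !y.2)], rfl, rfl, (D2_pair g y).symm⟩
  · obtain ⟨r, hr, rfl⟩ := List.mem_map.1 hq
    exact ⟨r, [], rfl, rfl, hR r hr⟩

private theorem D2_split {σ ι : Type} {u z : List (σ ⊕ ι × Bool)} {a w : Wd ι}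
    (h : u ++ (wr a ++ z) = wr w) : ∃ w₁ w₃ : Wd ι, u = wr w₁ ∧ z = wr w₃ ∧ w = w₁ ++ (a ++ w₃) := by
  unfold wr at h
  obtain ⟨w₁, w₂, hw, h1, h2⟩ := List.map_eq_append_iff.1 h.symm
  obtain ⟨a', w₃, hw₂, h3, h4⟩ := List.map_eq_append_iff.1 h2
  have h5 : a' = a := List.map_injective_iff.2 Sum.inr_injective h3
  exact ⟨w₁, w₃, h1.symm, h4.symm, by rw [hw, hw₂, h5]⟩

theorem sem_lp {σ ι H : Type} [Finite ι] [Group H] (g : ι → H) (R : List (Wd ι))
    (hR : ∀ r ∈ R, val g r = 1) {s s' : Store 4 (σ ⊕ ι × Bool)} {w : Wd ι} (hw : tape 2 3 s = wr w)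
    (h : Sem (lp R) s s') : val g w = 1 := by
  unfold lp at h
  obtain ⟨s₁, h1, h2⟩ := sem_seq.1 h
  obtain ⟨s₂, h3, h4⟩ := sem_seq.1 h2
  obtain ⟨h5, h6⟩ := sem_empty.1 h3
  obtain ⟨h7, -⟩ := sem_empty.1 h4
  have h8 := sem_star.1 h1
  have hinv : ∀ t : Store 4 (σ ⊕ ι × Bool), Relation.ReflTransGen
      (Sem (.seq (mv ((allL (ι × Bool)).map Sum.inr) 2 3) (alts ((rls R).map (rule 3))))) s t →
      ∃ v : Wd ι, tape 2 3 t = wr v ∧ val g v = val g w := by
    intro t ht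
    induction ht with
    | refl => exact ⟨w, hw, rfl⟩
    | tail _ hstep ih =>
      rename_i t₁ t₂
      obtain ⟨v, hv, hval⟩ := ih
      obtain ⟨t₃, h9, h10⟩ := sem_seq.1 hstep
      obtain ⟨h11, -⟩ := sem_mv (by decide) h9
      obtain ⟨p, hp, h12⟩ := sem_alts.1 h10
      obtain ⟨q, hq, rfl⟩ := List.mem_map.1 hp
      obtain ⟨z, h13, h14⟩ := sem_rule.1 h12
      obtain ⟨a, b, ha, hb, hab⟩ := D2_rls g R hR hq
      rw [hv] at h11
      unfold tape at h11
      rw [h13, ha] at h11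
      obtain ⟨w₁, w₃, h15, h16, h17⟩ := D2_split h11
      refine ⟨w₁ ++ (b ++ w₃), ?_, ?_⟩
      · unfold tape
        rw [h14, Function.update_of_ne (by decide), Function.update_self, h15, hb, h16]
        unfold wr
        rw [List.map_append, List.map_append]
      · rw [← hval, h17, val_append, val_append, val_append, val_append, hab]
  obtain ⟨v, hv, hval⟩ := hinv s₁ h8
  have h9 : tape 2 3 s₁ = [] := by
    unfold tape
    rw [h6] at h7
    rw [h5, h7]
    rfl
  rw [h9] at hv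
  have h10 : v = [] := by
    unfold wr at hv
    exact List.map_eq_nil_iff.1 hv.symm
  rw [← hval, h10, val_nil]

end Pool.Agent.Lib.MP_0f3a7d_alT
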