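import Mathlib
import Pool.Agent.Lib.MP_0f3a7d_alT.Defs4
import Pool.Agent.Lib.MP_0f3a7d_alT.C4

/-!
# MP_0f3a7d_al, leaf D3: the rewriting loop, derivations are executed

Induction on the derivation, for all stores with `tape 2 3 s = wr w`. A step at the place `u ++ _`: `RunLe.mv` brings the head
to this place (time `≤ 2 b`), `RunLe.rule` with the rule of `rls R` (time `≤ b + 2`, the space grows by at most `2`); the new
store has tape `wr w'` and the same stacks `0` and `1`. Total time of a round `≤ 3 b + 4`; at the end both stacks of the tape are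
empty (`tape = []`) and the two tests take time `2`. The space of such stores is `|s 0| + |s 1| + |w|` (`Fin.sum_univ_four`).
-/

set_option autoImplicit false

namespace Pool.Agent.Lib.MP_0f3a7d_alT

private theorem D3_space {σ ι : Type} (s : Store 4 (σ ⊕ ι × Bool)) (w : Wd ι) (hs : tape 2 3 s = wr w) :
    space s = (s 0).length + (s 1).length + w.length := by
  have h1 := congrArg List.length hs
  unfold tape wr at h1
  rw [List.length_append, List.length_reverse, List.length_map] at h1
  unfold space
  rw [Fin.sum_univ_four]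
  omega

private theorem D3_step {σ ι : Type} [Finite ι] (R : List (Wd ι)) {w w' : Wd ι}
    (h : Step {r | r ∈ R} w w') : ∃ u q₁ q₂ v : Wd ι, w = u ++ (q₁ ++ v) ∧ w' = u ++ (q₂ ++ v) ∧ q₂.length ≤ 2 ∧
      ((wr q₁, wr q₂) : List (σ ⊕ ι × Bool) × List (σ ⊕ ι × Bool)) ∈ rls R := by
  cases h with
  | ins u v i e =>
    refine ⟨u, [], [(i, e), (i, !e)], v, rfl, rfl, le_refl _, ?_⟩
    unfold rls
    refine List.mem_append_right _ (List.mem_append_left _ (List.mem_map.2 ⟨(i, e), mem_allL _, rfl⟩))
  | del u v i e =>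
    refine ⟨u, [(i, e), (i, !e)], [], v, rfl, rfl, Nat.zero_le _, ?_⟩
    unfold rls
    exact List.mem_append_left _ (List.mem_map.2 ⟨(i, e), mem_allL _, rfl⟩)
  | rel u r v hr =>
    refine ⟨u, r, [], v, List.append_assoc _ _ _, rfl, Nat.zero_le _, ?_⟩
    unfold rls
    exact List.mem_append_right _ (List.mem_append_right _ (List.mem_map.2 ⟨r, hr, rfl⟩))

private theorem D3_star {σ ι : Type} [Finite ι] (R : List (Wd ι)) {b n : ℕ} {w w' : Wd ι}
    (hd : Der {r | r ∈ R} b n w w') : ∀ s : Store 4 (σ ⊕ ι × Bool), tape 2 3 s = wr w →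
    ∃ s', RunLe ((s 0).length + (s 1).length + b + 2) (n * (3 * b + 4))
      (.star (.seq (mv ((allL (ι × Bool)).map Sum.inr) 2 3) (alts ((rls R).map (rule 3))))) s s' ∧
      tape 2 3 s' = wr w' ∧ s' 0 = s 0 ∧ s' 1 = s 1 ∧ w'.length ≤ b := by
  induction hd with
  | nil w h =>
    intro s hs
    refine ⟨s, ?_, hs, rfl, rfl, h⟩
    rw [Nat.zero_mul]
    refine RunLe.starNil ?_
    rw [D3_space s w hs]
    omega
  | cons n w w₁ w₂ h h1 h2 ih =>
    intro s hs
    obtain ⟨u, q₁, q₂, v, hw, hw₁, hq, hr⟩ := D3_step (σ := σ) R h1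
    have hA : ∀ a ∈ tape 2 3 s, a ∈ (allL (ι × Bool)).map (Sum.inr : ι × Bool → σ ⊕ ι × Bool) := by
      intro a ha
      rw [hs] at ha
      obtain ⟨y, -, rfl⟩ := List.mem_map.1 ha
      exact List.mem_map.2 ⟨y, mem_allL _, rfl⟩
    have htape : tape 2 3 s = wr u ++ wr (q₁ ++ v) := by
      rw [hs, hw]
      unfold wr
      rw [List.map_append]
    have hsp := D3_space s w hs
    have h23 : (2 : Fin 4) ≠ 3 := by decide
    have hmv := RunLe.mv (b := (s 0).length + (s 1).length + b + 2) h23 hA htape (by omega)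
    generalize hs₁ : Function.update (Function.update s 2 (wr u).reverse) 3 (wr (q₁ ++ v)) = s₁ at hmv
    have e3 : s₁ 3 = wr q₁ ++ wr v := by
      rw [← hs₁, Function.update_self]
      unfold wr
      rw [List.map_append]
    have e2 : s₁ 2 = (wr u).reverse := by
      rw [← hs₁, Function.update_of_ne h23, Function.update_self]
    have e0 : s₁ 0 = s 0 := by
      rw [← hs₁, Function.update_of_ne (by decide), Function.update_of_ne (by decide)]
    have e1 : s₁ 1 = s 1 := by
      rw [← hs₁, Function.update_of_ne (by decide), Function.update_of_ne (by decide)]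
    have ht₁ : tape 2 3 s₁ = wr w := by
      unfold tape
      rw [e2, e3, List.reverse_reverse, hw]
      unfold wr
      rw [List.map_append, List.map_append]
    have hsp₁ := D3_space s₁ w ht₁
    rw [e0, e1] at hsp₁
    have hlq : (wr q₂ : List (σ ⊕ ι × Bool)).length = q₂.length := by
      unfold wr
      exact List.length_map _
    have hlq1 : (wr q₁ : List (σ ⊕ ι × Bool)).length = q₁.length := by
      unfold wr
      exact List.length_map _
    have hru := RunLe.rule (b := (s 0).length + (s 1).length + b + 2)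
      (q := ((wr q₁, wr q₂) : List (σ ⊕ ι × Bool) × List (σ ⊕ ι × Bool))) e3 (by
        show space s₁ + (wr q₂ : List (σ ⊕ ι × Bool)).length ≤ _
        omega)
    have hal := RunLe.alts (l := (rls R).map (rule 3)) (List.mem_map.2 ⟨_, hr, rfl⟩) hru
    generalize hs₂ : Function.update s₁ 3 ((wr q₁, wr q₂).2 ++ wr v) = s₂ at hal
    have f3 : s₂ 3 = wr q₂ ++ wr v := by
      rw [← hs₂, Function.update_self]
    have f2 : s₂ 2 = (wr u).reverse := by
      rw [← hs₂, Function.update_of_ne h23, e2]
    have f0 : s₂ 0 = s 0 := by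
      rw [← hs₂, Function.update_of_ne (by decide), e0]
    have f1 : s₂ 1 = s 1 := by
      rw [← hs₂, Function.update_of_ne (by decide), e1]
    have ht₂ : tape 2 3 s₂ = wr w₁ := by
      unfold tape
      rw [f2, f3, List.reverse_reverse, hw₁]
      unfold wr
      rw [List.map_append, List.map_append]
    obtain ⟨s', hrun, ht', g0, g1, hl⟩ := ih s₂ ht₂
    rw [f0, f1] at hrun
    refine ⟨s', ?_, ht', g0.trans f0, g1.trans f1, hl⟩
    have hround := RunLe.seq hmv hal
    have htot := RunLe.starCons hround hrun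
    refine RunLe.mono (le_refl _) ?_ htot
    have hlt : (tape 2 3 s).length = w.length := by
      rw [hs]
      unfold wr
      exact List.length_map _
    have hlw : w.length = u.length + (q₁.length + v.length) := by
      rw [hw, List.length_append, List.length_append]
    show 2 * (tape 2 3 s).length + ((wr q₁ : List (σ ⊕ ι × Bool)).length + (wr q₂ : List (σ ⊕ ι × Bool)).length) +
      n * (3 * b + 4) ≤ (n + 1) * (3 * b + 4)
    rw [hlt, hlq, hlq1, Nat.add_mul, Nat.one_mul]
    omega

theorem run_lp {σ ι : Type} [Finite ι] (R : List (Wd ι)) {b n : ℕ} {w w' : Wd ι}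
    (hd : Der {r | r ∈ R} b n w w') (hw' : w' = []) (s : Store 4 (σ ⊕ ι × Bool))
    (hs : tape 2 3 s = wr w) :
    ∃ s', RunLe ((s 0).length + (s 1).length + b + 2) (n * (3 * b + 4) + 2) (lp R) s s' := by
  obtain ⟨s', hrun, ht, h0, h1, -⟩ := D3_star (σ := σ) R hd s hs
  refine ⟨s', ?_⟩
  have hsp := D3_space s' w' ht
  rw [hw'] at ht
  have ht' : (s' 2).reverse ++ s' 3 = [] := ht
  rw [List.append_eq_nil_iff, List.reverse_eq_nil_iff] at ht'
  have hb : space s' ≤ (s 0).length + (s 1).length + b + 2 := by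
    rw [hsp, h0, h1, hw', List.length_nil]
    omega
  unfold lp
  exact RunLe.seq hrun (RunLe.seq (RunLe.empty ht'.1 hb) (RunLe.empty ht'.2 hb))

end Pool.Agent.Lib.MP_0f3a7d_alT
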