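import Mathlib
import Pool.Agent.Lib.MP_0f3a7d_alT.D1
import Pool.Agent.Lib.MP_0f3a7d_alT.D2
import Pool.Agent.Lib.MP_0f3a7d_alT.D3

/-!
# MP_0f3a7d_al, leaf D4: the linear space machine

The machine: `k = 3`, alphabet `σ ⊕ ι × Bool`, `inp = Sum.inl`, program `.seq (bld A U T) (lp R)` with `R` a list of the elements
of the finite set. Soundness: `sem_seq`, `sem_bld`, `sem_lp` (`tape 2 3 (fini …) = wr (comm …)`). Completeness: `run_bld`, and
`run_lp` for the derivation of `w = comm A U T x`, `|w| ≤ c' (|x| + 1)`: the number of steps is at most `c (|w| + 1) ^ c` and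
the length at most `c (|w| + 1)`; all bounds are polynomial resp. linear in `|x| + 1` (one constant for everything;
`(x (n+1)^y ≤ z (n+1)^z` for `z ≥ x, y`; `(c' (n + 1) + 1) ^ c ≤ (c' + 1) ^ c (n + 1) ^ c`).
-/

set_option autoImplicit false

namespace Pool.Agent.Lib.MP_0f3a7d_alT

private theorem D4_tape {σ ι : Type} (A : σ → Wd ι) (U T : Wd ι) (x : List σ) :
    tape 2 3 (fini A U T x) = wr (comm A U T x) := by
  have h2 : fini A U T x 2 = [] := rfl
  have h3 : fini A U T x 3 = wr (comm A U T x) := rfl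
  unfold tape
  rw [h2, h3]
  rfl

private theorem D4_len {σ ι : Type} (A : σ → Wd ι) (U T : Wd ι) (x : List σ) :
    (comm A U T x).length ≤ space (fini A U T x) := by
  have h3 : (fini A U T x 3).length = (comm A U T x).length := by
    have : fini A U T x 3 = wr (comm A U T x) := rfl
    rw [this]
    unfold wr
    rw [List.length_map]
  rw [← h3]
  exact Finset.single_le_sum (f := fun i => (fini A U T x i).length) (fun _ _ => Nat.zero_le _)
    (Finset.mem_univ 3)

theorem linspace_machine {σ ι H : Type} [Finite σ] [Finite ι] [Group H] (g : ι → H) (A : σ → Wd ι)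
    (U T : Wd ι) (R : Set (Wd ι)) (hR : R.Finite) (hRv : ∀ r ∈ R, val g r = 1) (c : ℕ)
    (hc : ∀ w : Wd ι, val g w = 1 → ∃ n ≤ c * (w.length + 1) ^ c, Der R (c * (w.length + 1)) n w []) :
    InPolyTimeLinSpace {x : List σ | val g (comm A U T x) = 1} := by
  obtain ⟨R', hR'⟩ : ∃ R' : List (Wd ι), {r | r ∈ R'} = R :=
    ⟨hR.toFinset.toList, by
      ext r
      show r ∈ hR.toFinset.toList ↔ r ∈ R
      rw [Finset.mem_toList, Set.Finite.mem_toFinset]⟩
  have hRv' : ∀ r ∈ R', val g r = 1 := fun r hr => hRv r (by rw [← hR']; exact hr)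
  obtain ⟨c1, h1⟩ := run_bld (ι := ι) A U T
  let M : Machine σ :=
    { k := 3
      Γ := σ ⊕ ι × Bool
      fin := inferInstance
      inp := Sum.inl
      prog := .seq (bld A U T) (lp R') }
  have hM : ∀ x, M.init x = ini x := fun x => rfl
  obtain ⟨K, hK⟩ : ∃ K, K = c1 + 1 + c * (c1 + 1) + 2 := ⟨_, rfl⟩
  obtain ⟨K', hK'⟩ : ∃ K', K' = c1 + c * (c1 + 1) ^ c * (3 * (c * (c1 + 1)) + 4) + 2 := ⟨_, rfl⟩
  refine ⟨M, K + K' + (c + 1), fun x hx => ?_, ?_⟩
  · obtain ⟨n, hn, hd⟩ := hc _ hx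
    rw [← hR'] at hd
    obtain ⟨s', hs'⟩ := run_lp (σ := σ) R' hd rfl (fini A U T x) (D4_tape A U T x)
    have hlen : (comm A U T x).length ≤ c1 * (x.length + 1) := by
      obtain ⟨t, -, ht⟩ := h1 x
      exact (D4_len A U T x).trans (run_space ht).2
    have h0 : (fini A U T x 0).length = x.length := by
      have : fini A U T x 0 = x.map Sum.inl := rfl
      rw [this, List.length_map]
    have h01 : (fini A U T x 1).length = 0 := rfl
    rw [h0, h01] at hs'
    obtain ⟨N, hN⟩ : ∃ N, N = x.length + 1 := ⟨_, rfl⟩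
    have hN1 : 1 ≤ N := by omega
    obtain ⟨m, hm⟩ : ∃ m, m = (comm A U T x).length := ⟨_, rfl⟩
    rw [← hm] at hlen hn hs'
    rw [← hN] at hlen ⊢
    have hm1 : m + 1 ≤ (c1 + 1) * N := by
      have : (c1 + 1) * N = c1 * N + N := by ring
      omega
    have hcm : c * (m + 1) ≤ c * (c1 + 1) * N := by
      calc c * (m + 1) ≤ c * ((c1 + 1) * N) := Nat.mul_le_mul_left _ hm1
        _ = c * (c1 + 1) * N := by ring
    have hKN : K * N = c1 * N + N + c * (c1 + 1) * N + 2 * N := by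
      rw [hK]
      ring
    -- space
    have hb1 : c1 * N ≤ K * N := by
      rw [hKN]
      omega
    have hb2 : x.length + 0 + c * (m + 1) + 2 ≤ K * N := by
      rw [hKN]
      omega
    -- time
    have hNc : N ≤ N ^ (c + 1) := Nat.le_self_pow (by omega) N
    have hn2 : n * (3 * (c * (m + 1)) + 4) ≤
        c * (c1 + 1) ^ c * (3 * (c * (c1 + 1)) + 4) * N ^ (c + 1) := by
      have e1 : n ≤ c * (c1 + 1) ^ c * N ^ c := by
        calc n ≤ c * (m + 1) ^ c := hn
          _ ≤ c * ((c1 + 1) * N) ^ c := Nat.mul_le_mul_left _ (Nat.pow_le_pow_left hm1 c)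
          _ = c * (c1 + 1) ^ c * N ^ c := by rw [mul_pow]; ring
      have e2 : 3 * (c * (m + 1)) + 4 ≤ (3 * (c * (c1 + 1)) + 4) * N := by
        have : (3 * (c * (c1 + 1)) + 4) * N = 3 * (c * (c1 + 1) * N) + 4 * N := by ring
        omega
      calc n * (3 * (c * (m + 1)) + 4)
          ≤ c * (c1 + 1) ^ c * N ^ c * ((3 * (c * (c1 + 1)) + 4) * N) := Nat.mul_le_mul e1 e2
        _ = c * (c1 + 1) ^ c * (3 * (c * (c1 + 1)) + 4) * N ^ (c + 1) := by rw [pow_succ]; ring
    have hT : c1 * N + (n * (3 * (c * (m + 1)) + 4) + 2) ≤ K' * N ^ (c + 1) := by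
      have e3 : K' * N ^ (c + 1) = c1 * N ^ (c + 1) +
          c * (c1 + 1) ^ c * (3 * (c * (c1 + 1)) + 4) * N ^ (c + 1) + 2 * N ^ (c + 1) := by
        rw [hK']
        ring
      have e4 : c1 * N ≤ c1 * N ^ (c + 1) := Nat.mul_le_mul_left _ hNc
      have e5 : 2 ≤ 2 * N ^ (c + 1) := by omega
      omega
    have hrun : RunLe (K * N) (K' * N ^ (c + 1)) (.seq (bld A U T) (lp R')) (ini x) s' := by
      have r1 := (h1 x).mono (b' := K * N) (T' := c1 * N) (by rw [← hN]; exact hb1)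
        (by rw [← hN])
      have r2 := hs'.mono hb2 le_rfl
      exact (r1.seq r2).mono le_rfl hT
    obtain ⟨t, ht, hr⟩ := hrun
    refine ⟨t, K * N, ?_, ?_, s', hr⟩
    · calc t ≤ K' * N ^ (c + 1) := ht
        _ ≤ (K + K' + (c + 1)) * N ^ (K + K' + (c + 1)) :=
          Nat.mul_le_mul (by omega) (Nat.pow_le_pow_right hN1 (by omega))
    · exact Nat.mul_le_mul_right _ (by omega)
  · rintro x t b ⟨s, hs⟩
    have h2 : Sem (.seq (bld A U T) (lp R')) (ini x) s := ⟨b, t, hs⟩
    obtain ⟨s', h3, h4⟩ := sem_seq.1 h2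
    rw [sem_bld A U T h3] at h4
    exact sem_lp g R' hRv' (D4_tape A U T x) h4

end Pool.Agent.Lib.MP_0f3a7d_alT
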