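import Mathlib
import Pool.Agent.Lib.MP_0f3a7d_alT.Defs4

/-!
# MP_0f3a7d_al: the machine for the word problem of `HL L`

Stacks: `st 0` the right part of the tape (and the input), `st 1` the left part, `st 2`, `st 3` for the word `x`, `eL i` the stacks
of the machine `M` for `L`. Letters: `Sum.inl y` (letters of words over the generators), `Sum.inr (Sum.inl a)` (letters of `x`),
`Sum.inr (Sum.inr c)` (letters of `M`).
-/

set_option autoImplicit false

namespace Pool.Agent.Lib.MP_0f3a7d_alT

section NP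

variable {σ : Type}

/-- The alphabet. -/
abbrev Al (σ Γ : Type) : Type := (Option (Option σ) × Bool) ⊕ (σ ⊕ Γ)

/-- The first four stacks. -/
def st {k : ℕ} (j : Fin 4) : Fin (4 + k + 1) := ⟨j.1, by omega⟩

/-- The stacks of the machine `M`. -/
def eL {k : ℕ} (i : Fin (k + 1)) : Fin (4 + k + 1) := ⟨4 + i.1, by omega⟩

/-- The letters of words over the generators. -/
noncomputable def AW (σ Γ : Type) [Finite σ] : List (Al σ Γ) := (allL (Option (Option σ) × Bool)).map Sum.inl

/-- The letters of `x`. -/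
noncomputable def AS (σ Γ : Type) [Finite σ] : List (Al σ Γ) := (allL σ).map fun a => Sum.inr (Sum.inl a)

/-- The letters of `M`. -/
noncomputable def AM (σ Γ : Type) [Finite Γ] : List (Al σ Γ) := (allL Γ).map fun a => Sum.inr (Sum.inr a)

/-- `a ↦ inp a`. -/
def toM {Γ : Type} (inp : σ → Γ) : Al σ Γ → List (Al σ Γ) :=
  Sum.elim (fun _ => []) (Sum.elim (fun a => [Sum.inr (Sum.inr (inp a))]) fun _ => [])

/-- `a ↦ a^e`. -/
def toW {Γ : Type} (e : Bool) : Al σ Γ → List (Al σ Γ) :=
  Sum.elim (fun _ => []) (Sum.elim (fun a => [Sum.inl (some (some a), e)]) fun _ => [])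

/-- Replace `u^e'` on top of the right part of the tape by `(x t^e x⁻¹) u^e' (x t^e x⁻¹)⁻¹`, `x` (or rather its letters) on stack
`st 3`. -/
noncomputable def cjw (σ Γ : Type) [Finite σ] (k : ℕ) (e e' : Bool) : Prog (4 + k + 1) (Al σ Γ) :=
  seqs [popW (st 0) [Sum.inl (none, e')], pass (AS σ Γ) (st 3) (st 2) (st 0) (toW false),
    pushW (st 0) [Sum.inl (some none, !e)], pass (AS σ Γ) (st 2) (st 3) (st 0) (toW true),
    pushW (st 0) [Sum.inl (none, e')], pass (AS σ Γ) (st 3) (st 2) (st 0) (toW false),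
    pushW (st 0) [Sum.inl (some none, e)], pass (AS σ Γ) (st 2) (st 3) (st 0) (toW true)]

/-- Guess `x`, run `M` on `x`, empty the stacks of `M`, conjugate, forget `x`. -/
noncomputable def cj [Finite σ] (M : Machine σ) : Prog (4 + M.k + 1) (Al σ M.Γ) :=
  haveI := M.fin
  seqs [guess (AS σ M.Γ) (st 2), pass (AS σ M.Γ) (st 2) (st 3) (eL 0) (toM M.inp),
    embP eL (fun a => Sum.inr (Sum.inr a)) M.prog,
    seqs ((List.finRange (M.k + 1)).map fun i => clear (AM σ M.Γ) (eL i)),
    alts [cjw σ M.Γ M.k true true, cjw σ M.Γ M.k true false, cjw σ M.Γ M.k false true,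
      cjw σ M.Γ M.k false false],
    clear (AS σ M.Γ) (st 3)]

/-- The program of the machine for the word problem. -/
noncomputable def wpP [Finite σ] (M : Machine σ) : Prog (4 + M.k + 1) (Al σ M.Γ) :=
  .seq (.star (.seq (mv (AW σ M.Γ) (st 1) (st 0))
      (alts (cj M :: (allL (Option (Option σ) × Bool)).map fun y =>
        rule (st 0) ([Sum.inl (y.1, y.2), Sum.inl (y.1, !y.2)], [])))))
    (.seq (.empty (st 0)) (.empty (st 1)))

/-- The stacks for `x` and the stacks of `M` are empty. -/
def Clean {k : ℕ} {Γ : Type} (s : Store (4 + k + 1) (Al σ Γ)) : Prop :=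
  s (st 2) = [] ∧ s (st 3) = [] ∧ ∀ i : Fin (k + 1), s (eL i) = []

end NP

end Pool.Agent.Lib.MP_0f3a7d_alT
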