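import Mathlib
import Pool.Agent.Lib.MP_0f3a7d_alT.Defs2

/-!
# MP_0f3a7d_al, leaf E1: generators of `HL L`, values of words without the stable letter

`gen_top`: `HNNExtension.induction_on` (elements `of g`, `t`, products, inverses); the image of the free group is generated by the
`of (FreeGroup.of i)` (`FreeGroup.closure_range_of`, `MonoidHom.map_closure`, or `FreeGroup.induction_on`).
`val_some`: induction on the word. `val_xw`: from it. `comm_iff` (for `x t x⁻¹ ∈ K`): `HNNExtension.t_mul_of` (or
`equiv_eq_conj`): `t * of a = of (φ a) * t` for `a` in the subgroup, `φ` is the identity.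
-/

set_option autoImplicit false

namespace Pool.Agent.Lib.MP_0f3a7d_alT

variable {σ : Type} (L : Set (List σ))

theorem gen_top : Subgroup.closure (Set.range (gen L)) = ⊤ := by
  rw [eq_top_iff]
  intro x _
  refine HNNExtension.induction_on x ?_ ?_ ?_ ?_
  · intro g
    induction g using FreeGroup.induction_on with
    | C1 =>
      rw [map_one]
      exact one_mem _
    | of i => exact Subgroup.subset_closure ⟨some i, rfl⟩
    | inv_of i ih =>
      rw [map_inv]
      exact inv_mem ih
    | mul x y hx hy =>
      rw [map_mul]
      exact mul_mem hx hy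
  · exact Subgroup.subset_closure ⟨none, rfl⟩
  · intro x y hx hy
    exact mul_mem hx hy
  · intro x hx
    exact inv_mem hx

/-- A word without the stable letter. -/
theorem val_some (v : Wd (Option σ)) :
    val (gen L) (v.map fun y => (some y.1, y.2)) = HNNExtension.of (FreeGroup.mk v) := by
  induction v with
  | nil =>
    rw [← FreeGroup.one_eq_mk, map_one]
    rfl
  | cons y v ih =>
    have h1 : FreeGroup.mk (y :: v) = FreeGroup.mk [y] * FreeGroup.mk v := by
      rw [FreeGroup.mul_mk]
      rfl
    rw [List.map_cons, val_cons, ih, h1, map_mul]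
    congr 1
    obtain ⟨i, b⟩ := y
    cases b
    · show (gen L (some i))⁻¹ = _
      have h2 : FreeGroup.mk [(i, false)] = (FreeGroup.of i)⁻¹ := by
        rw [FreeGroup.of, FreeGroup.inv_mk]
        rfl
      rw [h2, map_inv]
      rfl
    · rfl

theorem val_cw (x : List σ) (e : Bool) :
    val (gen L) (cw x e) = HNNExtension.of (cond e (cx x) (cx x)⁻¹) := by
  have h1 : val (gen L) (xw x) = HNNExtension.of (px x) := by
    have h2 : xw x = (x.map fun a => ((some a : Option σ), true)).map fun y => (some y.1, y.2) := by
      unfold xw
      rw [List.map_map]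
      rfl
    rw [h2, val_some]
    rfl
  unfold cw
  rw [val_append, val_cons, val_inv, h1]
  unfold cx
  cases e
  · show _ * ((gen L (some none))⁻¹ * _) = HNNExtension.of (px x * FreeGroup.of none * (px x)⁻¹)⁻¹
    rw [map_inv, map_mul, map_mul, map_inv]
    show _ * ((HNNExtension.of (FreeGroup.of none))⁻¹ * _) = _
    group
  · show _ * ((gen L (some none)) * _) = HNNExtension.of (px x * FreeGroup.of none * (px x)⁻¹)
    rw [map_mul, map_mul, map_inv]
    show _ * ((HNNExtension.of (FreeGroup.of none)) * _) = _
    group

theorem comm_of_mem {c : Fr σ} (hc : c ∈ KL L) :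
    (HNNExtension.t : HL L) * HNNExtension.of c = HNNExtension.of c * HNNExtension.t := by
  exact HNNExtension.t_mul_of (φ := MulEquiv.refl (KL L)) ⟨c, hc⟩

/-- The steps of `GStep` do not change the value. -/
theorem val_gstep {b : ℕ} {w w' : Wd (Option (Option σ))} (h : GStep L b w w') :
    val (gen L) w' = val (gen L) w := by
  cases h with
  | del u v i e =>
    rw [val_append, val_append, val_cons, val_cons]
    cases e <;> simp
  | conj u v x hx hb e e' =>
    have hc : cond e (cx x) (cx x)⁻¹ ∈ KL L := by
      have h1 : cx x ∈ KL L := Subgroup.subset_closure ⟨x, hx, rfl⟩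
      cases e
      · exact inv_mem h1
      · exact h1
    have h2 : Commute (HNNExtension.t : HL L) (HNNExtension.of (cond e (cx x) (cx x)⁻¹)) :=
      comm_of_mem L hc
    have h3 : Commute (cond e' (gen L none) (gen L none)⁻¹)
        (HNNExtension.of (cond e (cx x) (cx x)⁻¹) : HL L) := by
      cases e'
      · exact h2.inv_left
      · exact h2
    have h4 : (HNNExtension.of (cond (!e) (cx x) (cx x)⁻¹) : HL L) =
        (HNNExtension.of (cond e (cx x) (cx x)⁻¹))⁻¹ := by
      rw [← map_inv]
      cases e <;> simp
    rw [val_append, val_append, val_append, val_cons, val_cons, val_append, val_cw, val_cw, h4]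
    congr 1
    rw [← mul_assoc, ← mul_assoc, ← h3.eq, mul_assoc (cond e' (gen L none) (gen L none)⁻¹),
      mul_inv_cancel, mul_one]

end Pool.Agent.Lib.MP_0f3a7d_alT
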