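import Mathlib
import Pool.Agent.Lib.MP_0f3a7d_alT.Defs2

/-!
# MP_0f3a7d_al, leaf E2: the subgroup `KL L` of the free group

Let `F₀ = FreeGroup σ`, `N = FreeGroup F₀` and `θ : Fr σ → N ⋊[ρ] F₀` the homomorphism with `t ↦ (of 1, 1)`, `a ↦ (1, of a)`;
`ρ c` permutes the generators `of y ↦ of (c y)` (`FreeGroup.freeGroupCongr (Equiv.mulLeft c)`). Then `θ (c t c⁻¹) = (of c̄, 1)`
for `c` with image `(1, c̄)`, so `θ (cx x) = (of (mk x), 1)`.
For a word `v` let `v̄` be its image in `F₀` (`t ↦ 1`), and `c_i ∈ F₀` the image of the part before the `i`-th letter `t^{e_i}`.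
Then `θ (mk v) = (∏ of (c_i) ^ e_i, v̄)` (induction on `v`) and, with `j : F₀ → Fr σ` the inclusion,
`mk v = ∏ (j c_i) t^{e_i} (j c_i)⁻¹ * j v̄`.
Let `mk v ∈ KL L`. Then `v̄ = 1` and `∏ of (c_i) ^ e_i` is in the subgroup of `N` generated by the `of (mk x)`, `x ∈ L`; such an
element is `mk l'` with a word `l'` whose letters are of the form `mk x`, `x ∈ L`. So the reduced form of the word
`l = ((c_i, e_i))_i`, which equals the reduced form of `l'`, has only letters `mk x`, `x ∈ L` (a reduced form is a sublist: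
`FreeGroup.reduce`, `FreeGroup.Red.sublist`) and length `≤ |l| ≤ |v|`. Apply the homomorphism `N → Fr σ`,
`of c ↦ (j c) t (j c)⁻¹`, to `mk l = mk (reduce l)`. The letters of `reduce l` are letters `c_i` of `l`, images of words of length
`≤ |v|`, and `|x| = norm (mk x) ≤ |v|` for positive words `x` (`FreeGroup.norm`; `x` is reduced) and `x ↦ mk x` is injective.
`cx_mem`: the same with `θ (cx x) = (of (mk x), 1)`; or from `factor` and an argument in `N`: `of (mk x)` is a product of
`of (mk y) ^ ±1`, `y ∈ L`, only if `x ∈ L` (homomorphism of `N` to `Multiplicative ℤ` with `of (mk x) ↦ 1`, all others `↦ 0`).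
-/

set_option autoImplicit false

namespace Pool.Agent.Lib.MP_0f3a7d_alT

variable {σ : Type} (L : Set (List σ))

/-- The action of `F₀` on `N`. -/
private noncomputable def E2_rho (σ : Type) : FreeGroup σ →* MulAut (FreeGroup (FreeGroup σ)) where
  toFun c := FreeGroup.freeGroupCongr (Equiv.mulLeft c)
  map_one' := by
    refine MulEquiv.ext fun n => ?_
    have h : FreeGroup.map (Equiv.mulLeft (1 : FreeGroup σ)) n = n := by
      have h1 : (⇑(Equiv.mulLeft (1 : FreeGroup σ))) = id := by
        funext y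
        exact one_mul y
      rw [h1]
      exact FreeGroup.map.id n
    exact h
  map_mul' c d := by
    refine MulEquiv.ext fun n => ?_
    have h : FreeGroup.map (Equiv.mulLeft (c * d)) n =
        FreeGroup.map (Equiv.mulLeft c) (FreeGroup.map (Equiv.mulLeft d) n) := by
      rw [FreeGroup.map.comp]
      have h1 : (⇑(Equiv.mulLeft (c * d))) = (⇑(Equiv.mulLeft c)) ∘ (⇑(Equiv.mulLeft d)) := by
        funext y
        exact mul_assoc c d y
      rw [h1]
    exact h

private theorem E2_rho_of (c y : FreeGroup σ) : E2_rho σ c (FreeGroup.of y) = FreeGroup.of (c * y) :=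
  FreeGroup.map.of

/-- The semidirect product. -/
private abbrev E2_G (σ : Type) : Type := FreeGroup (FreeGroup σ) ⋊[E2_rho σ] FreeGroup σ

/-- The images of the generators. -/
private noncomputable def E2_gen : Option σ → E2_G σ
  | none => SemidirectProduct.inl (FreeGroup.of 1)
  | some a => SemidirectProduct.inr (FreeGroup.of a)

private noncomputable def E2_th : Fr σ →* E2_G σ := FreeGroup.lift E2_gen

/-- The word `x` in `F₀`. -/
private def E2_m (x : List σ) : FreeGroup σ := FreeGroup.mk (x.map fun a => (a, true))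

/-- The inclusion of `F₀`. -/
private def E2_j : FreeGroup σ →* Fr σ := FreeGroup.map some

private theorem E2_j_m (x : List σ) : E2_j (E2_m x) = px x := by
  unfold E2_j E2_m px
  rw [FreeGroup.map.mk, List.map_map]
  rfl

private theorem E2_mk_cons {α : Type} (y : α × Bool) (w : List (α × Bool)) :
    FreeGroup.mk (y :: w) = cond y.2 (FreeGroup.of y.1) (FreeGroup.of y.1)⁻¹ * FreeGroup.mk w := by
  obtain ⟨a, e⟩ := y
  cases e
  · rfl
  · rfl

/-- The letters `t` of a word, with the image of the part before. -/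
private def E2_tr : FreeGroup σ → Wd (Option σ) → List (FreeGroup σ × Bool)
  | _, [] => []
  | c, (none, e) :: w => (c, e) :: E2_tr c w
  | c, (some a, e) :: w => E2_tr (c * cond e (FreeGroup.of a) (FreeGroup.of a)⁻¹) w

/-- The image of a word in `F₀`. -/
private def E2_vb : FreeGroup σ → Wd (Option σ) → FreeGroup σ
  | c, [] => c
  | c, (none, _) :: w => E2_vb c w
  | c, (some a, e) :: w => E2_vb (c * cond e (FreeGroup.of a) (FreeGroup.of a)⁻¹) w

private theorem E2_tr_len (c : FreeGroup σ) (w : Wd (Option σ)) : (E2_tr c w).length ≤ w.length := by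
  induction w generalizing c with
  | nil => exact le_rfl
  | cons y w ih =>
    obtain ⟨o, e⟩ := y
    cases o with
    | none => exact Nat.succ_le_succ (ih c)
    | some a => exact (ih _).trans (Nat.le_succ _)

private theorem E2_tr_mem (c : FreeGroup σ) (w : Wd (Option σ)) :
    ∀ p ∈ E2_tr c w, ∃ l : List (σ × Bool), l.length ≤ w.length ∧ p.1 = c * FreeGroup.mk l := by
  induction w generalizing c with
  | nil =>
    intro p hp
    exact absurd hp (List.not_mem_nil)
  | cons y w ih =>
    obtain ⟨o, e⟩ := y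
    cases o with
    | none =>
      intro p hp
      rcases List.mem_cons.1 hp with h | h
      · refine ⟨[], Nat.zero_le _, ?_⟩
        rw [h]
        exact (mul_one c).symm
      · obtain ⟨l, hl, hl2⟩ := ih c p h
        exact ⟨l, hl.trans (Nat.le_succ _), hl2⟩
    | some a =>
      intro p hp
      obtain ⟨l, hl, hl2⟩ := ih _ p hp
      refine ⟨(a, e) :: l, Nat.succ_le_succ hl, ?_⟩
      rw [hl2, E2_mk_cons, mul_assoc]

private theorem E2_cond {G H : Type} [Group G] [Group H] (f : G →* H) (e : Bool) (g : G) :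
    f (cond e g g⁻¹) = cond e (f g) (f g)⁻¹ := by
  cases e
  · exact map_inv f g
  · rfl

private theorem E2_th_mk (c : FreeGroup σ) (w : Wd (Option σ)) :
    SemidirectProduct.inr c * E2_th (FreeGroup.mk w) =
      SemidirectProduct.inl (FreeGroup.mk (E2_tr c w)) * SemidirectProduct.inr (E2_vb c w) := by
  induction w generalizing c with
  | nil =>
    show SemidirectProduct.inr c * E2_th 1 = SemidirectProduct.inl 1 * SemidirectProduct.inr c
    rw [map_one, map_one, one_mul, mul_one]
  | cons y w ih =>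
    obtain ⟨o, e⟩ := y
    rw [E2_mk_cons, map_mul, E2_cond]
    cases o with
    | none =>
      have h1 : E2_th (FreeGroup.of (none : Option σ)) = SemidirectProduct.inl (FreeGroup.of 1) :=
        FreeGroup.lift_apply_of
      have h2 : (SemidirectProduct.inr c : E2_G σ) *
          cond e (SemidirectProduct.inl (FreeGroup.of 1)) (SemidirectProduct.inl (FreeGroup.of 1))⁻¹ =
          SemidirectProduct.inl (cond e (FreeGroup.of c) (FreeGroup.of c)⁻¹) * SemidirectProduct.inr c := by
        have h3 : (SemidirectProduct.inl (cond e (FreeGroup.of c) (FreeGroup.of c)⁻¹) : E2_G σ) =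
            SemidirectProduct.inr c * SemidirectProduct.inl (cond e (FreeGroup.of 1) (FreeGroup.of 1)⁻¹) *
              SemidirectProduct.inr c⁻¹ := by
          rw [← SemidirectProduct.inl_aut]
          congr 1
          have h4 := E2_cond (E2_rho σ c).toMonoidHom e (FreeGroup.of (1 : FreeGroup σ))
          have h5 : (E2_rho σ c).toMonoidHom (FreeGroup.of (1 : FreeGroup σ)) = FreeGroup.of c := by
            have h6 := E2_rho_of c 1
            rw [mul_one] at h6
            exact h6
          rw [h5] at h4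
          exact h4.symm
        rw [h3, map_inv, inv_mul_cancel_right]
        congr 1
        exact (E2_cond (SemidirectProduct.inl : _ →* E2_G σ) e (FreeGroup.of 1)).symm
      show SemidirectProduct.inr c * (cond e (E2_th (FreeGroup.of none)) (E2_th (FreeGroup.of none))⁻¹ *
        E2_th (FreeGroup.mk w)) = SemidirectProduct.inl (FreeGroup.mk ((c, e) :: E2_tr c w)) *
          SemidirectProduct.inr (E2_vb c w)
      rw [h1, ← mul_assoc, h2, mul_assoc, ih c, ← mul_assoc, ← map_mul, E2_mk_cons]
    | some a =>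
      have h1 : E2_th (FreeGroup.of (some a)) = SemidirectProduct.inr (FreeGroup.of a) :=
        FreeGroup.lift_apply_of
      show SemidirectProduct.inr c * (cond e (E2_th (FreeGroup.of (some a))) (E2_th (FreeGroup.of (some a)))⁻¹ *
        E2_th (FreeGroup.mk w)) = SemidirectProduct.inl (FreeGroup.mk
          (E2_tr (c * cond e (FreeGroup.of a) (FreeGroup.of a)⁻¹) w)) *
          SemidirectProduct.inr (E2_vb (c * cond e (FreeGroup.of a) (FreeGroup.of a)⁻¹) w)
      rw [h1, ← ih, ← mul_assoc, ← E2_cond (SemidirectProduct.inr : _ →* E2_G σ), ← map_mul]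

/-- The conjugate of `t` by `c`. -/
private def E2_cj (c : FreeGroup σ) : Fr σ := E2_j c * FreeGroup.of none * (E2_j c)⁻¹

private theorem E2_cj_m (x : List σ) : E2_cj (E2_m x) = cx x := by
  unfold E2_cj cx
  rw [E2_j_m]

private theorem E2_mk_tr (c : FreeGroup σ) (w : Wd (Option σ)) :
    E2_j c * FreeGroup.mk w =
      ((E2_tr c w).map fun p => cond p.2 (E2_cj p.1) (E2_cj p.1)⁻¹).prod * E2_j (E2_vb c w) := by
  induction w generalizing c with
  | nil =>
    show E2_j c * 1 = 1 * E2_j c
    rw [mul_one, one_mul]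
  | cons y w ih =>
    obtain ⟨o, e⟩ := y
    rw [E2_mk_cons]
    cases o with
    | none =>
      show E2_j c * (cond e (FreeGroup.of none) (FreeGroup.of none)⁻¹ * FreeGroup.mk w) =
        (cond e (E2_cj c) (E2_cj c)⁻¹ * ((E2_tr c w).map fun p => cond p.2 (E2_cj p.1) (E2_cj p.1)⁻¹).prod) *
          E2_j (E2_vb c w)
      rw [mul_assoc, ← ih c]
      have h1 : cond e (E2_cj c) (E2_cj c)⁻¹ =
          E2_j c * cond e (FreeGroup.of none) (FreeGroup.of none)⁻¹ * (E2_j c)⁻¹ := by
        unfold E2_cj
        cases e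
        · show (E2_j c * FreeGroup.of none * (E2_j c)⁻¹)⁻¹ = E2_j c * (FreeGroup.of none)⁻¹ * (E2_j c)⁻¹
          group
        · rfl
      rw [h1]
      group
    | some a =>
      show E2_j c * (cond e (FreeGroup.of (some a)) (FreeGroup.of (some a))⁻¹ * FreeGroup.mk w) =
        ((E2_tr (c * cond e (FreeGroup.of a) (FreeGroup.of a)⁻¹) w).map
          fun p => cond p.2 (E2_cj p.1) (E2_cj p.1)⁻¹).prod *
          E2_j (E2_vb (c * cond e (FreeGroup.of a) (FreeGroup.of a)⁻¹) w)
      rw [← ih, map_mul, E2_cond E2_j]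
      have h1 : E2_j (FreeGroup.of a) = FreeGroup.of (some a) := FreeGroup.map.of
      rw [h1, mul_assoc]

private theorem E2_th_px (x : List σ) : E2_th (px x) = SemidirectProduct.inr (E2_m x) := by
  unfold px E2_m
  induction x with
  | nil =>
    show E2_th 1 = SemidirectProduct.inr 1
    rw [map_one, map_one]
  | cons a x ih =>
    rw [List.map_cons, List.map_cons, E2_mk_cons, E2_mk_cons, map_mul, map_mul, ih]
    have h1 : E2_th (FreeGroup.of (some a)) = SemidirectProduct.inr (FreeGroup.of a) :=
      FreeGroup.lift_apply_of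
    show E2_th (FreeGroup.of (some a)) * _ = _
    rw [h1]
    rfl

private theorem E2_th_cx (x : List σ) : E2_th (cx x) = SemidirectProduct.inl (FreeGroup.of (E2_m x)) := by
  unfold cx
  rw [map_mul, map_mul, map_inv, E2_th_px]
  have h1 : E2_th (FreeGroup.of (none : Option σ)) = SemidirectProduct.inl (FreeGroup.of 1) :=
    FreeGroup.lift_apply_of
  rw [h1, ← map_inv, ← SemidirectProduct.inl_aut, E2_rho_of, mul_one]

/-- The elements of a subgroup generated by some of the generators. -/
private theorem E2_closure {α : Type} [DecidableEq α] (P : Set α) (n : FreeGroup α)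
    (hn : n ∈ Subgroup.closure (FreeGroup.of '' P)) : ∀ p ∈ n.toWord, p.1 ∈ P := by
  induction hn using Subgroup.closure_induction with
  | mem x hx =>
    obtain ⟨a, ha, rfl⟩ := hx
    intro p hp
    rw [FreeGroup.toWord_of, List.mem_singleton] at hp
    rw [hp]
    exact ha
  | one =>
    intro p hp
    rw [FreeGroup.toWord_one] at hp
    exact absurd hp (List.not_mem_nil)
  | mul x y _ _ hx hy =>
    intro p hp
    rcases List.mem_append.1 ((FreeGroup.toWord_mul_sublist x y).subset hp) with h | h
    · exact hx p h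
    · exact hy p h
  | inv x _ hx =>
    intro p hp
    rw [FreeGroup.toWord_inv] at hp
    unfold FreeGroup.invRev at hp
    rw [List.mem_reverse, List.mem_map] at hp
    obtain ⟨q, hq, rfl⟩ := hp
    exact hx q hq

private theorem E2_th_KL {g : Fr σ} (hg : g ∈ KL L) :
    ∃ n ∈ Subgroup.closure (FreeGroup.of '' (E2_m '' L)), E2_th g = SemidirectProduct.inl n := by
  unfold KL at hg
  induction hg using Subgroup.closure_induction with
  | mem x hx =>
    obtain ⟨y, hy, rfl⟩ := hx
    exact ⟨FreeGroup.of (E2_m y), Subgroup.subset_closure ⟨_, ⟨y, hy, rfl⟩, rfl⟩, E2_th_cx y⟩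
  | one => exact ⟨1, one_mem _, by rw [map_one, map_one]⟩
  | mul x y _ _ hx hy =>
    obtain ⟨n, hn, hn2⟩ := hx
    obtain ⟨m, hm, hm2⟩ := hy
    exact ⟨n * m, mul_mem hn hm, by rw [map_mul, map_mul, hn2, hm2]⟩
  | inv x _ hx =>
    obtain ⟨n, hn, hn2⟩ := hx
    exact ⟨n⁻¹, inv_mem hn, by rw [map_inv, map_inv, hn2]⟩

private theorem E2_red : ∀ x : List σ, FreeGroup.IsReduced (x.map fun a => (a, true))
  | [] => FreeGroup.IsReduced.nil
  | [_] => FreeGroup.IsReduced.singleton
  | _ :: b :: l => FreeGroup.isReduced_cons_cons.2 ⟨fun _ => rfl, E2_red (b :: l)⟩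

private theorem E2_toWord_m [DecidableEq σ] (x : List σ) :
    (E2_m x).toWord = x.map fun a => (a, true) := by
  unfold E2_m
  rw [FreeGroup.toWord_mk]
  exact (E2_red x).reduce_eq

private theorem E2_m_inj {x y : List σ} (h : E2_m x = E2_m y) : x = y := by
  classical
  have h1 : (E2_m x).toWord = (E2_m y).toWord := by rw [h]
  rw [E2_toWord_m, E2_toWord_m] at h1
  exact (List.map_injective_iff.2 fun a b hab => congrArg Prod.fst hab) h1

private theorem E2_m_len {x : List σ} {l : List (σ × Bool)} (h : E2_m x = FreeGroup.mk l) :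
    x.length ≤ l.length := by
  classical
  have h1 : FreeGroup.norm (E2_m x) = x.length := by
    unfold FreeGroup.norm
    rw [E2_toWord_m, List.length_map]
  rw [← h1, h]
  exact FreeGroup.norm_mk_le

theorem cx_mem {x : List σ} : cx x ∈ KL L ↔ x ∈ L := by
  classical
  constructor
  · intro h
    obtain ⟨n, hn, hn2⟩ := E2_th_KL L h
    rw [E2_th_cx] at hn2
    have h1 : FreeGroup.of (E2_m x) = n := SemidirectProduct.inl_injective hn2
    have h2 := E2_closure (E2_m '' L) n hn (E2_m x, true) (by
      rw [← h1, FreeGroup.toWord_of]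
      exact List.mem_singleton.2 rfl)
    obtain ⟨y, hy, hy2⟩ := h2
    have h3 : y = x := E2_m_inj hy2
    rwa [← h3]
  · intro h
    exact Subgroup.subset_closure ⟨x, h, rfl⟩

/-- The elements of `KL L`. -/
theorem factor (v : Wd (Option σ)) (hv : FreeGroup.mk v ∈ KL L) :
    ∃ q : List (List σ × Bool), q.length ≤ v.length ∧ (∀ p ∈ q, p.1 ∈ L ∧ p.1.length ≤ v.length) ∧
      FreeGroup.mk v = (q.map fun p => cond p.2 (cx p.1) (cx p.1)⁻¹).prod := by
  classical
  obtain ⟨n, hn, hn2⟩ := E2_th_KL L hv
  have h1 := E2_th_mk 1 v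
  rw [map_one, one_mul, hn2] at h1
  have h2 : E2_vb 1 v = 1 := by
    have h3 := congrArg SemidirectProduct.right h1
    rw [SemidirectProduct.right_inl, SemidirectProduct.mul_right, SemidirectProduct.right_inl,
      SemidirectProduct.right_inr, one_mul] at h3
    exact h3.symm
  rw [h2, map_one, mul_one] at h1
  have h3 : n = FreeGroup.mk (E2_tr 1 v) := SemidirectProduct.inl_injective h1
  have h4 := E2_mk_tr 1 v
  rw [h2, map_one, one_mul, mul_one] at h4
  obtain ⟨r, hr⟩ : ∃ r, r = FreeGroup.reduce (E2_tr 1 v) := ⟨_, rfl⟩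
  have hr1 : n.toWord = r := by
    rw [h3, FreeGroup.toWord_mk, hr]
  have hsub : r.Sublist (E2_tr 1 v) := by
    rw [hr]
    exact FreeGroup.reduce.red.sublist
  have h5 : FreeGroup.mk v = (r.map fun p => cond p.2 (E2_cj p.1) (E2_cj p.1)⁻¹).prod := by
    have h6 : FreeGroup.lift E2_cj (FreeGroup.mk (E2_tr 1 v)) = FreeGroup.lift E2_cj (FreeGroup.mk r) := by
      rw [hr, FreeGroup.reduce.self]
    rw [FreeGroup.lift_mk, FreeGroup.lift_mk] at h6
    rw [h4]
    exact h6
  obtain ⟨X, hX⟩ : ∃ X : FreeGroup σ → List σ, ∀ c ∈ E2_m '' L, X c ∈ L ∧ E2_m (X c) = c := by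
    refine ⟨fun c => if h : ∃ x, x ∈ L ∧ E2_m x = c then h.choose else [], fun c hc => ?_⟩
    have h : ∃ x, x ∈ L ∧ E2_m x = c := hc
    simp only [dif_pos h]
    exact h.choose_spec
  have hP : ∀ p ∈ r, p.1 ∈ E2_m '' L := by
    intro p hp
    rw [← hr1] at hp
    exact E2_closure (E2_m '' L) n hn p hp
  refine ⟨r.map fun p => (X p.1, p.2), ?_, ?_, ?_⟩
  · rw [List.length_map]
    exact hsub.length_le.trans (E2_tr_len 1 v)
  · intro p hp
    obtain ⟨p', hp', rfl⟩ := List.mem_map.1 hp
    have h6 := hX p'.1 (hP p' hp')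
    refine ⟨h6.1, ?_⟩
    obtain ⟨l, hl, hl2⟩ := E2_tr_mem 1 v p' (hsub.subset hp')
    rw [one_mul, ← h6.2] at hl2
    exact (E2_m_len hl2).trans hl
  · rw [h5, List.map_map]
    congr 1
    refine List.map_congr_left fun p hp => ?_
    have h6 := hX p.1 (hP p hp)
    show cond p.2 (E2_cj p.1) (E2_cj p.1)⁻¹ = cond p.2 (cx (X p.1)) (cx (X p.1))⁻¹
    rw [← E2_cj_m, h6.2]

end Pool.Agent.Lib.MP_0f3a7d_alT
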