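import Mathlib
import Pool.Agent.Lib.MP_0f3a7d_alT.E1
import Pool.Agent.Lib.MP_0f3a7d_alT.E2

/-!
# MP_0f3a7d_al, leaf E3: Britton's lemma

`britton`: write `w = v_0 u^{b_1} v_1 … u^{b_m} v_m`, `m ≥ 1`, `v_i` without the letter `none`. Consider
`HNNExtension.NormalWord.ReducedWord` with head `mk v_0` and list `(b_i, mk v_i)` (`b_i` as a unit of `ℤ`): if all consecutive
pairs satisfied the condition (`mk v_i ∈ toSubgroup → b_i = b_{i+1}`) then by
`HNNExtension.ReducedWord.toList_eq_nil_of_mem_of_range` (Britton's lemma in Mathlib) the list would be empty, as the product is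
`1 = of 1`. So there is `i` with `mk v_i ∈ KL L` (both `toSubgroup` are `KL L`) and `b_{i+1} ≠ b_i`.
`comm_iff`: `←` E1 (`comm_of_mem`), `cx_mem`. `→`: if `cx x ∉ KL L`, the reduced word with head `1` and list
`(1, cx x), (-1, (cx x)⁻¹)` has product `t * of (cx x) * t⁻¹ * of (cx x)⁻¹ = 1`, contradiction to the same lemma.
-/

set_option autoImplicit false

namespace Pool.Agent.Lib.MP_0f3a7d_alT

variable {σ : Type} (L : Set (List σ))

/-- The sign of a letter as a unit of the integers. -/
private def E3_sg (b : Bool) : ℤˣ := cond b 1 (-1)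

/-- The word without the stable letter as a word in the generators. -/
private def E3_emb (v : Wd (Option σ)) : Wd (Option (Option σ)) := v.map fun y => (some y.1, y.2)

/-- The part before the first stable letter, and the parts after the stable letters. -/
private def E3_dec : Wd (Option (Option σ)) → Wd (Option σ) × List (Bool × Wd (Option σ))
  | [] => ([], [])
  | (none, b) :: w => ([], (b, (E3_dec w).1) :: (E3_dec w).2)
  | (some i, b) :: w => ((i, b) :: (E3_dec w).1, (E3_dec w).2)

private def E3_fl (l : List (Bool × Wd (Option σ))) : Wd (Option (Option σ)) :=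
  l.flatMap fun p => (none, p.1) :: E3_emb p.2

private theorem E3_fl_cons (p : Bool × Wd (Option σ)) (l : List (Bool × Wd (Option σ))) :
    E3_fl (p :: l) = (none, p.1) :: (E3_emb p.2 ++ E3_fl l) := by
  unfold E3_fl
  rw [List.flatMap_cons, List.cons_append]

private theorem E3_fl_append (l l' : List (Bool × Wd (Option σ))) :
    E3_fl (l ++ l') = E3_fl l ++ E3_fl l' := by
  unfold E3_fl
  rw [List.flatMap_append]

private theorem E3_dec_eq (w : Wd (Option (Option σ))) :
    w = E3_emb (E3_dec w).1 ++ E3_fl (E3_dec w).2 := by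
  induction w with
  | nil => rfl
  | cons y w ih =>
    obtain ⟨i, b⟩ := y
    cases i with
    | none =>
      have h : E3_emb (E3_dec ((none, b) :: w)).1 ++ E3_fl (E3_dec ((none, b) :: w)).2 =
          (none, b) :: (E3_emb (E3_dec w).1 ++ E3_fl (E3_dec w).2) := by
        rw [E3_dec, E3_fl_cons]
        rfl
      rw [h, ← ih]
    | some i =>
      have h : E3_emb (E3_dec ((some i, b) :: w)).1 ++ E3_fl (E3_dec ((some i, b) :: w)).2 =
          (some i, b) :: (E3_emb (E3_dec w).1 ++ E3_fl (E3_dec w).2) := by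
        rw [E3_dec]
        rfl
      rw [h, ← ih]

private theorem E3_gen_none (b : Bool) :
    cond b (gen L none) (gen L none)⁻¹ = HNNExtension.t ^ ((E3_sg b : ℤˣ) : ℤ) := by
  cases b with
  | false =>
    have h : ((E3_sg false : ℤˣ) : ℤ) = -1 := rfl
    rw [h, zpow_neg_one]
    rfl
  | true =>
    have h : ((E3_sg true : ℤˣ) : ℤ) = 1 := rfl
    rw [h, zpow_one]
    rfl

private theorem E3_val_fl (l : List (Bool × Wd (Option σ))) :
    val (gen L) (E3_fl l) =
      (l.map fun p => (HNNExtension.t : HL L) ^ ((E3_sg p.1 : ℤˣ) : ℤ) * HNNExtension.of (FreeGroup.mk p.2)).prod := by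
  induction l with
  | nil => rfl
  | cons p l ih =>
    have h : val (gen L) (E3_emb p.2) = HNNExtension.of (FreeGroup.mk p.2) := val_some L p.2
    rw [E3_fl_cons, val_cons, val_append, h, ih, List.map_cons, List.prod_cons, E3_gen_none, mul_assoc]

private theorem E3_dec_ne (w : Wd (Option (Option σ))) (hu : ∃ b, (none, b) ∈ w) : (E3_dec w).2 ≠ [] := by
  intro h0
  obtain ⟨b, hb⟩ := hu
  rw [E3_dec_eq w, h0] at hb
  have h1 : E3_emb (E3_dec w).1 ++ E3_fl ([] : List (Bool × Wd (Option σ))) = E3_emb (E3_dec w).1 :=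
    List.append_nil _
  rw [h1] at hb
  obtain ⟨y, _, hy⟩ := List.mem_map.1 hb
  exact absurd (congrArg Prod.fst hy) (by simp)

private theorem E3_notchain {α : Type} (R : α → α → Prop) (l : List α) (h : ¬ l.IsChain R) :
    ∃ (l1 : List α) (a b : α) (l2 : List α), l = l1 ++ a :: b :: l2 ∧ ¬ R a b := by
  induction l with
  | nil => exact absurd List.isChain_nil h
  | cons a l ih =>
    cases l with
    | nil => exact absurd (List.isChain_singleton a) h
    | cons b l =>
      by_cases hR : R a b
      · have h1 : ¬ (b :: l).IsChain R := fun h2 => h (List.isChain_cons_cons.2 ⟨hR, h2⟩)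
        obtain ⟨l1, a', b', l2, h3, h4⟩ := ih h1
        exact ⟨a :: l1, a', b', l2, by rw [h3, List.cons_append], h4⟩
      · exact ⟨[], a, b, l, rfl, hR⟩

private theorem E3_sub (u : ℤˣ) :
    HNNExtension.toSubgroup (KL L) (KL L) u = KL L := by
  rcases Int.units_eq_one_or u with h | h
  · rw [h, HNNExtension.toSubgroup_one]
  · rw [h, HNNExtension.toSubgroup_neg_one]

theorem britton (w : Wd (Option (Option σ))) (hw : val (gen L) w = 1) (hu : ∃ b, (none, b) ∈ w) :
    ∃ (w1 w2 : Wd (Option (Option σ))) (v : Wd (Option σ)) (b : Bool),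
      w = w1 ++ (none, b) :: ((v.map fun y => (some y.1, y.2)) ++ (none, !b) :: w2) ∧
      FreeGroup.mk v ∈ KL L := by
  by_cases hc : ((E3_dec w).2.map fun p => (E3_sg p.1, (FreeGroup.mk p.2 : Fr σ))).IsChain
      (fun a b => a.2 ∈ HNNExtension.toSubgroup (KL L) (KL L) a.1 → a.1 = b.1)
  · exfalso
    have h1 := HNNExtension.ReducedWord.toList_eq_nil_of_mem_of_range (MulEquiv.refl (KL L))
      ⟨FreeGroup.mk (E3_dec w).1, _, hc⟩ (by
        rw [HNNExtension.NormalWord.ReducedWord.prod]
        dsimp only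
        rw [List.map_map]
        refine ⟨1, ?_⟩
        rw [map_one, ← hw]
        have h2 : val (gen L) w = val (gen L) (E3_emb (E3_dec w).1 ++ E3_fl (E3_dec w).2) :=
          congrArg _ (E3_dec_eq w)
        have h3 : val (gen L) (E3_emb (E3_dec w).1) = HNNExtension.of (FreeGroup.mk (E3_dec w).1) :=
          val_some L _
        rw [h2, val_append, h3, E3_val_fl]
        rfl)
    exact E3_dec_ne w hu (List.map_eq_nil_iff.1 h1)
  · rw [List.isChain_map] at hc
    obtain ⟨l1, p, p', l2, h1, h2⟩ := E3_notchain _ _ hc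
    rw [E3_sub, Classical.not_imp] at h2
    obtain ⟨h3, h4⟩ := h2
    have h5 : p'.1 = !p.1 := by
      rcases h6 : p.1 with _ | _ <;> rcases h7 : p'.1 with _ | _
      · exact absurd (by rw [h6, h7]) h4
      · rfl
      · rfl
      · exact absurd (by rw [h6, h7]) h4
    refine ⟨E3_emb (E3_dec w).1 ++ E3_fl l1, E3_emb p'.2 ++ E3_fl l2, p.2, p.1, ?_, h3⟩
    have h8 := E3_dec_eq w
    rw [h1, E3_fl_append, E3_fl_cons, E3_fl_cons, h5] at h8
    rw [List.append_assoc]
    exact h8

theorem comm_iff {x : List σ} :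
    (HNNExtension.t : HL L) * HNNExtension.of (cx x) * HNNExtension.t⁻¹ * (HNNExtension.of (cx x))⁻¹ = 1 ↔
      x ∈ L := by
  constructor
  · intro h
    by_contra hx
    have hx' : cx x ∉ KL L := fun h1 => hx ((cx_mem L).1 h1)
    have hc : ([(1, cx x), (-1, (cx x)⁻¹)] : List (ℤˣ × Fr σ)).IsChain
        (fun a b => a.2 ∈ HNNExtension.toSubgroup (KL L) (KL L) a.1 → a.1 = b.1) := by
      refine List.isChain_cons_cons.2 ⟨fun h1 => ?_, List.isChain_singleton _⟩
      rw [E3_sub] at h1
      exact absurd h1 hx'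
    have h1 := HNNExtension.ReducedWord.toList_eq_nil_of_mem_of_range (MulEquiv.refl (KL L))
      ⟨1, _, hc⟩ (by
        refine ⟨1, ?_⟩
        rw [map_one, ← h]
        simp [HNNExtension.NormalWord.ReducedWord.prod, mul_assoc])
    exact absurd h1 (List.cons_ne_nil _ _)
  · intro hx
    have h1 := comm_of_mem L ((cx_mem L).2 hx)
    rw [h1, mul_assoc, mul_assoc, mul_inv_cancel_left, mul_inv_cancel]

end Pool.Agent.Lib.MP_0f3a7d_alT
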