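import Mathlib
import Pool.Agent.Lib.MP_0f3a7d_alT.E3

/-!
# MP_0f3a7d_al, leaf E4: derivations for the word problem of `HL L`

By induction on `|w|` (`w` with value `1`, `l = |w|`): at most `(l + 1) * (20 (l + 1)²)` steps through words of length at most
`20 (l + 1)²`. If `w` has no letter `none`, it is `v.map …` with `of (mk v) = 1`, so `mk v = 1` (`HNNExtension.of_injective`) and
`w` is reduced to `[]` by deletions (`FreeGroup.Red`, `mk v = mk []`), at most `l` steps. Otherwise take `w1, v, b, w2` from
`britton` and `q` from `factor`, `m = |q| ≤ |v| ≤ l`. Let `Q` be the concatenation of the words `cw x_i e_i`, `|Q| ≤ l (2 l + 1)`,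
and `Q' = inv Q`. `m` steps `conj` (always at the letter `(none, b)`, with the factors in order) give
`w1 ++ Q ++ (none, b) :: (Q' ++ v ++ (none, !b) :: w2)`; `Q' ++ v` has value `1` in the free group and is deleted to `[]`
(`≤ |Q| + l` steps); then the pair `(none, b) (none, !b)` is deleted; then `Q` is reduced to the reduced form `v'` of `v`
(`mk Q = mk v`; `≤ |Q|` steps; `|v'| ≤ |v|`). The new word `w1 ++ v' ++ w2` has value `1` and length `≤ l - 2`.
(The steps `del` for words over `Option σ` inside a context; `cw x (!e)` is `inv (cw x e)`.)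
-/

set_option autoImplicit false

namespace Pool.Agent.Lib.MP_0f3a7d_alT

/-! ### Derivations -/

private theorem E4_mono {σ : Type} {L : Set (List σ)} {b b' n : ℕ} {w w' : Wd (Option (Option σ))}
    (hb : b ≤ b') (h : GDer L b n w w') : GDer L b' n w w' := by
  induction h with
  | nil w h => exact GDer.nil w (h.trans hb)
  | cons n w w' w'' h h1 _ ih =>
    refine GDer.cons n w w' w'' (h.trans hb) ?_ ih
    cases h1 with
    | del u v i e => exact GStep.del u v i e
    | conj u v x hx hb1 e e' => exact GStep.conj u v x hx (hb1.trans hb) e e'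

private theorem E4_trans {σ : Type} {L : Set (List σ)} {b n m : ℕ} {w w' w'' : Wd (Option (Option σ))}
    (h : GDer L b n w w') (h' : GDer L b m w' w'') : GDer L b (n + m) w w'' := by
  induction h with
  | nil w _ =>
    rw [Nat.zero_add]
    exact h'
  | cons n w w1 w2 h h1 _ ih =>
    have h3 := GDer.cons (n + m) w w1 w'' h h1 (ih h')
    have h4 : n + m + 1 = n + 1 + m := by omega
    rw [← h4]
    exact h3

private theorem E4_val {σ : Type} {L : Set (List σ)} {b n : ℕ} {w w' : Wd (Option (Option σ))}
    (h : GDer L b n w w') : val (gen L) w' = val (gen L) w := by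
  induction h with
  | nil w _ => rfl
  | cons n w w1 w2 _ h1 _ ih => rw [ih, val_gstep L h1]

/-- the inclusion of the letters -/
private def E4_sm {σ : Type} (v : Wd (Option σ)) : Wd (Option (Option σ)) := v.map fun y => (some y.1, y.2)

private theorem E4_sm_append {σ : Type} (v w : Wd (Option σ)) : E4_sm (v ++ w) = E4_sm v ++ E4_sm w := by
  unfold E4_sm
  rw [List.map_append]

private theorem E4_sm_length {σ : Type} (v : Wd (Option σ)) : (E4_sm v).length = v.length := by
  unfold E4_sm
  rw [List.length_map]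

private theorem E4_inv_append {ι : Type} (v w : Wd ι) : inv (v ++ w) = inv w ++ inv v := by
  unfold inv
  rw [List.map_append, List.reverse_append]

private theorem E4_inv_inv {ι : Type} (v : Wd ι) : inv (inv v) = v := by
  unfold inv
  rw [List.map_reverse, List.reverse_reverse, List.map_map]
  have h : ((fun y : ι × Bool => (y.1, !y.2)) ∘ fun y : ι × Bool => (y.1, !y.2)) = id := by
    funext y
    simp
  rw [h, List.map_id]

private theorem E4_sm_inv {σ : Type} (v : Wd (Option σ)) : E4_sm (inv v) = inv (E4_sm v) := by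
  unfold E4_sm inv
  rw [List.map_reverse, List.map_map, List.map_map]
  rfl

/-- deletions in a context -/
private theorem E4_del {σ : Type} {L : Set (List σ)} {x y : Wd (Option σ)} (h : FreeGroup.Red x y)
    (u z : Wd (Option (Option σ))) (b : ℕ) (hb : u.length + x.length + z.length ≤ b) :
    ∃ n ≤ x.length, GDer L b n (u ++ (E4_sm x ++ z)) (u ++ (E4_sm y ++ z)) := by
  induction h using Relation.ReflTransGen.head_induction_on with
  | refl =>
    refine ⟨0, Nat.zero_le _, GDer.nil _ ?_⟩
    rw [List.length_append, List.length_append, E4_sm_length]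
    omega
  | head h1 h2 ih =>
    rename_i x x1
    have hl := h1.length
    obtain ⟨n, hn, hd⟩ := ih (by omega)
    refine ⟨n + 1, by omega, GDer.cons n _ _ _ ?_ ?_ hd⟩
    · rw [List.length_append, List.length_append, E4_sm_length]
      omega
    · cases h1 with
      | not =>
        rename_i L1 L2 a e
        have h3 : u ++ (E4_sm (L1 ++ (a, e) :: (a, !e) :: L2) ++ z) =
            (u ++ E4_sm L1) ++ (some a, e) :: (some a, !e) :: (E4_sm L2 ++ z) := by
          rw [E4_sm_append]
          simp only [E4_sm, List.map_cons, List.append_assoc, List.cons_append]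
        have h4 : u ++ (E4_sm (L1 ++ L2) ++ z) = (u ++ E4_sm L1) ++ (E4_sm L2 ++ z) := by
          rw [E4_sm_append]
          simp only [List.append_assoc]
        rw [h3, h4]
        exact GStep.del _ _ _ _

/-! ### The words `x t^e x⁻¹` -/

private def E4_cw0 {σ : Type} (x : List σ) (e : Bool) : Wd (Option σ) :=
  (x.map fun a => (some a, true)) ++ (none, e) :: inv (x.map fun a => (some a, true))

private theorem E4_cw_eq {σ : Type} (x : List σ) (e : Bool) : cw x e = E4_sm (E4_cw0 x e) := by
  unfold E4_cw0
  rw [E4_sm_append]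
  have h1 : E4_sm (x.map fun a => (some a, true)) = xw x := by
    unfold E4_sm xw
    rw [List.map_map]
    rfl
  have h2 : E4_sm ((none, e) :: inv (x.map fun a => (some a, true))) =
      (some none, e) :: E4_sm (inv (x.map fun a => ((some a : Option σ), true))) := rfl
  rw [h2, E4_sm_inv, h1]
  rfl

private theorem E4_cw_inv {σ : Type} (x : List σ) (e : Bool) : inv (cw x e) = cw x (!e) := by
  unfold cw
  rw [E4_inv_append]
  have h1 : inv (((some none : Option (Option σ)), e) :: inv (xw x)) = inv (inv (xw x)) ++ [(some none, !e)] := by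
    unfold inv
    rw [List.map_cons, List.reverse_cons]
  rw [h1, E4_inv_inv, List.append_assoc]
  rfl

private theorem E4_cw0_length {σ : Type} (x : List σ) (e : Bool) : (E4_cw0 x e).length = 2 * x.length + 1 := by
  unfold E4_cw0
  rw [List.length_append, List.length_cons, length_inv, List.length_map]
  omega

private theorem E4_mk_cw0 {σ : Type} (x : List σ) (e : Bool) :
    FreeGroup.mk (E4_cw0 x e) = cond e (cx x) (cx x)⁻¹ := by
  have h1 : FreeGroup.mk (E4_cw0 x e) = px x * FreeGroup.mk [(none, e)] * (px x)⁻¹ := by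
    unfold px
    rw [← mk_inv, FreeGroup.mul_mk, FreeGroup.mul_mk]
    unfold E4_cw0
    rw [List.append_assoc]
    rfl
  rw [h1]
  cases e with
  | true => rfl
  | false =>
    show px x * FreeGroup.mk [(none, false)] * (px x)⁻¹ = (cx x)⁻¹
    have h2 : FreeGroup.mk [((none : Option σ), false)] = (FreeGroup.of none)⁻¹ := rfl
    rw [h2]
    unfold cx
    group

private def E4_Q {σ : Type} (q : List (List σ × Bool)) : Wd (Option σ) := q.flatMap fun p => E4_cw0 p.1 p.2

private theorem E4_Q_cons {σ : Type} (p : List σ × Bool) (q : List (List σ × Bool)) :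
    E4_Q (p :: q) = E4_cw0 p.1 p.2 ++ E4_Q q := by
  unfold E4_Q
  rw [List.flatMap_cons]

private theorem E4_mk_Q {σ : Type} (q : List (List σ × Bool)) :
    FreeGroup.mk (E4_Q q) = (q.map fun p => cond p.2 (cx p.1) (cx p.1)⁻¹).prod := by
  induction q with
  | nil => rfl
  | cons p q ih => rw [E4_Q_cons, ← FreeGroup.mul_mk, ih, E4_mk_cw0, List.map_cons, List.prod_cons]

private theorem E4_Q_length {σ : Type} (q : List (List σ × Bool)) (l : ℕ) (h : ∀ p ∈ q, p.1.length ≤ l) :
    (E4_Q q).length ≤ q.length * (2 * l + 1) := by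
  induction q with
  | nil => exact Nat.zero_le _
  | cons p q ih =>
    have h1 := ih fun p' hp' => h p' (List.mem_cons_of_mem _ hp')
    have h2 := h p List.mem_cons_self
    have h3 : (q.length + 1) * (2 * l + 1) = q.length * (2 * l + 1) + (2 * l + 1) := by ring
    rw [E4_Q_cons, List.length_append, E4_cw0_length, List.length_cons, h3]
    omega

/-- conjugations at the letter `none` -/
private theorem E4_conj {σ : Type} {L : Set (List σ)} (e : Bool) (b : ℕ) (q : List (List σ × Bool)) :
    ∀ (u z : Wd (Option (Option σ))), (∀ p ∈ q, p.1 ∈ L ∧ p.1.length ≤ b) →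
      u.length + 1 + z.length + 2 * (E4_Q q).length ≤ b →
      GDer L b q.length (u ++ (none, e) :: z)
        (u ++ (E4_sm (E4_Q q) ++ (none, e) :: (inv (E4_sm (E4_Q q)) ++ z))) := by
  induction q with
  | nil =>
    intro u z _ hb
    refine GDer.nil _ ?_
    have h0 : (E4_Q ([] : List (List σ × Bool))).length = 0 := rfl
    rw [h0] at hb
    rw [List.length_append, List.length_cons]
    omega
  | cons p q ih =>
    intro u z hq hb
    have hp := hq p List.mem_cons_self
    have hlen : (E4_Q (p :: q)).length = 2 * p.1.length + 1 + (E4_Q q).length := by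
      rw [E4_Q_cons, List.length_append, E4_cw0_length]
    have hcl : ∀ x : List σ, ∀ e : Bool, (cw x e).length = 2 * x.length + 1 := by
      intro x e
      rw [E4_cw_eq, E4_sm_length, E4_cw0_length]
    have h1 := ih (u ++ cw p.1 p.2) (cw p.1 (!p.2) ++ z) (fun p' hp' => hq p' (List.mem_cons_of_mem _ hp')) (by
      rw [List.length_append, List.length_append, hcl, hcl]
      omega)
    have h2 : GStep L b (u ++ (none, e) :: z) (u ++ (cw p.1 p.2 ++ (none, e) :: (cw p.1 (!p.2) ++ z))) :=
      GStep.conj u z p.1 hp.1 hp.2 p.2 e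
    rw [List.append_assoc] at h1
    have h3 : u ++ (E4_sm (E4_Q (p :: q)) ++ (none, e) :: (inv (E4_sm (E4_Q (p :: q))) ++ z)) =
        u ++ cw p.1 p.2 ++ (E4_sm (E4_Q q) ++ (none, e) :: (inv (E4_sm (E4_Q q)) ++ (cw p.1 (!p.2) ++ z))) := by
      rw [E4_Q_cons, E4_sm_append, E4_inv_append, ← E4_cw_eq, E4_cw_inv]
      simp only [List.append_assoc]
    rw [h3, List.length_cons]
    refine GDer.cons _ _ _ _ ?_ h2 h1
    rw [List.length_append, List.length_cons]
    omega

/-- a word without the letter `none` -/
private theorem E4_some {σ : Type} (w : Wd (Option (Option σ))) (h : ¬ ∃ b, (none, b) ∈ w) :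
    ∃ v : Wd (Option σ), w = v.map fun y => (some y.1, y.2) := by
  induction w with
  | nil => exact ⟨[], rfl⟩
  | cons y w ih =>
    obtain ⟨v, hv⟩ := ih fun ⟨b, hb⟩ => h ⟨b, List.mem_cons_of_mem _ hb⟩
    obtain ⟨i, e⟩ := y
    cases i with
    | none => exact absurd ⟨e, List.mem_cons_self⟩ h
    | some i => exact ⟨(i, e) :: v, by rw [List.map_cons, ← hv]⟩

private theorem E4_red_nil {σ : Type} {v : Wd (Option σ)} (h : FreeGroup.mk v = 1) : FreeGroup.Red v [] := by
  classical
  have h1 : FreeGroup.reduce v = FreeGroup.reduce [] := FreeGroup.reduce.sound h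
  have h2 : FreeGroup.Red v (FreeGroup.reduce v) := FreeGroup.reduce.red
  rw [h1] at h2
  exact h2

/-- one round -/
private theorem E4_round {σ : Type} {L : Set (List σ)} (w1 w2 : Wd (Option (Option σ))) (v : Wd (Option σ))
    (b : Bool) (hv : FreeGroup.mk v ∈ KL L) (l : ℕ)
    (hl : w1.length + v.length + w2.length + 2 ≤ l) :
    ∃ (n : ℕ) (w' : Wd (Option (Option σ))), n ≤ (2 * l + 1) ^ 2 ∧ w'.length + 2 ≤ l ∧
      GDer L (20 * (l + 1) ^ 2) n
        (w1 ++ (none, b) :: ((v.map fun y => (some y.1, y.2)) ++ (none, !b) :: w2)) w' := by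
  classical
  obtain ⟨q, hq1, hq2, hq3⟩ := factor L v hv
  have hQl : (E4_Q q).length ≤ l * (2 * l + 1) := by
    refine (E4_Q_length q l fun p hp => (hq2 p hp).2.trans (by omega)).trans ?_
    exact Nat.mul_le_mul_right _ (by omega)
  have hB : l + 2 * (l * (2 * l + 1)) ≤ 20 * (l + 1) ^ 2 := by nlinarith
  have hl20 : l ≤ 20 * (l + 1) ^ 2 := by nlinarith
  have hvl : v.length ≤ l := by omega
  have hmk : FreeGroup.mk (E4_Q q) = FreeGroup.mk v := by rw [E4_mk_Q, hq3]
  -- conjugations
  have s1 := E4_conj (L := L) b (20 * (l + 1) ^ 2) q w1 (E4_sm v ++ (none, !b) :: w2)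
    (fun p hp => ⟨(hq2 p hp).1, ((hq2 p hp).2.trans hvl).trans hl20⟩) (by
      rw [List.length_append, E4_sm_length, List.length_cons]
      omega)
  -- the inner deletion
  have hred : FreeGroup.Red (inv (E4_Q q) ++ v) [] := by
    refine E4_red_nil ?_
    rw [← FreeGroup.mul_mk, mk_inv, hmk, inv_mul_cancel]
  obtain ⟨n2, hn2, s2⟩ := E4_del (L := L) hred (w1 ++ (E4_sm (E4_Q q) ++ [(none, b)])) ((none, !b) :: w2)
    (20 * (l + 1) ^ 2) (by
      simp only [List.length_append, List.length_cons, List.length_nil, E4_sm_length, length_inv]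
      omega)
  have e2 : w1 ++ (E4_sm (E4_Q q) ++ (none, b) :: (inv (E4_sm (E4_Q q)) ++ (E4_sm v ++ (none, !b) :: w2))) =
      w1 ++ (E4_sm (E4_Q q) ++ [(none, b)]) ++ (E4_sm (inv (E4_Q q) ++ v) ++ (none, !b) :: w2) := by
    rw [E4_sm_append, E4_sm_inv]
    simp only [List.append_assoc, List.cons_append, List.nil_append]
  rw [← e2] at s2
  -- the letters `none`
  have e3 : w1 ++ (E4_sm (E4_Q q) ++ [(none, b)]) ++ (E4_sm [] ++ (none, !b) :: w2) =
      (w1 ++ E4_sm (E4_Q q)) ++ (none, b) :: (none, !b) :: w2 := by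
    simp only [E4_sm, List.map_nil, List.append_assoc, List.cons_append, List.nil_append]
  rw [e3] at s2
  have s3 : GDer L (20 * (l + 1) ^ 2) 1 ((w1 ++ E4_sm (E4_Q q)) ++ (none, b) :: (none, !b) :: w2)
      ((w1 ++ E4_sm (E4_Q q)) ++ w2) := by
    refine GDer.cons 0 _ _ _ ?_ (GStep.del _ _ _ _) (GDer.nil _ ?_)
    · simp only [List.length_append, List.length_cons, E4_sm_length]
      omega
    · simp only [List.length_append, E4_sm_length]
      omega
  -- the last deletion
  have hred2 : FreeGroup.Red (E4_Q q) (FreeGroup.reduce v) := by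
    have h1 : FreeGroup.reduce (E4_Q q) = FreeGroup.reduce v := FreeGroup.reduce.sound hmk
    have h2 : FreeGroup.Red (E4_Q q) (FreeGroup.reduce (E4_Q q)) := FreeGroup.reduce.red
    rw [h1] at h2
    exact h2
  obtain ⟨n4, hn4, s4⟩ := E4_del (L := L) hred2 w1 w2 (20 * (l + 1) ^ 2) (by omega)
  rw [← List.append_assoc] at s4
  have hrl : (FreeGroup.reduce v).length ≤ v.length := FreeGroup.Red.length_le FreeGroup.reduce.red
  have s5 := E4_trans (E4_trans (E4_trans s1 s2) s3) s4
  refine ⟨_, _, ?_, ?_, s5⟩
  · rw [List.length_append, length_inv] at hn2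
    nlinarith
  · simp only [List.length_append, E4_sm_length]
    omega

theorem gder_of_val {σ : Type} (L : Set (List σ)) (w : Wd (Option (Option σ)))
    (hw : val (gen L) w = 1) : ∃ n ≤ 20 * (w.length + 1) ^ 3, GDer L (20 * (w.length + 1) ^ 2) n w [] := by
  suffices key : ∀ l : ℕ, ∀ w : Wd (Option (Option σ)), w.length = l → val (gen L) w = 1 →
      ∃ n ≤ 20 * (l + 1) ^ 3, GDer L (20 * (l + 1) ^ 2) n w [] from key _ w rfl hw
  intro l
  induction l using Nat.strong_induction_on with
  | _ l ih =>
    intro w hwl hw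
    by_cases hu : ∃ b, (none, b) ∈ w
    · obtain ⟨w1, w2, v, b, rfl, hv⟩ := britton L w hw hu
      have hl : w1.length + v.length + w2.length + 2 = l := by
        rw [← hwl]
        simp only [List.length_append, List.length_cons, List.length_map]
        omega
      obtain ⟨n, w', hn, hw', hd⟩ := E4_round w1 w2 v b hv l (le_of_eq hl)
      have hval : val (gen L) w' = 1 := by rw [E4_val hd, hw]
      obtain ⟨n', hn', hd'⟩ := ih w'.length (by omega) w' rfl hval
      obtain ⟨a, ha⟩ : ∃ a, l = a + 2 := ⟨l - 2, by omega⟩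
      have h1 : w'.length + 1 ≤ a + 1 := by omega
      refine ⟨n + n', ?_, E4_trans hd (E4_mono ?_ hd')⟩
      · have h2 : n' ≤ 20 * (a + 1) ^ 3 := hn'.trans (Nat.mul_le_mul_left _ (Nat.pow_le_pow_left h1 3))
        rw [ha] at hn ⊢
        nlinarith [h2, hn]
      · refine Nat.mul_le_mul_left _ (Nat.pow_le_pow_left ?_ 2)
        omega
    · obtain ⟨v, rfl⟩ := E4_some w hu
      have h1 : FreeGroup.mk v = 1 := by
        rw [val_some] at hw
        refine HNNExtension.of_injective (φ := MulEquiv.refl (KL L)) ?_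
        rw [hw, map_one]
      have hvl : v.length = l := by rw [← hwl, List.length_map]
      obtain ⟨n, hn, hd⟩ := E4_del (L := L) (E4_red_nil h1) [] [] (20 * (l + 1) ^ 2) (by
        simp only [List.length_nil]
        nlinarith)
      refine ⟨n, ?_, ?_⟩
      · rw [hvl] at hn
        nlinarith [Nat.zero_le (l ^ 3), Nat.zero_le (l ^ 2)]
      · simp only [List.nil_append, List.append_nil] at hd
        exact hd

end Pool.Agent.Lib.MP_0f3a7d_alT
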