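import Mathlib
import Pool.Agent.Lib.MP_0f3a7d_alT.Defs5
import Pool.Agent.Lib.MP_0f3a7d_alT.C3

/-!
# MP_0f3a7d_al, leaf F1: conjugation on the tape

Let `s (st 2) = []` and `s (st 3) = x.map (fun a => inr (inl a))`. The passes `3 → 2` and `2 → 3` move the letters of `x`; the
first puts `(x.map _).reverse.flatMap (toW false) = (inv (xw x)).map inl` on `st 0`, the second `(xw x).map inl`. Together:
`(none, e') :: v` on `st 0` becomes `cw x e ++ (none, e') :: cw x (!e) ++ v`, `st 2`, `st 3` are as before, all other stacks too.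
The indices `st 0, st 2, st 3` are different (`st` is injective). Time: `1 + 4 (3 |x| + 1) + 3`. For `run_cjw` take any large space
bound (here `space s + 4 |x| + 4` is enough, `RunLe.pass` with `c = 1`).
-/

set_option autoImplicit false

namespace Pool.Agent.Lib.MP_0f3a7d_alT

variable {σ Γ : Type} [Finite σ] {k : ℕ}

private theorem F1_st_ne {a b : Fin 4} (h : a ≠ b) : (st a : Fin (4 + k + 1)) ≠ st b := by
  intro h1
  apply h
  have h2 := congrArg Fin.val h1
  exact Fin.ext h2

omit [Finite σ] in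
private theorem F1_blk {K : ℕ} {Δ : Type} (i0 i2 i3 : Fin K) (h02 : i0 ≠ i2) (h03 : i0 ≠ i3)
    (h23 : i2 ≠ i3) (f g : Δ → List Δ) (c : Δ) (X : List Δ) (S : Store K Δ) (hS2 : S i2 = [])
    (hS3 : S i3 = X) :
    passRes i2 i3 i0 g (Function.update (passRes i3 i2 i0 f S) i0 ([c] ++ passRes i3 i2 i0 f S i0)) =
      Function.update S i0 (X.flatMap g ++ c :: (X.reverse.flatMap f ++ S i0)) := by
  have hA0 : passRes i3 i2 i0 f S i0 = X.reverse.flatMap f ++ S i0 := by
    unfold passRes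
    rw [Function.update_of_ne h03, Function.update_of_ne h02, Function.update_self, hS3]
  have hA2 : passRes i3 i2 i0 f S i2 = X.reverse := by
    unfold passRes
    rw [Function.update_of_ne h23, Function.update_self, hS2, hS3, List.append_nil]
  have hA3 : passRes i3 i2 i0 f S i3 = [] := by
    unfold passRes
    rw [Function.update_self]
  have hAj : ∀ j, j ≠ i0 → j ≠ i2 → j ≠ i3 → passRes i3 i2 i0 f S j = S j := by
    intro j h0 h2 h3
    unfold passRes
    rw [Function.update_of_ne h3, Function.update_of_ne h2, Function.update_of_ne h0]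
  obtain ⟨B, hB⟩ : ∃ B, B = Function.update (passRes i3 i2 i0 f S) i0 ([c] ++ passRes i3 i2 i0 f S i0) :=
    ⟨_, rfl⟩
  have hB0 : B i0 = c :: (X.reverse.flatMap f ++ S i0) := by
    rw [hB, Function.update_self, hA0]
    rfl
  have hB2 : B i2 = X.reverse := by rw [hB, Function.update_of_ne h02.symm, hA2]
  have hB3 : B i3 = [] := by rw [hB, Function.update_of_ne h03.symm, hA3]
  have hBj : ∀ j, j ≠ i0 → j ≠ i2 → j ≠ i3 → B j = S j := by
    intro j h0 h2 h3
    rw [hB, Function.update_of_ne h0, hAj j h0 h2 h3]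
  rw [← hB]
  funext j
  unfold passRes
  by_cases h0 : j = i0
  · rw [h0, Function.update_of_ne h02, Function.update_of_ne h03, Function.update_self,
      Function.update_self, hB2, List.reverse_reverse, hB0]
  by_cases h2 : j = i2
  · rw [h2, Function.update_self, Function.update_of_ne h02.symm, hS2]
  by_cases h3 : j = i3
  · rw [h3, Function.update_of_ne h23.symm, Function.update_self, Function.update_of_ne h03.symm, hB2,
      hB3, List.reverse_reverse, List.append_nil, hS3]
  · rw [Function.update_of_ne h2, Function.update_of_ne h3, Function.update_of_ne h0,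
      Function.update_of_ne h0, hBj j h0 h2 h3]

omit [Finite σ] in
private theorem F1_true (x : List σ) :
    (x.map fun a => (Sum.inr (Sum.inl a) : Al σ Γ)).flatMap (toW true) = (xw x).map Sum.inl := by
  induction x with
  | nil => rfl
  | cons a x ih =>
    rw [List.map_cons, List.flatMap_cons, ih]
    rfl

omit [Finite σ] in
private theorem F1_false (x : List σ) :
    (x.map fun a => (Sum.inr (Sum.inl a) : Al σ Γ)).reverse.flatMap (toW false) =
      (inv (xw x)).map Sum.inl := by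
  induction x with
  | nil => rfl
  | cons a x ih =>
    rw [List.map_cons, List.reverse_cons, List.flatMap_append, ih]
    unfold inv xw
    rw [List.map_cons, List.map_cons, List.reverse_cons, List.map_append]
    rfl

omit [Finite σ] in
private theorem F1_eq {e : Bool} {x : List σ} (S : Store (4 + k + 1) (Al σ Γ)) (h2 : S (st 2) = [])
    (h3 : S (st 3) = x.map fun a => Sum.inr (Sum.inl a)) :
    passRes (st 2) (st 3) (st 0) (toW true) (Function.update (passRes (st 3) (st 2) (st 0) (toW false) S)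
      (st 0) ([Sum.inl (some none, e)] ++ passRes (st 3) (st 2) (st 0) (toW false) S (st 0))) =
      Function.update S (st 0) ((cw x e).map Sum.inl ++ S (st 0)) := by
  rw [F1_blk (st 0) (st 2) (st 3) (F1_st_ne (by decide)) (F1_st_ne (by decide)) (F1_st_ne (by decide))
    (toW false) (toW true) (Sum.inl (some none, e)) _ S h2 h3, F1_true, F1_false]
  unfold cw
  rw [List.map_append, List.map_cons, List.append_assoc, List.cons_append]

omit [Finite σ] in
private theorem F1_fin {e e' : Bool} {x : List σ} {s : Store (4 + k + 1) (Al σ Γ)}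
    (h2 : s (st 2) = []) (h3 : s (st 3) = x.map fun a => Sum.inr (Sum.inl a)) {v : List (Al σ Γ)}
    {S1 S2 S3 S4 : Store (4 + k + 1) (Al σ Γ)} (hS1 : S1 = Function.update s (st 0) v)
    (hS2 : S2 = Function.update S1 (st 0) ((cw x (!e)).map Sum.inl ++ S1 (st 0)))
    (hS3 : S3 = Function.update S2 (st 0) ([Sum.inl (none, e')] ++ S2 (st 0)))
    (hS4 : S4 = Function.update S3 (st 0) ((cw x e).map Sum.inl ++ S3 (st 0))) :
    (S1 (st 2) = [] ∧ S1 (st 3) = x.map fun a => Sum.inr (Sum.inl a)) ∧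
      (S3 (st 2) = [] ∧ S3 (st 3) = x.map fun a => Sum.inr (Sum.inl a)) ∧
      S4 = Function.update s (st 0) ((cw x e ++ (none, e') :: cw x (!e)).map Sum.inl ++ v) := by
  have n02 : (st 2 : Fin (4 + k + 1)) ≠ st 0 := F1_st_ne (by decide)
  have n03 : (st 3 : Fin (4 + k + 1)) ≠ st 0 := F1_st_ne (by decide)
  refine ⟨⟨?_, ?_⟩, ⟨?_, ?_⟩, ?_⟩
  · rw [hS1, Function.update_of_ne n02, h2]
  · rw [hS1, Function.update_of_ne n03, h3]
  · rw [hS3, Function.update_of_ne n02, hS2, Function.update_of_ne n02, hS1, Function.update_of_ne n02, h2]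
  · rw [hS3, Function.update_of_ne n03, hS2, Function.update_of_ne n03, hS1, Function.update_of_ne n03, h3]
  · rw [hS4, hS3, Function.update_self, Function.update_idem, hS2, Function.update_self,
      Function.update_idem, hS1, Function.update_self, Function.update_idem, List.map_append,
      List.map_cons]
    simp only [List.append_assoc, List.cons_append, List.nil_append]

private theorem F1_mem {x : List σ} : ∀ a ∈ (x.map fun a => (Sum.inr (Sum.inl a) : Al σ Γ)), a ∈ AS σ Γ := by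
  intro a ha
  rw [List.mem_map] at ha
  obtain ⟨b, -, rfl⟩ := ha
  exact List.mem_map.2 ⟨b, mem_allL b, rfl⟩

private theorem F1_seq {K : ℕ} {Δ : Type} {p q : Prog K Δ} {T T' : ℕ} {s s' s'' : Store K Δ}
    (h : ∃ B, RunLe B T p s s') (h' : ∃ B, RunLe B T' q s' s'') :
    ∃ B, RunLe B (T + T') (.seq p q) s s'' := by
  obtain ⟨B, hB⟩ := h
  obtain ⟨B', hB'⟩ := h'
  exact ⟨max B B', (hB.mono (le_max_left _ _) le_rfl).seq (hB'.mono (le_max_right _ _) le_rfl)⟩

private theorem F1_pass (i j : Fin 4) (hij : i ≠ j) (hi : i ≠ 0) (hj : j ≠ 0) (e : Bool)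
    (S : Store (4 + k + 1) (Al σ Γ)) (X : List (Al σ Γ)) (hX : S (st i) = X) (hm : ∀ a ∈ X, a ∈ AS σ Γ) :
    ∃ B, RunLe B (3 * X.length + 1) (pass (AS σ Γ) (st i) (st j) (st 0) (toW e)) S
      (passRes (st i) (st j) (st 0) (toW e) S) := by
  refine ⟨space S + 1 * (S (st i)).length, ?_⟩
  have h := RunLe.pass (s := S) (A := AS σ Γ) (f := toW e) (F1_st_ne hij : (st i : Fin (4 + k + 1)) ≠ st j)
    (F1_st_ne hi) (F1_st_ne hj) (by rw [hX]; exact hm) (b := space S + 1 * (S (st i)).length) (c := 1)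
    (by
      intro a ha
      obtain ⟨b, -, rfl⟩ := List.mem_map.1 ha
      exact le_rfl) le_rfl
  rw [hX] at h
  rw [hX]
  exact h

theorem sem_cjw {e e' : Bool} {x : List σ} {s s' : Store (4 + k + 1) (Al σ Γ)} (h2 : s (st 2) = [])
    (h3 : s (st 3) = x.map fun a => Sum.inr (Sum.inl a)) (h : Sem (cjw σ Γ k e e') s s') :
    ∃ v, s (st 0) = Sum.inl (none, e') :: v ∧
      s' = Function.update s (st 0) ((cw x e ++ (none, e') :: cw x (!e)).map Sum.inl ++ v) := by
  have n02 : (st 0 : Fin (4 + k + 1)) ≠ st 2 := F1_st_ne (by decide)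
  have n03 : (st 0 : Fin (4 + k + 1)) ≠ st 3 := F1_st_ne (by decide)
  have n23 : (st 2 : Fin (4 + k + 1)) ≠ st 3 := F1_st_ne (by decide)
  unfold cjw at h
  simp only [seqs] at h
  obtain ⟨S1, h1, h⟩ := sem_seq.1 h
  obtain ⟨v, hv, hS1⟩ := sem_popW.1 h1
  obtain ⟨A1, hA1, h⟩ := sem_seq.1 h
  obtain ⟨A2, hA2, h⟩ := sem_seq.1 h
  obtain ⟨A3, hA3, h⟩ := sem_seq.1 h
  obtain ⟨A4, hA4, h⟩ := sem_seq.1 h
  obtain ⟨A5, hA5, h⟩ := sem_seq.1 h
  obtain ⟨A6, hA6, h⟩ := sem_seq.1 h
  obtain ⟨A7, hA7, h⟩ := sem_seq.1 h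
  have h8 := sem_one.1 h
  have e1 := (sem_pass n23.symm n03.symm n02.symm hA1).2
  have e2 := sem_pushW.1 hA2
  have e3 := (sem_pass n23 n02.symm n03.symm hA3).2
  have e4 := sem_pushW.1 hA4
  have e5 := (sem_pass n23.symm n03.symm n02.symm hA5).2
  have e6 := sem_pushW.1 hA6
  have e7 := (sem_pass n23 n02.symm n03.symm hA7).2
  have h12 : S1 (st 2) = [] := by rw [hS1, Function.update_of_ne n02.symm, h2]
  have h13 : S1 (st 3) = x.map fun a => Sum.inr (Sum.inl a) := by
    rw [hS1, Function.update_of_ne n03.symm, h3]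
  have f3 : A3 = Function.update S1 (st 0) ((cw x (!e)).map Sum.inl ++ S1 (st 0)) := by
    rw [e3, e2, e1]
    exact F1_eq S1 h12 h13
  have h42 : A4 (st 2) = [] := by
    rw [e4, Function.update_of_ne n02.symm, f3, Function.update_of_ne n02.symm, h12]
  have h43 : A4 (st 3) = x.map fun a => Sum.inr (Sum.inl a) := by
    rw [e4, Function.update_of_ne n03.symm, f3, Function.update_of_ne n03.symm, h13]
  have f7 : A7 = Function.update A4 (st 0) ((cw x e).map Sum.inl ++ A4 (st 0)) := by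
    rw [e7, e6, e5]
    exact F1_eq A4 h42 h43
  refine ⟨v, hv, ?_⟩
  rw [h8]
  exact (F1_fin h2 h3 hS1 f3 e4 f7).2.2

theorem run_cjw {e e' : Bool} {x : List σ} {s : Store (4 + k + 1) (Al σ Γ)} (h2 : s (st 2) = [])
    (h3 : s (st 3) = x.map fun a => Sum.inr (Sum.inl a)) {v : List (Al σ Γ)}
    (h0 : s (st 0) = Sum.inl (none, e') :: v) :
    ∃ B, RunLe B (12 * x.length + 8) (cjw σ Γ k e e') s
      (Function.update s (st 0) ((cw x e ++ (none, e') :: cw x (!e)).map Sum.inl ++ v)) := by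
  obtain ⟨S1, hS1⟩ : ∃ S1, S1 = Function.update s (st 0) v := ⟨_, rfl⟩
  obtain ⟨S2, hS2⟩ : ∃ S2, S2 = Function.update S1 (st 0) ((cw x (!e)).map Sum.inl ++ S1 (st 0)) := ⟨_, rfl⟩
  obtain ⟨S3, hS3⟩ : ∃ S3, S3 = Function.update S2 (st 0) ([Sum.inl (none, e')] ++ S2 (st 0)) := ⟨_, rfl⟩
  obtain ⟨S4, hS4⟩ : ∃ S4, S4 = Function.update S3 (st 0) ((cw x e).map Sum.inl ++ S3 (st 0)) := ⟨_, rfl⟩
  obtain ⟨⟨h12, h13⟩, ⟨h32, h33⟩, hfin⟩ := F1_fin h2 h3 hS1 hS2 hS3 hS4
  have n02 : (st 0 : Fin (4 + k + 1)) ≠ st 2 := F1_st_ne (by decide)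
  have n03 : (st 0 : Fin (4 + k + 1)) ≠ st 3 := F1_st_ne (by decide)
  have n23 : (st 2 : Fin (4 + k + 1)) ≠ st 3 := F1_st_ne (by decide)
  -- one block
  have blk : ∀ (c : Bool) (S : Store (4 + k + 1) (Al σ Γ)) (T : ℕ) (r : Prog (4 + k + 1) (Al σ Γ))
      (R : Store (4 + k + 1) (Al σ Γ)), S (st 2) = [] →
      S (st 3) = (x.map fun a => Sum.inr (Sum.inl a)) →
      (∃ B, RunLe B T r (Function.update S (st 0) ((cw x c).map Sum.inl ++ S (st 0))) R) →
      ∃ B, RunLe B (3 * x.length + 1 + (1 + (3 * x.length + 1 + T)))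
        (.seq (pass (AS σ Γ) (st 3) (st 2) (st 0) (toW false)) (.seq (pushW (st 0) [Sum.inl (some none, c)])
          (.seq (pass (AS σ Γ) (st 2) (st 3) (st 0) (toW true)) r))) S R := by
    intro c S T r R hA hB hR
    have hlen : (x.map fun a => (Sum.inr (Sum.inl a) : Al σ Γ)).length = x.length := List.length_map _
    have g1 := F1_pass 3 2 (by decide) (by decide) (by decide) false S _ hB F1_mem
    rw [hlen] at g1
    refine F1_seq g1 (F1_seq ⟨_, RunLe.pushW (w := [Sum.inl (some none, c)]) le_rfl⟩ (F1_seq ?_ (F1_eq S hA hB ▸ hR)))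
    have k2 : (Function.update (passRes (st 3) (st 2) (st 0) (toW false) S) (st 0)
        ([Sum.inl (some none, c)] ++ passRes (st 3) (st 2) (st 0) (toW false) S (st 0))) (st 2) =
        (x.map fun a => (Sum.inr (Sum.inl a) : Al σ Γ)).reverse := by
      rw [Function.update_of_ne n02.symm]
      unfold passRes
      rw [Function.update_of_ne n23, Function.update_self, hA, hB, List.append_nil]
    have g2 := F1_pass 2 3 (by decide) (by decide) (by decide) true _ _ k2 (by
      intro a ha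
      exact F1_mem a (List.mem_reverse.1 ha))
    rw [List.length_reverse, hlen] at g2
    exact g2
  have g8 := blk e S3 0 .one S4 h32 h33 (by
    rw [← hS4]
    exact ⟨_, RunLe.one le_rfl⟩)
  have g5 := F1_seq (p := pushW (st 0) [Sum.inl (none, e')]) (T := 1) (s := S2)
    ⟨_, RunLe.pushW (w := [Sum.inl (none, e')]) le_rfl⟩ (hS3 ▸ g8)
  have g2 := blk (!e) S1 _ _ S4 h12 h13 (hS2 ▸ g5)
  have g1 := F1_seq (p := popW (st 0) [Sum.inl (none, e')]) (T := 1) (s := s)
    ⟨_, RunLe.popW (w := [Sum.inl (none, e')]) (l := v) h0 le_rfl⟩ (hS1 ▸ g2)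
  obtain ⟨B, hB⟩ := g1
  refine ⟨B, ?_⟩
  rw [← hfin]
  refine RunLe.mono le_rfl ?_ hB
  omega

end Pool.Agent.Lib.MP_0f3a7d_alT
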