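import Mathlib
import Pool.Agent.Lib.MP_0f3a7d_alT.F1
import Pool.Agent.Lib.MP_0f3a7d_alT.C5

/-!
# MP_0f3a7d_al, leaf F2: guess `x ∈ L` and conjugate

`sem_cj`: `guess` puts a word over `AS` on `st 2`, i.e. `y.map (inr ∘ inl)`; let `x = y.reverse`. `sem_pass`: `st 2` empty,
`st 3 = x.map (inr ∘ inl)`, `eL 0 = (x.map inp).map (inr ∘ inr)`, and the other `eL i` are empty: this is the image of `M.init x`
(`i = 0` or not), so `sem_emb` gives a run of `M.prog` from `M.init x`, i.e. `M.Acc x t b`. The `clear`s empty the `eL i` (all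
of them; other stacks unchanged), then `sem_alts`, `sem_cjw`, and `clear` empties `st 3`. All stacks are as before, up to `st 0`
(`Clean s`; compare the stores index by index: every index is `st j` or `eL i`).
`run_cj`: put `x.reverse` in `guess`. Times: `|x|`, `3 |x| + 1`, `t`, `∑ (|s' (eL i)| + 1) ≤ |x| + t + k + 1` (`run_space_le`),
`12 |x| + 8`, `|x| + 1`. Take a common space bound (`RunLe.mono`).
-/

set_option autoImplicit false

namespace Pool.Agent.Lib.MP_0f3a7d_alT

/-! ### indices -/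

private theorem F2_st_ne {k : ℕ} {i j : Fin 4} (h : i ≠ j) : (st i : Fin (4 + k + 1)) ≠ st j := by
  intro h'
  have h1 := congrArg Fin.val h'
  exact h (Fin.ext h1)

private theorem F2_st_eL {k : ℕ} (i : Fin 4) (j : Fin (k + 1)) : (st i : Fin (4 + k + 1)) ≠ eL j := by
  intro h'
  have h1 : i.1 = 4 + j.1 := congrArg Fin.val h'
  have h2 := i.2
  omega

private theorem F2_eL_inj {k : ℕ} : Function.Injective (eL : Fin (k + 1) → Fin (4 + k + 1)) := by
  intro i j h
  have h1 : 4 + i.1 = 4 + j.1 := congrArg Fin.val h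
  exact Fin.ext (by omega)

private theorem F2_cases {k : ℕ} (j : Fin (4 + k + 1)) :
    j = st 0 ∨ j = st 1 ∨ j = st 2 ∨ j = st 3 ∨ ∃ i : Fin (k + 1), j = eL i := by
  have hj := j.2
  by_cases h : j.1 < 4
  · have h1 : j.1 = 0 ∨ j.1 = 1 ∨ j.1 = 2 ∨ j.1 = 3 := by omega
    rcases h1 with h1 | h1 | h1 | h1
    · exact Or.inl (Fin.ext h1)
    · exact Or.inr (Or.inl (Fin.ext h1))
    · exact Or.inr (Or.inr (Or.inl (Fin.ext h1)))
    · exact Or.inr (Or.inr (Or.inr (Or.inl (Fin.ext h1))))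
  · refine Or.inr (Or.inr (Or.inr (Or.inr ⟨⟨j.1 - 4, by omega⟩, Fin.ext ?_⟩)))
    show j.1 = 4 + (j.1 - 4)
    omega

private theorem F2_up {k : ℕ} {Γ : Type} (s : Store k Γ) {i j : Fin k} (h : j ≠ i) (w : List Γ) :
    Function.update s i w j = s j := Function.update_of_ne h _ _

/-! ### runs with some space bound -/

private def F2_R {k : ℕ} {Γ : Type} (T : ℕ) (p : Prog k Γ) (s s' : Store k Γ) : Prop := ∃ B, RunLe B T p s s'

private theorem F2_R.mono {k : ℕ} {Γ : Type} {T T' : ℕ} {p : Prog k Γ} {s s' : Store k Γ} (h : F2_R T p s s') (hT : T ≤ T') :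
    F2_R T' p s s' := by
  obtain ⟨B, hB⟩ := h
  exact ⟨B, hB.mono le_rfl hT⟩

private theorem F2_R.seq {k : ℕ} {Γ : Type} {T T' : ℕ} {p q : Prog k Γ} {s s' s'' : Store k Γ} (h : F2_R T p s s')
    (h' : F2_R T' q s' s'') : F2_R (T + T') (.seq p q) s s'' := by
  obtain ⟨B, hB⟩ := h
  obtain ⟨B', hB'⟩ := h'
  exact ⟨max B B', (hB.mono (le_max_left _ _) le_rfl).seq (hB'.mono (le_max_right _ _) le_rfl)⟩

private theorem F2_R.one {k : ℕ} {Γ : Type} (s : Store k Γ) : F2_R 0 (.one : Prog k Γ) s s :=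
  ⟨space s, RunLe.one le_rfl⟩

/-! ### the stacks of `M` are emptied -/

open Classical in
private noncomputable def F2_cl {k m : ℕ} {Γ : Type} (g : Fin m → Fin k) (l : List (Fin m)) (s : Store k Γ) : Store k Γ :=
  fun j => if ∃ i ∈ l, g i = j then [] else s j

private theorem F2_cl_nil {k m : ℕ} {Γ : Type} (g : Fin m → Fin k) (s : Store k Γ) : F2_cl g [] s = s := by
  funext j
  refine if_neg ?_
  rintro ⟨i, hi, _⟩
  exact List.not_mem_nil hi

private theorem F2_cl_cons {k m : ℕ} {Γ : Type} (g : Fin m → Fin k) (a : Fin m) (l : List (Fin m)) (s : Store k Γ) :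
    F2_cl g l (Function.update s (g a) []) = F2_cl g (a :: l) s := by
  funext j
  unfold F2_cl
  by_cases h : ∃ i ∈ l, g i = j
  · rw [if_pos h, if_pos (by
      obtain ⟨i, hi, hij⟩ := h
      exact ⟨i, List.mem_cons_of_mem _ hi, hij⟩)]
  · rw [if_neg h]
    by_cases h' : j = g a
    · rw [if_pos ⟨a, List.mem_cons_self, h'.symm⟩, h', Function.update_self]
    · rw [if_neg (by
        rintro ⟨i, hi, hij⟩
        rcases List.mem_cons.1 hi with hi | hi
        · exact h' (by rw [← hij, hi])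
        · exact h ⟨i, hi, hij⟩), F2_up s h']

private theorem F2_sem_clears {k m : ℕ} {Γ : Type} (A : List Γ) (g : Fin m → Fin k) (l : List (Fin m)) :
    ∀ (s s' : Store k Γ), Sem (seqs (l.map fun i => clear A (g i))) s s' → s' = F2_cl g l s := by
  induction l with
  | nil =>
    intro s s' h
    rw [F2_cl_nil]
    exact sem_one.1 h
  | cons a l ih =>
    intro s s' h
    obtain ⟨s₁, h1, h2⟩ := sem_seq.1 h
    rw [sem_clear h1] at h2
    rw [ih _ _ h2, F2_cl_cons]

private theorem F2_run_clears {k m : ℕ} {Γ : Type} (A : List Γ) (g : Fin m → Fin k) (l : List (Fin m)) :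
    ∀ (s : Store k Γ), (∀ i, ∀ a ∈ s (g i), a ∈ A) →
      F2_R ((l.map fun i => (s (g i)).length + 1).sum) (seqs (l.map fun i => clear A (g i))) s (F2_cl g l s) := by
  induction l with
  | nil =>
    intro s _
    rw [F2_cl_nil]
    exact F2_R.one s
  | cons a l ih =>
    intro s hA
    have h1 : F2_R ((s (g a)).length + 1) (clear A (g a)) s (Function.update s (g a) []) :=
      ⟨space s, RunLe.clear (hA a) le_rfl⟩
    have h2 := ih (Function.update s (g a) []) (by
      intro i b hb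
      by_cases h : g i = g a
      · rw [h, Function.update_self] at hb
        exact absurd hb List.not_mem_nil
      · rw [F2_up s h] at hb
        exact hA i b hb)
    rw [F2_cl_cons] at h2
    refine (h1.seq h2).mono ?_
    rw [List.map_cons, List.sum_cons]
    refine Nat.add_le_add_left (List.sum_le_sum fun i _ => ?_) _
    by_cases h : g i = g a
    · rw [h, Function.update_self]
      exact Nat.add_le_add_right (Nat.zero_le _) _
    · rw [F2_up s h]

private theorem F2_cl_eL {k : ℕ} {Γ : Type} (s : Store (4 + k + 1) Γ) (i : Fin (k + 1)) :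
    F2_cl eL (List.finRange (k + 1)) s (eL i) = [] :=
  if_pos ⟨i, List.mem_finRange i, rfl⟩

private theorem F2_cl_st {k : ℕ} {Γ : Type} (s : Store (4 + k + 1) Γ) (i : Fin 4) :
    F2_cl (eL : Fin (k + 1) → Fin (4 + k + 1)) (List.finRange (k + 1)) s (st i) = s (st i) := by
  refine if_neg ?_
  rintro ⟨j, _, hj⟩
  exact F2_st_eL i j hj.symm

variable {σ : Type} [Finite σ] (M : Machine σ)

/-- the stores after the first two steps -/
private noncomputable def F2_s2 (x : List σ) (s : Store (4 + M.k + 1) (Al σ M.Γ)) : Store (4 + M.k + 1) (Al σ M.Γ) :=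
  passRes (st 2) (st 3) (eL 0) (toM M.inp)
    (Function.update s (st 2) ((x.reverse.map fun a => Sum.inr (Sum.inl a)) ++ s (st 2)))

omit [Finite σ] in
private theorem F2_s2_spec (x : List σ) {s : Store (4 + M.k + 1) (Al σ M.Γ)} (hs : Clean s) :
    F2_s2 M x s (st 0) = s (st 0) ∧ F2_s2 M x s (st 1) = s (st 1) ∧ F2_s2 M x s (st 2) = [] ∧
      F2_s2 M x s (st 3) = (x.map fun a => Sum.inr (Sum.inl a)) ∧
      ∀ i, F2_s2 M x s (eL i) = (M.init x i).map fun a => Sum.inr (Sum.inr a) := by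
  obtain ⟨h2, h3, h4⟩ := hs
  have e2 : (st 0 : Fin (4 + M.k + 1)) ≠ st 2 := F2_st_ne (by decide)
  have e3 : (st 0 : Fin (4 + M.k + 1)) ≠ st 3 := F2_st_ne (by decide)
  have e4 : (st 1 : Fin (4 + M.k + 1)) ≠ st 2 := F2_st_ne (by decide)
  have e5 : (st 1 : Fin (4 + M.k + 1)) ≠ st 3 := F2_st_ne (by decide)
  have e6 : (st 3 : Fin (4 + M.k + 1)) ≠ st 2 := F2_st_ne (by decide)
  have e7 : ∀ i : Fin 4, (st i : Fin (4 + M.k + 1)) ≠ eL 0 := fun i => F2_st_eL i 0
  have e8 : ∀ (i : Fin 4) (j : Fin (M.k + 1)), (eL j : Fin (4 + M.k + 1)) ≠ st i := fun i j => (F2_st_eL i j).symm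
  have hrev : ((x.reverse.map fun a => (Sum.inr (Sum.inl a) : Al σ M.Γ)) ++ s (st 2)).reverse =
      x.map fun a => Sum.inr (Sum.inl a) := by
    rw [h2, List.append_nil, List.map_reverse, List.reverse_reverse]
  unfold F2_s2 passRes
  refine ⟨?_, ?_, ?_, ?_, fun i => ?_⟩
  · rw [F2_up _ e2, F2_up _ e3, F2_up _ (e7 0), F2_up _ e2]
  · rw [F2_up _ e4, F2_up _ e5, F2_up _ (e7 1), F2_up _ e4]
  · rw [Function.update_self]
  · rw [F2_up _ e6, Function.update_self, Function.update_self, hrev, F2_up _ e6, h3, List.append_nil]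
  · rw [F2_up _ (e8 2 i), F2_up _ (e8 3 i)]
    by_cases hi : i = 0
    · subst hi
      rw [Function.update_self, Function.update_self, hrev, F2_up _ (e8 2 0), h4 0, List.append_nil]
      have e9 : M.init x 0 = x.map M.inp := if_pos rfl
      rw [e9, List.map_map]
      induction x with
      | nil => rfl
      | cons a x ih =>
        have ih' : List.flatMap (toM M.inp) (x.map fun a => (Sum.inr (Sum.inl a) : Al σ M.Γ)) =
            List.map ((fun a => (Sum.inr (Sum.inr a) : Al σ M.Γ)) ∘ M.inp) x := by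
          refine ih ?_ ?_
          · rw [h2, List.append_nil, List.map_reverse, List.reverse_reverse]
          · exact if_pos rfl
        rw [List.map_cons, List.flatMap_cons, ih', List.map_cons]
        rfl
    · have e9 : (eL i : Fin (4 + M.k + 1)) ≠ eL 0 := fun h => hi (F2_eL_inj h)
      rw [F2_up _ e9, F2_up _ (e8 2 i), h4 i]
      have e10 : M.init x i = [] := if_neg hi
      rw [e10]
      rfl

omit [Finite σ] in
private theorem F2_fin {s s4 : Store (4 + M.k + 1) (Al σ M.Γ)} (hs : Clean s) (h1 : s4 (st 1) = s (st 1)) (h2 : s4 (st 2) = [])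
    (h4 : ∀ i : Fin (M.k + 1), s4 (eL i) = []) (w : List (Al σ M.Γ)) :
    Function.update (Function.update s4 (st 0) w) (st 3) [] = Function.update s (st 0) w := by
  obtain ⟨a2, a3, a4⟩ := hs
  funext j
  rcases F2_cases j with rfl | rfl | rfl | rfl | ⟨i, rfl⟩
  · rw [F2_up _ (F2_st_ne (by decide)), Function.update_self, Function.update_self]
  · rw [F2_up _ (F2_st_ne (by decide)), F2_up _ (F2_st_ne (by decide)), F2_up _ (F2_st_ne (by decide)), h1]
  · rw [F2_up _ (F2_st_ne (by decide)), F2_up _ (F2_st_ne (by decide)), F2_up _ (F2_st_ne (by decide)), h2, a2]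
  · rw [Function.update_self, F2_up _ (F2_st_ne (by decide)), a3]
  · rw [F2_up _ (F2_st_eL 3 i).symm, F2_up _ (F2_st_eL 0 i).symm, F2_up _ (F2_st_eL 0 i).symm, h4, a4]

private theorem F2_exists_map (u : List (Al σ M.Γ)) (hu : ∀ a ∈ u, a ∈ AS σ M.Γ) :
    ∃ y : List σ, u = y.map fun a => Sum.inr (Sum.inl a) := by
  induction u with
  | nil => exact ⟨[], rfl⟩
  | cons a u ih =>
    obtain ⟨y, hy⟩ := ih fun b hb => hu b (List.mem_cons_of_mem _ hb)
    obtain ⟨b, _, hb⟩ := List.mem_map.1 (hu a List.mem_cons_self)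
    exact ⟨b :: y, by rw [List.map_cons, ← hy, hb]⟩

private theorem F2_mem_AS (x : List σ) : ∀ a ∈ (x.map fun a => (Sum.inr (Sum.inl a) : Al σ M.Γ)), a ∈ AS σ M.Γ := by
  intro a ha
  obtain ⟨b, _, hb⟩ := List.mem_map.1 ha
  exact List.mem_map.2 ⟨b, mem_allL b, hb⟩

theorem sem_cj {s s' : Store (4 + M.k + 1) (Al σ M.Γ)} (hs : Clean s) (h : Sem (cj M) s s') :
    ∃ (x : List σ) (e e' : Bool) (v : List (Al σ M.Γ)), (∃ t b, M.Acc x t b) ∧
      s (st 0) = Sum.inl (none, e') :: v ∧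
      s' = Function.update s (st 0) ((cw x e ++ (none, e') :: cw x (!e)).map Sum.inl ++ v) := by
  have hfin := M.fin
  obtain ⟨s1, g1, h⟩ := sem_seq.1 h
  obtain ⟨s2, g2, h⟩ := sem_seq.1 h
  obtain ⟨s3, g3, h⟩ := sem_seq.1 h
  obtain ⟨s4, g4, h⟩ := sem_seq.1 h
  obtain ⟨s5, g5, h⟩ := sem_seq.1 h
  obtain ⟨s6, g6, h⟩ := sem_seq.1 h
  have h := sem_one.1 h
  subst h
  obtain ⟨u, hu, hs1⟩ := sem_guess g1
  obtain ⟨y, hy⟩ := F2_exists_map M u hu
  have hx : u = (y.reverse.reverse.map fun a => (Sum.inr (Sum.inl a) : Al σ M.Γ)) := by rw [List.reverse_reverse, hy]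
  have hs2 : s2 = F2_s2 M y.reverse s := by
    have h1 := (sem_pass (F2_st_ne (by decide)) (F2_st_eL 2 0) (F2_st_eL 3 0) g2).2
    rw [h1, hs1, hx]
    rfl
  obtain ⟨b0, b1, b2, b3, b4⟩ := F2_s2_spec M y.reverse hs
  rw [← hs2] at b0 b1 b2 b3 b4
  obtain ⟨s₀', ⟨b, t, hrun⟩, -, c2⟩ := sem_emb F2_eL_inj (fun a b hab => Sum.inr_injective (Sum.inr_injective hab)) g3
    (M.init y.reverse) b4
  have c3 : ∀ i : Fin 4, s3 (st i) = s2 (st i) := fun i => c2 (st i) fun j hj => F2_st_eL i j hj.symm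
  have hs4 := F2_sem_clears _ _ _ _ _ g4
  have d : ∀ i : Fin 4, s4 (st i) = s2 (st i) := by
    intro i
    rw [hs4, F2_cl_st, c3]
  have d4 : ∀ i : Fin (M.k + 1), s4 (eL i) = [] := by
    intro i
    rw [hs4, F2_cl_eL]
  obtain ⟨p, hp, g5⟩ := sem_alts.1 g5
  have key : ∃ e e', Sem (cjw σ M.Γ M.k e e') s4 s5 := by
    rcases List.mem_cons.1 hp with hp | hp
    · exact ⟨true, true, hp ▸ g5⟩
    rcases List.mem_cons.1 hp with hp | hp
    · exact ⟨true, false, hp ▸ g5⟩
    rcases List.mem_cons.1 hp with hp | hp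
    · exact ⟨false, true, hp ▸ g5⟩
    rcases List.mem_cons.1 hp with hp | hp
    · exact ⟨false, false, hp ▸ g5⟩
    · exact absurd hp List.not_mem_nil
  obtain ⟨e, e', g5⟩ := key
  obtain ⟨v, hv, hs5⟩ := sem_cjw ((d 2).trans b2) ((d 3).trans b3) g5
  refine ⟨y.reverse, e, e', v, ⟨t, b, s₀', hrun⟩, ?_, ?_⟩
  · rw [← hv, d 0, b0]
  · rw [sem_clear g6, hs5]
    exact F2_fin M hs ((d 1).trans b1) ((d 2).trans b2) d4 _

theorem run_cj {s : Store (4 + M.k + 1) (Al σ M.Γ)} (hs : Clean s) {x : List σ} {t b : ℕ}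
    (hx : M.Acc x t b) (e e' : Bool) {v : List (Al σ M.Γ)} (h0 : s (st 0) = Sum.inl (none, e') :: v) :
    ∃ B, RunLe B (20 * x.length + 2 * t + M.k + 20) (cj M) s
      (Function.update s (st 0) ((cw x e ++ (none, e') :: cw x (!e)).map Sum.inl ++ v)) := by
  have hfin := M.fin
  obtain ⟨s₀', hrun⟩ := hx
  obtain ⟨b0, b1, b2, b3, b4⟩ := F2_s2_spec M x hs
  -- guess
  have r1 : F2_R x.length (guess (AS σ M.Γ) (st 2)) s
      (Function.update s (st 2) ((x.reverse.map fun a => Sum.inr (Sum.inl a)) ++ s (st 2))) := by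
    have h1 := RunLe.guess (s := s) (i := st 2) (b := space s + (x.reverse.map fun a => (Sum.inr (Sum.inl a) : Al σ M.Γ)).length)
      (F2_mem_AS M x.reverse) le_rfl
    rw [List.length_map, List.length_reverse] at h1
    exact ⟨_, h1⟩
  -- pass
  have r2 : F2_R (3 * x.length + 1) (pass (AS σ M.Γ) (st 2) (st 3) (eL 0) (toM M.inp))
      (Function.update s (st 2) ((x.reverse.map fun a => Sum.inr (Sum.inl a)) ++ s (st 2))) (F2_s2 M x s) := by
    have e1 : (Function.update s (st 2) ((x.reverse.map fun a => (Sum.inr (Sum.inl a) : Al σ M.Γ)) ++ s (st 2))) (st 2) =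
        x.reverse.map fun a => Sum.inr (Sum.inl a) := by
      rw [Function.update_self, hs.1, List.append_nil]
    have h1 := RunLe.pass (s := Function.update s (st 2) ((x.reverse.map fun a => (Sum.inr (Sum.inl a) : Al σ M.Γ)) ++ s (st 2)))
      (A := AS σ M.Γ) (f := toM M.inp) (F2_st_ne (by decide)) (F2_st_eL 2 0) (F2_st_eL 3 0)
      (by rw [e1]; exact F2_mem_AS M x.reverse) (c := 1) (by
        intro a ha
        obtain ⟨b, _, rfl⟩ := List.mem_map.1 ha
        exact le_rfl) le_rfl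
    rw [e1, List.length_map, List.length_reverse] at h1
    exact ⟨_, h1⟩
  -- the machine
  obtain ⟨s3, hr3, c1, c2, -⟩ := run_emb F2_eL_inj hrun (F2_s2 M x s) b4 (space (F2_s2 M x s) + b) (Nat.le_add_right _ _)
  have r3 : F2_R t (embP eL (fun a => Sum.inr (Sum.inr a)) M.prog) (F2_s2 M x s) s3 := ⟨_, t, le_rfl, hr3⟩
  have c3 : ∀ i : Fin 4, s3 (st i) = F2_s2 M x s (st i) := fun i => c2 (st i) fun j hj => F2_st_eL i j hj.symm
  -- clear
  have r4 := F2_run_clears (AM σ M.Γ) eL (List.finRange (M.k + 1)) s3 (by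
    intro i a ha
    rw [c1] at ha
    obtain ⟨b, _, hb⟩ := List.mem_map.1 ha
    exact List.mem_map.2 ⟨b, mem_allL b, hb⟩)
  have hsum : ((List.finRange (M.k + 1)).map fun i => (s3 (eL i)).length + 1).sum ≤ x.length + t + (M.k + 1) := by
    rw [← Fin.sum_univ_def (fun i : Fin (M.k + 1) => (s3 (eL i)).length + 1), Finset.sum_add_distrib, Finset.sum_const,
      Finset.card_univ, Fintype.card_fin, smul_eq_mul, mul_one]
    refine Nat.add_le_add_right ?_ _
    have h1 : ∑ i : Fin (M.k + 1), (s3 (eL i)).length = space s₀' :=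
      Finset.sum_congr rfl fun i _ => by rw [c1, List.length_map]
    have h2 : space (M.init x) = x.length := by
      unfold space
      rw [Finset.sum_eq_single 0]
      · have h3 : M.init x 0 = x.map M.inp := if_pos rfl
        rw [h3, List.length_map]
      · intro i _ hi
        have h3 : M.init x i = [] := if_neg hi
        rw [h3]
        rfl
      · intro h3
        exact absurd (Finset.mem_univ _) h3
    rw [h1, ← h2]
    exact run_space_le hrun
  have d : ∀ i : Fin 4, F2_cl (eL : Fin (M.k + 1) → Fin (4 + M.k + 1)) (List.finRange (M.k + 1)) s3 (st i) =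
      F2_s2 M x s (st i) := by
    intro i
    rw [F2_cl_st, c3]
  -- conjugate
  obtain ⟨B5, r5⟩ := run_cjw (e := e) (e' := e') ((d 2).trans b2) ((d 3).trans b3) ((d 0).trans (b0.trans h0))
  have r5' : F2_R (12 * x.length + 8) (alts [cjw σ M.Γ M.k true true, cjw σ M.Γ M.k true false, cjw σ M.Γ M.k false true,
      cjw σ M.Γ M.k false false]) _ _ := ⟨B5, RunLe.alts (p := cjw σ M.Γ M.k e e') (by
    cases e <;> cases e' <;> simp) r5⟩
  -- forget
  have e3 : (Function.update (F2_cl (eL : Fin (M.k + 1) → Fin (4 + M.k + 1)) (List.finRange (M.k + 1)) s3) (st 0)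
      ((cw x e ++ (none, e') :: cw x (!e)).map Sum.inl ++ v)) (st 3) = x.map fun a => Sum.inr (Sum.inl a) := by
    rw [F2_up _ (F2_st_ne (by decide)), d 3, b3]
  have r6 : F2_R (x.length + 1) (clear (AS σ M.Γ) (st 3)) (Function.update (F2_cl (eL : Fin (M.k + 1) → Fin (4 + M.k + 1))
      (List.finRange (M.k + 1)) s3) (st 0) ((cw x e ++ (none, e') :: cw x (!e)).map Sum.inl ++ v))
      (Function.update s (st 0) ((cw x e ++ (none, e') :: cw x (!e)).map Sum.inl ++ v)) := by
    have h1 := RunLe.clear (A := AS σ M.Γ) (i := st 3) (s := Function.update (F2_cl (eL : Fin (M.k + 1) → Fin (4 + M.k + 1))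
      (List.finRange (M.k + 1)) s3) (st 0) ((cw x e ++ (none, e') :: cw x (!e)).map Sum.inl ++ v))
      (by rw [e3]; exact F2_mem_AS M x) le_rfl
    rw [e3, List.length_map, F2_fin M hs ((d 1).trans b1) ((d 2).trans b2) (F2_cl_eL s3)] at h1
    exact ⟨_, h1⟩
  have r := r1.seq (r2.seq (r3.seq (r4.seq (r5'.seq (r6.seq (F2_R.one _))))))
  exact r.mono (by omega)

end Pool.Agent.Lib.MP_0f3a7d_alT
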