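import Mathlib
import Pool.Agent.Lib.MP_0f3a7d_alT.F2
import Pool.Agent.Lib.MP_0f3a7d_alT.C4

/-!
# MP_0f3a7d_al, leaf F3: the loop of the machine for the word problem

`sem_wpP`: `sem_star` and induction on `ReflTransGen`; one round keeps `Clean s`, and the tape `w.map inl` becomes `w'.map inl` with
`w' = w` (`mv`, `sem_mv`) or `GStep L b w w'` for some `b` (`sem_rule`, `sem_cj`), so the value is kept; in the end the tape is
empty. (`List.map_eq_append_iff`; `Sum.inl` is injective.)
`run_wpP`: induction on the derivation, for all clean stores with tape `w.map inl`. A round: `RunLe.mv` to the place of the step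
(`≤ 2 b`), then `RunLe.rule` (time `2`) or `run_cj` (`≤ 20 b + 2 c (b + 1) ^ c + k + 20`). Space bounds: take maxima.
-/

set_option autoImplicit false

namespace Pool.Agent.Lib.MP_0f3a7d_alT

variable {σ : Type} [Finite σ] (M : Machine σ) {L : Set (List σ)}

private theorem F3_st {k : ℕ} {i j : Fin 4} (h : i ≠ j) : (st i : Fin (4 + k + 1)) ≠ st j := by
  intro h1
  apply h
  have h2 : (st i : Fin (4 + k + 1)).val = (st j : Fin (4 + k + 1)).val := congrArg Fin.val h1
  exact Fin.ext h2

private theorem F3_eL {k : ℕ} (i : Fin (k + 1)) (j : Fin 4) : (eL i : Fin (4 + k + 1)) ≠ st j := by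
  intro h1
  have h2 : (eL i : Fin (4 + k + 1)).val = (st j : Fin (4 + k + 1)).val := congrArg Fin.val h1
  have h3 : 4 + i.1 = j.1 := h2
  have h4 := j.2
  omega

omit [Finite σ] in
private theorem F3_clean {k : ℕ} {Γ : Type} {s : Store (4 + k + 1) (Al σ Γ)} (hs : Clean s) {j : Fin 4}
    (h2 : j ≠ 2) (h3 : j ≠ 3) (l : List (Al σ Γ)) : Clean (Function.update s (st j) l) := by
  refine ⟨?_, ?_, ?_⟩
  · rw [Function.update_of_ne (F3_st (Ne.symm h2))]
    exact hs.1
  · rw [Function.update_of_ne (F3_st (Ne.symm h3))]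
    exact hs.2.1
  · intro i
    rw [Function.update_of_ne (F3_eL i j)]
    exact hs.2.2 i

omit [Finite σ] in
private theorem F3_clean' {k : ℕ} {Γ : Type} {s s' : Store (4 + k + 1) (Al σ Γ)} (hs : Clean s)
    (h : ∀ i, i ≠ st 1 → i ≠ st 0 → s' i = s i) : Clean s' := by
  refine ⟨?_, ?_, ?_⟩
  · rw [h _ (F3_st (by decide)) (F3_st (by decide))]
    exact hs.1
  · rw [h _ (F3_st (by decide)) (F3_st (by decide))]
    exact hs.2.1
  · intro i
    rw [h _ (F3_eL i 1) (F3_eL i 0)]
    exact hs.2.2 i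

/-- One round of the machine. -/
private noncomputable def F3_R : Prog (4 + M.k + 1) (Al σ M.Γ) :=
  .seq (mv (AW σ M.Γ) (st 1) (st 0))
    (alts (cj M :: (allL (Option (Option σ) × Bool)).map fun y =>
      rule (st 0) ([Sum.inl (y.1, y.2), Sum.inl (y.1, !y.2)], [])))

private theorem F3_wpP : wpP M = .seq (.star (F3_R M)) (.seq (.empty (st 0)) (.empty (st 1))) := rfl

/-- The effect of one round. -/
private theorem F3_sem (hM : ∀ x t b, M.Acc x t b → x ∈ L) {s s' : Store (4 + M.k + 1) (Al σ M.Γ)}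
    (hs : Clean s) {w : Wd (Option (Option σ))} (hw : tape (st 1) (st 0) s = w.map Sum.inl)
    (h : Sem (F3_R M) s s') : ∃ b w', GStep L b w w' ∧ Clean s' ∧
      tape (st 1) (st 0) s' = w'.map Sum.inl := by
  obtain ⟨sa, hm, ha⟩ := sem_seq.1 h
  obtain ⟨ht, ho⟩ := sem_mv (F3_st (by decide)) hm
  have hsa : Clean sa := F3_clean' hs ho
  have htl : ∀ l : List (Al σ M.Γ), tape (st 1) (st 0) (Function.update sa (st 0) l) =
      (sa (st 1)).reverse ++ l := by
    intro l
    unfold tape
    rw [Function.update_of_ne (F3_st (by decide)), Function.update_self]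
  rw [← ht] at hw
  unfold tape at hw
  obtain ⟨p, hp, hps⟩ := sem_alts.1 ha
  rcases List.mem_cons.1 hp with rfl | hp
  · obtain ⟨x, e, e', v, ⟨t, b, hx⟩, h0, rfl⟩ := sem_cj M hsa hps
    rw [h0] at hw
    obtain ⟨u, v', rfl, hu, hv'⟩ := List.map_eq_append_iff.1 hw.symm
    obtain ⟨y, v'', rfl, hy, hv''⟩ := List.map_eq_cons_iff.1 hv'
    have hy' : y = (none, e') := Sum.inl_injective hy
    subst hy'
    refine ⟨x.length, _, GStep.conj u v'' x (hM x t b hx) le_rfl e e', F3_clean hsa (by decide) (by decide) _, ?_⟩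
    rw [htl, ← hu, ← hv'']
    simp only [List.map_append, List.map_cons, List.append_assoc, List.cons_append]
  · obtain ⟨y, -, rfl⟩ := List.mem_map.1 hp
    obtain ⟨v, h0, rfl⟩ := sem_rule.1 hps
    rw [h0] at hw
    obtain ⟨u, v', rfl, hu, hv'⟩ := List.map_eq_append_iff.1 hw.symm
    obtain ⟨z, v'', rfl, hz, hv''⟩ := List.map_eq_cons_iff.1 hv'
    obtain ⟨z', v3, rfl, hz', hv3⟩ := List.map_eq_cons_iff.1 hv''
    have h1 : z = (y.1, y.2) := Sum.inl_injective hz
    have h2 : z' = (y.1, !y.2) := Sum.inl_injective hz'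
    subst h1 h2
    refine ⟨0, _, GStep.del u v3 y.1 y.2, F3_clean hsa (by decide) (by decide) _, ?_⟩
    rw [htl, ← hu, List.nil_append]
    have h3 : v3.map Sum.inl = v := hv3
    rw [List.map_append, h3]

theorem sem_wpP {G : Type} [Group G] (g : Option (Option σ) → G) (hM : ∀ x t b, M.Acc x t b → x ∈ L)
    (hg : ∀ b w w', GStep L b w w' → val g w' = val g w) {s s' : Store (4 + M.k + 1) (Al σ M.Γ)}
    (hs : Clean s) {w : Wd (Option (Option σ))} (hw : tape (st 1) (st 0) s = w.map Sum.inl)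
    (h : Sem (wpP M) s s') : val g w = 1 := by
  rw [F3_wpP] at h
  obtain ⟨s1, h1, h2⟩ := sem_seq.1 h
  obtain ⟨s2, h3, h4⟩ := sem_seq.1 h2
  obtain ⟨h5, rfl⟩ := sem_empty.1 h3
  obtain ⟨h6, -⟩ := sem_empty.1 h4
  have h7 := sem_star.1 h1
  clear h h1 h2 h3 h4
  induction h7 using Relation.ReflTransGen.head_induction_on generalizing w with
  | refl =>
    unfold tape at hw
    rw [h5, h6] at hw
    have h8 : w = [] := List.map_eq_nil_iff.1 hw.symm
    rw [h8]
    exact val_nil g
  | head hab _ ih =>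
    obtain ⟨b, w', hst, hc, ht⟩ := F3_sem M hM hs hw hab
    rw [← hg b w w' hst]
    exact ih hc ht

/-- One round for one step of a derivation. -/
private theorem F3_run {c : ℕ} (hM : ∀ x ∈ L, ∃ t b, t ≤ c * (x.length + 1) ^ c ∧ M.Acc x t b) {b : ℕ}
    {w w' : Wd (Option (Option σ))} (hb : w.length ≤ b) (hd : GStep L b w w')
    {s : Store (4 + M.k + 1) (Al σ M.Γ)} (hs : Clean s) (hw : tape (st 1) (st 0) s = w.map Sum.inl) :
    ∃ B s', RunLe B (22 * b + 2 * (c * (b + 1) ^ c) + M.k + 22) (F3_R M) s s' ∧ Clean s' ∧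
      tape (st 1) (st 0) s' = w'.map Sum.inl := by
  have h10 : (st 1 : Fin (4 + M.k + 1)) ≠ st 0 := F3_st (by decide)
  have hA : ∀ a ∈ tape (st 1) (st 0) s, a ∈ AW σ M.Γ := by
    intro a ha
    rw [hw] at ha
    obtain ⟨y, -, rfl⟩ := List.mem_map.1 ha
    exact List.mem_map.2 ⟨y, mem_allL y, rfl⟩
  have hlen : (tape (st 1) (st 0) s).length = w.length := by rw [hw, List.length_map]
  have main : ∀ u v : Wd (Option (Option σ)), w = u ++ v → ∃ sa : Store (4 + M.k + 1) (Al σ M.Γ),
      (∀ B, space s ≤ B → RunLe B (2 * b) (mv (AW σ M.Γ) (st 1) (st 0)) s sa) ∧ Clean sa ∧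
        sa (st 1) = (u.map Sum.inl).reverse ∧ sa (st 0) = v.map Sum.inl := by
    intro u v huv
    have h1 : tape (st 1) (st 0) s = u.map Sum.inl ++ v.map Sum.inl := by
      rw [hw, huv, List.map_append]
    refine ⟨Function.update (Function.update s (st 1) (u.map Sum.inl).reverse) (st 0) (v.map Sum.inl),
      fun B hB => ?_, ?_, ?_, ?_⟩
    · refine RunLe.mono le_rfl ?_ (RunLe.mv h10 hA h1 hB)
      rw [hlen]
      omega
    · exact F3_clean (F3_clean hs (by decide) (by decide) _) (by decide) (by decide) _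
    · rw [Function.update_of_ne h10, Function.update_self]
    · rw [Function.update_self]
  have htl : ∀ (sa : Store (4 + M.k + 1) (Al σ M.Γ)) (l : List (Al σ M.Γ)),
      tape (st 1) (st 0) (Function.update sa (st 0) l) = (sa (st 1)).reverse ++ l := by
    intro sa l
    unfold tape
    rw [Function.update_of_ne h10, Function.update_self]
  cases hd with
  | del u v i e =>
    obtain ⟨sa, hmv, hca, h1, h0⟩ := main u ((i, e) :: (i, !e) :: v) rfl
    have h2 : sa (st 0) = ([Sum.inl (i, e), Sum.inl (i, !e)], ([] : List (Al σ M.Γ))).1 ++ v.map Sum.inl := h0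
    refine ⟨max (space s) (space sa), Function.update sa (st 0) ([] ++ v.map Sum.inl), ?_,
      F3_clean hca (by decide) (by decide) _, ?_⟩
    · have h3 := RunLe.rule (b := max (space s) (space sa)) h2
        (by rw [List.length_nil, add_zero]; exact le_max_right _ _)
      have h4 : RunLe (max (space s) (space sa)) 2 (alts (cj M :: (allL (Option (Option σ) × Bool)).map fun y =>
          rule (st 0) ([Sum.inl (y.1, y.2), Sum.inl (y.1, !y.2)], []))) sa
          (Function.update sa (st 0) ([] ++ v.map Sum.inl)) :=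
        RunLe.alts (List.mem_cons_of_mem _ (List.mem_map.2 ⟨(i, e), mem_allL _, rfl⟩)) h3
      refine RunLe.mono le_rfl ?_ (RunLe.seq (hmv _ (le_max_left _ _)) h4)
      omega
    · rw [htl, h1, List.reverse_reverse, List.nil_append, List.map_append]
  | conj u v x hx hxb e e' =>
    obtain ⟨sa, hmv, hca, h1, h0⟩ := main u ((none, e') :: v) rfl
    obtain ⟨t, b0, ht, hacc⟩ := hM x hx
    obtain ⟨B2, h2⟩ := run_cj M hca hacc e e' (v := v.map Sum.inl) h0
    have h3 : t ≤ c * (b + 1) ^ c :=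
      ht.trans (Nat.mul_le_mul_left c (Nat.pow_le_pow_left (Nat.succ_le_succ hxb) c))
    refine ⟨max (space s) B2, Function.update sa (st 0)
      ((cw x e ++ (none, e') :: cw x (!e)).map Sum.inl ++ v.map Sum.inl), ?_,
      F3_clean hca (by decide) (by decide) _, ?_⟩
    · have h4 : RunLe (max (space s) B2) (20 * x.length + 2 * t + M.k + 20)
          (alts (cj M :: (allL (Option (Option σ) × Bool)).map fun y =>
          rule (st 0) ([Sum.inl (y.1, y.2), Sum.inl (y.1, !y.2)], []))) sa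
          (Function.update sa (st 0)
            ((cw x e ++ (none, e') :: cw x (!e)).map Sum.inl ++ v.map Sum.inl)) :=
        RunLe.alts List.mem_cons_self (RunLe.mono (le_max_right _ _) le_rfl h2)
      refine RunLe.mono le_rfl ?_ (RunLe.seq (hmv _ (le_max_left _ _)) h4)
      omega
    · rw [htl, h1, List.reverse_reverse]
      simp only [List.map_append, List.map_cons, List.append_assoc, List.cons_append]

private theorem F3_star {c : ℕ} (hM : ∀ x ∈ L, ∃ t b, t ≤ c * (x.length + 1) ^ c ∧ M.Acc x t b) {b n : ℕ}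
    {w w' : Wd (Option (Option σ))} (hd : GDer L b n w w') :
    ∀ {s : Store (4 + M.k + 1) (Al σ M.Γ)}, Clean s → tape (st 1) (st 0) s = w.map Sum.inl →
    ∃ B s', RunLe B (n * (22 * b + 2 * (c * (b + 1) ^ c) + M.k + 22)) (.star (F3_R M)) s s' ∧
      tape (st 1) (st 0) s' = w'.map Sum.inl := by
  induction hd with
  | nil w h =>
    intro s _ hw
    refine ⟨space s, s, ?_, hw⟩
    rw [zero_mul]
    exact RunLe.starNil le_rfl
  | cons n w w' w'' h h1 _ ih =>
    intro s hs hw
    obtain ⟨B, s', hr, hc, ht⟩ := F3_run M hM h h1 hs hw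
    obtain ⟨B', s'', hr', ht'⟩ := ih hc ht
    refine ⟨max B B', s'', ?_, ht'⟩
    refine RunLe.mono le_rfl (le_of_eq ?_) (RunLe.starCons (RunLe.mono (le_max_left B B') le_rfl hr)
      (RunLe.mono (le_max_right B B') le_rfl hr'))
    ring

theorem run_wpP {c : ℕ} (hM : ∀ x ∈ L, ∃ t b, t ≤ c * (x.length + 1) ^ c ∧ M.Acc x t b) {b n : ℕ}
    {w w' : Wd (Option (Option σ))} (hd : GDer L b n w w') (hw' : w' = [])
    {s : Store (4 + M.k + 1) (Al σ M.Γ)} (hs : Clean s)
    (hw : tape (st 1) (st 0) s = w.map Sum.inl) :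
    ∃ B s', RunLe B (n * (22 * b + 2 * (c * (b + 1) ^ c) + M.k + 22) + 2) (wpP M) s s' := by
  obtain ⟨B, s1, h1, h2⟩ := F3_star M hM hd hs hw
  subst hw'
  unfold tape at h2
  rw [List.map_nil, List.append_eq_nil_iff, List.reverse_eq_nil_iff] at h2
  refine ⟨max B (space s1), s1, ?_⟩
  rw [F3_wpP]
  exact RunLe.seq (RunLe.mono (le_max_left _ _) le_rfl h1)
    (RunLe.seq (RunLe.empty h2.2 (le_max_right _ _)) (RunLe.empty h2.1 (le_max_right _ _)))

end Pool.Agent.Lib.MP_0f3a7d_alT
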