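import Mathlib
import Pool.Agent.Lib.MP_0f3a7d_alT.F3

/-!
# MP_0f3a7d_al, leaf F4: the word problem is in NP

The machine: `k = 4 + M.k`, alphabet `Al σ M.Γ` (finite), `inp = Sum.inl`, program `wpP M`. Its initial store is clean, with
tape `w.map inl` (input on `st 0 = 0`, `st 1` empty). Soundness `sem_wpP`. Completeness `run_wpP` with the derivation of
`hder`: the time is at most a polynomial in `|w| + 1`.
-/

set_option autoImplicit false

namespace Pool.Agent.Lib.MP_0f3a7d_alT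

/-- The machine. -/
private noncomputable def F4_mach {σ : Type} [Finite σ] (M : Machine σ) : Machine (Option (Option σ) × Bool) :=
  haveI := M.fin
  { k := 4 + M.k
    Γ := Al σ M.Γ
    fin := inferInstance
    inp := Sum.inl
    prog := wpP M }

private theorem F4_init {σ : Type} [Finite σ] (M : Machine σ) (w : Wd (Option (Option σ))) :
    Clean (σ := σ) ((F4_mach M).init w) ∧ tape (st 1) (st 0) ((F4_mach M).init w) = w.map Sum.inl := by
  have h0 : ∀ i : Fin (4 + M.k + 1), i ≠ 0 → (F4_mach M).init w i = [] := fun i hi => if_neg hi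
  have h1 : (F4_mach M).init w (0 : Fin (4 + M.k + 1)) = w.map Sum.inl := if_pos rfl
  have e2 : (st 2 : Fin (4 + M.k + 1)) ≠ 0 := by
    intro h
    have := congrArg Fin.val h
    simp [st] at this
  have e3 : (st 3 : Fin (4 + M.k + 1)) ≠ 0 := by
    intro h
    have := congrArg Fin.val h
    simp [st] at this
  have e1 : (st 1 : Fin (4 + M.k + 1)) ≠ 0 := by
    intro h
    have := congrArg Fin.val h
    simp [st] at this
  have e0 : (st 0 : Fin (4 + M.k + 1)) = 0 := by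
    ext
    simp [st]
  refine ⟨⟨h0 _ e2, h0 _ e3, fun i => h0 _ ?_⟩, ?_⟩
  · intro h
    have := congrArg Fin.val h
    simp [eL] at this
  · unfold tape
    rw [h0 _ e1, e0, h1]
    rfl

private theorem F4_arith (c k N n b : ℕ) (hN : 1 ≤ N) (hn : n ≤ 20 * N ^ 3) (hb : b = 20 * N ^ 2) :
    n * (22 * b + 2 * (c * (b + 1) ^ c) + k + 22) + 2 ≤
      (20 * (462 + 2 * (c * 21 ^ c) + k) + 2 + (2 * c + 5)) *
        N ^ (20 * (462 + 2 * (c * 21 ^ c) + k) + 2 + (2 * c + 5)) := by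
  have h1 : b + 1 ≤ 21 * N ^ 2 := by
    have : 1 ≤ N ^ 2 := Nat.one_le_pow _ _ hN
    omega
  have h2 : (b + 1) ^ c ≤ 21 ^ c * N ^ (2 * c) := by
    calc (b + 1) ^ c ≤ (21 * N ^ 2) ^ c := Nat.pow_le_pow_left h1 c
      _ = 21 ^ c * N ^ (2 * c) := by rw [mul_pow, ← pow_mul]
  have hN2 : N ^ 2 ≤ N ^ (2 * c + 2) := Nat.pow_le_pow_right hN (by omega)
  have hN2c : N ^ (2 * c) ≤ N ^ (2 * c + 2) := Nat.pow_le_pow_right hN (by omega)
  have hN0 : 1 ≤ N ^ (2 * c + 2) := Nat.one_le_pow _ _ hN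
  have h3 : 22 * b + 2 * (c * (b + 1) ^ c) + k + 22 ≤ (462 + 2 * (c * 21 ^ c) + k) * N ^ (2 * c + 2) := by
    have a1 : 22 * b ≤ 440 * N ^ (2 * c + 2) := by
      rw [hb]
      calc 22 * (20 * N ^ 2) = 440 * N ^ 2 := by ring
        _ ≤ 440 * N ^ (2 * c + 2) := Nat.mul_le_mul_left _ hN2
    have a2 : 2 * (c * (b + 1) ^ c) ≤ 2 * (c * 21 ^ c) * N ^ (2 * c + 2) := by
      calc 2 * (c * (b + 1) ^ c) ≤ 2 * (c * (21 ^ c * N ^ (2 * c))) :=
            Nat.mul_le_mul_left _ (Nat.mul_le_mul_left _ h2)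
        _ = 2 * (c * 21 ^ c) * N ^ (2 * c) := by ring
        _ ≤ 2 * (c * 21 ^ c) * N ^ (2 * c + 2) := Nat.mul_le_mul_left _ hN2c
    have a3 : k + 22 ≤ (k + 22) * N ^ (2 * c + 2) := Nat.le_mul_of_pos_right _ hN0
    calc 22 * b + 2 * (c * (b + 1) ^ c) + k + 22
        = 22 * b + 2 * (c * (b + 1) ^ c) + (k + 22) := by ring
      _ ≤ 440 * N ^ (2 * c + 2) + 2 * (c * 21 ^ c) * N ^ (2 * c + 2) + (k + 22) * N ^ (2 * c + 2) :=
          Nat.add_le_add (Nat.add_le_add a1 a2) a3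
      _ = (462 + 2 * (c * 21 ^ c) + k) * N ^ (2 * c + 2) := by ring
  have h4 : n * (22 * b + 2 * (c * (b + 1) ^ c) + k + 22) ≤
      20 * (462 + 2 * (c * 21 ^ c) + k) * N ^ (2 * c + 5) := by
    calc n * (22 * b + 2 * (c * (b + 1) ^ c) + k + 22)
        ≤ (20 * N ^ 3) * ((462 + 2 * (c * 21 ^ c) + k) * N ^ (2 * c + 2)) := Nat.mul_le_mul hn h3
      _ = 20 * (462 + 2 * (c * 21 ^ c) + k) * N ^ (2 * c + 5) := by ring
  have h5 : 2 ≤ 2 * N ^ (2 * c + 5) := by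
    have : 1 ≤ N ^ (2 * c + 5) := Nat.one_le_pow _ _ hN
    omega
  calc n * (22 * b + 2 * (c * (b + 1) ^ c) + k + 22) + 2
      ≤ 20 * (462 + 2 * (c * 21 ^ c) + k) * N ^ (2 * c + 5) + 2 * N ^ (2 * c + 5) := Nat.add_le_add h4 h5
    _ = (20 * (462 + 2 * (c * 21 ^ c) + k) + 2) * N ^ (2 * c + 5) := by ring
    _ ≤ _ := Nat.mul_le_mul (Nat.le_add_right _ _) (Nat.pow_le_pow_right hN (Nat.le_add_left _ _))

theorem wp_inNP {σ : Type} [Finite σ] {L : Set (List σ)} (hL : InNP L) {G : Type} [Group G]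
    (g : Option (Option σ) → G) (hg : ∀ b w w', GStep L b w w' → val g w' = val g w)
    (hder : ∀ w : Wd (Option (Option σ)), val g w = 1 →
      ∃ n ≤ 20 * (w.length + 1) ^ 3, GDer L (20 * (w.length + 1) ^ 2) n w []) :
    InNP {w : Wd (Option (Option σ)) | val g w = 1} := by
  obtain ⟨M, c, hM1, hM2⟩ := hL
  refine ⟨F4_mach M, 20 * (462 + 2 * (c * 21 ^ c) + M.k) + 2 + (2 * c + 5), ?_, ?_⟩
  · intro w hw
    obtain ⟨n, hn, hd⟩ := hder w hw
    obtain ⟨B, s', t, ht, hr⟩ := run_wpP M hM1 hd rfl (F4_init M w).1 (F4_init M w).2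
    refine ⟨t, B, ?_, s', hr⟩
    exact ht.trans (F4_arith c M.k (w.length + 1) n _ (Nat.le_add_left _ _) hn rfl)
  · intro w t b h
    obtain ⟨s, hs⟩ := h
    exact sem_wpP M g hM2 hg (F4_init M w).1 (F4_init M w).2 ⟨b, t, hs⟩

end Pool.Agent.Lib.MP_0f3a7d_alT
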