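import Mathlib
import Pool.Agent.Lib.MP_0f3a7d_alT.A4
import Pool.Agent.Lib.MP_0f3a7d_alT.B2
import Pool.Agent.Lib.MP_0f3a7d_alT.D4
import Pool.Agent.Lib.MP_0f3a7d_alT.E4
import Pool.Agent.Lib.MP_0f3a7d_alT.F4

/-!
# MP_0f3a7d_al: if the group `HL L` embeds in a group with simply connected cones then `L` is in simultaneous polynomial time
and linear space
-/

set_option autoImplicit false

namespace Pool.Agent.Lib.MP_0f3a7d_alT

theorem val_flatMap {σ ι H : Type} [Group H] (g : ι → H) (L : Set (List σ)) (f : HL L →* H)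
    (A : σ → Wd ι) (hA : ∀ a, val g (A a) = f (HNNExtension.of (FreeGroup.of (some a)))) (x : List σ) :
    val g (x.flatMap A) = f (HNNExtension.of (px x)) := by
  induction x with
  | nil =>
    rw [List.flatMap_nil, val_nil]
    have h1 : px ([] : List σ) = 1 := rfl
    rw [h1, map_one, map_one]
  | cons a x ih =>
    rw [List.flatMap_cons, val_append, hA, ih]
    have h1 : px (a :: x) = FreeGroup.of (some a) * px x := by
      unfold px FreeGroup.of
      rw [FreeGroup.mul_mk]
      rfl
    rw [h1, map_mul, map_mul]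

theorem main {σ : Type} [Finite σ] (L : Set (List σ)) (hL : InNP L) :
    WordNP (HL L) ∧ (EmbedsSC (HL L) → InPolyTimeLinSpace L) := by
  refine ⟨⟨Option (Option σ), inferInstance, gen L, gen_top L,
    wp_inNP hL (gen L) (fun b w w' hs => val_gstep L hs) (gder_of_val L)⟩, ?_⟩
  rintro ⟨H, iH, f, hf, ι, iι, g, hg, hsc⟩
  obtain ⟨M, hM⟩ := divis_of_cones hsc
  obtain ⟨c, hc⟩ := der_of_divis hM
  have hR : {r : Wd ι | r.length < M ∧ val g r = 1}.Finite :=
    (List.finite_length_lt (ι × Bool) M).subset fun r hr => hr.1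
  choose A hA using fun a : σ => exists_word hg (f (HNNExtension.of (FreeGroup.of (some a))))
  obtain ⟨U, hU⟩ := exists_word hg (f HNNExtension.t)
  obtain ⟨T, hT⟩ := exists_word hg (f (HNNExtension.of (FreeGroup.of none)))
  have key := linspace_machine g A U T _ hR (fun r hr => hr.2) c hc
  have hset : {x : List σ | val g (comm A U T x) = 1} = L := by
    ext x
    have h1 : val g (comm A U T x) =
        f (HNNExtension.t * HNNExtension.of (cx x) * HNNExtension.t⁻¹ * (HNNExtension.of (cx x))⁻¹) := by
      unfold comm cx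
      simp only [val_append, val_inv, val_flatMap g L f A hA x, hU, hT, map_mul, map_inv]
      group
    have h2 : x ∈ {x : List σ | val g (comm A U T x) = 1} ↔ val g (comm A U T x) = 1 := Iff.rfl
    rw [h2, h1, map_eq_one_iff f hf]
    exact comm_iff L
  rwa [hset] at key

end Pool.Agent.Lib.MP_0f3a7d_alT
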